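import Pool.Agent.Helper14.LC.Fin

/-!
# Abelian Sylow subgroups with cyclic commutator `[P, N_G(P)]`
-/

namespace Pool.Agent.Helper14.LC

open scoped Pointwise commutatorElement

open Pool.Agent.Helper24.S7 (InCC)

/-- for a normal Sylow subgroup `Q` of `N`, some normal subgroup of `p`-power index meets `Q`
in a subgroup of `[Q, N]` -/
theorem exists_comm {p : ℕ} [hp : Fact p.Prime] {N : Type} [Group N] [Finite N]
    (Q : Subgroup N) [Q.Normal] (hQ : IsPGroup p Q) (hi : ¬ p ∣ Q.index) :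
    ∃ (L : Subgroup N) (_ : L.Normal), IsPGroup p (N ⧸ L) ∧ Q ⊓ L ≤ ⁅Q, (⊤ : Subgroup N)⁆ := by
  obtain ⟨k, hk⟩ := IsPGroup.iff_card.1 hQ
  have hcop : (Nat.card Q).Coprime Q.index := by
    rw [hk]
    exact Nat.Coprime.pow_left _ ((Nat.Prime.coprime_iff_not_dvd hp.out).2 hi)
  obtain ⟨H, hH⟩ := Subgroup.exists_right_complement'_of_coprime hcop
  have hDQ : ⁅Q, (⊤ : Subgroup N)⁆ ≤ Q := Subgroup.commutator_le_left Q ⊤
  have hD : ⁅Q, (⊤ : Subgroup N)⁆.Normal := Subgroup.commutator_normal Q ⊤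
  have htop : Q ⊔ H = ⊤ := hH.sup_eq_top
  have hinf : Q ⊓ H = ⊥ := hH.disjoint.eq_bot
  have hn : (⁅Q, (⊤ : Subgroup N)⁆ ⊔ H).Normal := by
    rw [← Subgroup.normalizer_eq_top_iff, eq_top_iff]
    refine htop.symm.le.trans (sup_le (fun q hq => ?_) (le_trans le_sup_right
      Subgroup.le_normalizer))
    rw [Subgroup.mem_normalizer_iff]
    have h1 : ∀ q ∈ Q, ∀ x ∈ ⁅Q, (⊤ : Subgroup N)⁆ ⊔ H,
        q * x * q⁻¹ ∈ ⁅Q, (⊤ : Subgroup N)⁆ ⊔ H := by
      intro q hq x hx
      have h2 : q * x * q⁻¹ = q * x * q⁻¹ * x⁻¹ * x := by group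
      rw [h2, ← commutatorElement_def]
      exact mul_mem (Subgroup.mem_sup_left (Subgroup.commutator_mem_commutator hq
        (Subgroup.mem_top x))) hx
    intro x
    refine ⟨h1 q hq x, fun hx => ?_⟩
    have h3 := h1 q⁻¹ (inv_mem hq) _ hx
    have h4 : q⁻¹ * (q * x * q⁻¹) * q⁻¹⁻¹ = x := by group
    rwa [h4] at h3
  refine ⟨⁅Q, (⊤ : Subgroup N)⁆ ⊔ H, hn, ?_, ?_⟩
  · have h1 : (⁅Q, (⊤ : Subgroup N)⁆ ⊔ H).index ∣ p ^ k := by
      rw [← hk, ← hH.index_eq_card]
      exact Subgroup.index_dvd_of_le le_sup_right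
    obtain ⟨j, -, hj⟩ := (Nat.dvd_prime_pow hp.out).1 h1
    exact IsPGroup.of_card (n := j) (by rw [← Subgroup.index_eq_card, hj])
  · intro x hx
    obtain ⟨hxQ, hxL⟩ := Subgroup.mem_inf.1 hx
    rw [← SetLike.mem_coe, Subgroup.normal_mul] at hxL
    obtain ⟨d, hd, h, hh, rfl⟩ := Set.mem_mul.1 hxL
    have h5 : h ∈ Q ⊓ H := by
      refine Subgroup.mem_inf.2 ⟨?_, hh⟩
      have h6 := mul_mem (inv_mem (hDQ hd)) hxQ
      simpa using h6
    rw [hinf, Subgroup.mem_bot] at h5
    rw [h5, mul_one]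
    exact hd

/-- abelian groups have no wreath quotient -/
theorem no_wreath_of_comm {p : ℕ} [hp : Fact p.Prime] {P : Type} [Group P]
    (hP : ∀ a b : P, a * b = b * a)
    (f : P →* RegularWreathProduct (Multiplicative (ZMod p)) (Multiplicative (ZMod p))) :
    ¬ Function.Surjective f := by
  intro hf
  have hc : ∀ a b : RegularWreathProduct (Multiplicative (ZMod p)) (Multiplicative (ZMod p)),
      a * b = b * a := by
    intro a b
    obtain ⟨x, rfl⟩ := hf a
    obtain ⟨y, rfl⟩ := hf b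
    rw [← map_mul, hP, map_mul]
  classical
  let u : Multiplicative (ZMod p) := Multiplicative.ofAdd 1
  have hu : u ≠ 1 := by
    intro h
    exact one_ne_zero (α := ZMod p) (Multiplicative.ofAdd.injective h)
  have h1 := hc ⟨Pi.mulSingle 1 u, 1⟩ ⟨1, u⟩
  have h2 := congrArg RegularWreathProduct.left h1
  have h3 := congrFun h2 1
  rw [RegularWreathProduct.mul_left, RegularWreathProduct.mul_left, Pi.mul_apply, Pi.mul_apply] at h3
  simp only [Pi.one_apply, mul_one, one_mul, Pi.mulSingle_eq_same] at h3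
  rw [Pi.mulSingle_eq_of_ne (inv_ne_one.2 hu)] at h3
  exact hu h3

theorem inCC_abelian {p : ℕ} [hp : Fact p.Prime] (G : Type) [Group G] [Finite G] (P : Sylow p G)
    (hP : ∀ a b : P, a * b = b * a)
    (hc : IsCyclic (⁅(P : Subgroup G), Subgroup.normalizer (P : Set G)⁆ : Subgroup G)) :
    InCC p G := by
  have hle : (P : Subgroup G) ≤ Subgroup.normalizer (P : Set G) := Subgroup.le_normalizer
  haveI : ((P : Subgroup G).subgroupOf (Subgroup.normalizer (P : Set G))).Normal :=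
    Subgroup.normal_in_normalizer
  obtain ⟨L, hL, hpL, hQL⟩ := exists_comm (p := p)
    ((P : Subgroup G).subgroupOf (Subgroup.normalizer (P : Set G)))
    (P.isPGroup'.of_injective (Subgroup.subgroupOfEquivOfLe hle).toMonoidHom
      (Subgroup.subgroupOfEquivOfLe hle).injective)
    (fun h => P.not_dvd_index (h.trans (Subgroup.relIndex_dvd_index_of_le hle)))
  refine inCC_local G P (no_wreath_of_comm hP) L hpL ?_
  have h1 : ∀ x ∈ ((P : Subgroup G).subgroupOf (Subgroup.normalizer (P : Set G)) ⊓ L),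
      (x : G) ∈ ⁅(P : Subgroup G), Subgroup.normalizer (P : Set G)⁆ := by
    intro x hx
    have h2 := Subgroup.mem_map_of_mem (Subgroup.normalizer (P : Set G)).subtype (hQL hx)
    rw [Subgroup.map_commutator] at h2
    refine Subgroup.commutator_mono ?_ ?_ h2
    · rintro _ ⟨y, hy, rfl⟩
      exact hy
    · rintro _ ⟨y, -, rfl⟩
      exact y.2
  haveI := hc
  let f : ((P : Subgroup G).subgroupOf (Subgroup.normalizer (P : Set G)) ⊓ L :
      Subgroup (Subgroup.normalizer (P : Set G))) →*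
      (⁅(P : Subgroup G), Subgroup.normalizer (P : Set G)⁆ : Subgroup G) :=
    MonoidHom.mk' (fun x => ⟨((x : Subgroup.normalizer (P : Set G)) : G), h1 _ x.2⟩)
      (fun _ _ => rfl)
  have hf : Function.Injective f := by
    intro x y hxy
    have h2 : ((x : Subgroup.normalizer (P : Set G)) : G) = (y : Subgroup.normalizer (P : Set G)) :=
      congrArg (fun z : (⁅(P : Subgroup G), Subgroup.normalizer (P : Set G)⁆ : Subgroup G) =>
        (z : G)) hxy
    exact Subtype.ext (Subtype.ext h2)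
  exact isCyclic_of_injective f hf

end Pool.Agent.Helper14.LC
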