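import Mathlib

/-!
# The transfer cocycle of a homomorphism `N → A` and partial transfers

`co lam r c` (`r ∈ G`, `c ∈ G / N`) is `lam ((r c).out⁻¹ r c.out)`; `TO lam O r` is its product over
the finite set `O` of cosets.
-/

namespace Pool.Agent.Helper14.LC

variable {G : Type} [Group G] {N : Subgroup G}

/-- the element `(r c).out⁻¹ r c.out` of `N` -/
noncomputable def el (N : Subgroup G) (r : G) (c : G ⧸ N) : N :=
  ⟨((r • c : G ⧸ N).out)⁻¹ * r * c.out, by
    rw [mul_assoc]
    apply QuotientGroup.eq.1
    have h1 : ((r • c : G ⧸ N).out : G ⧸ N) = r • c := QuotientGroup.out_eq' _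
    have h2 : ((r * c.out : G) : G ⧸ N) = r • c := by
      conv_rhs => rw [← QuotientGroup.out_eq' c]
      rfl
    rw [h1, h2]⟩

theorem el_mul (r s : G) (c : G ⧸ N) : el N (r * s) c = el N r (s • c) * el N s c := by
  apply Subtype.ext
  change (((r * s) • c : G ⧸ N).out)⁻¹ * (r * s) * c.out =
    ((r • s • c : G ⧸ N).out)⁻¹ * r * (s • c : G ⧸ N).out * (((s • c : G ⧸ N).out)⁻¹ * s * c.out)
  rw [mul_smul]
  group

theorem el_one (c : G ⧸ N) : el N 1 c = 1 := by
  apply Subtype.ext
  change (((1 : G) • c : G ⧸ N).out)⁻¹ * 1 * c.out = 1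
  rw [one_smul]
  group

/-- for a fixed coset -/
theorem el_fix {r : G} {c : G ⧸ N} (h : r • c = c) : (el N r c : G) = (c.out)⁻¹ * r * c.out := by
  change ((r • c : G ⧸ N).out)⁻¹ * r * c.out = _
  rw [h]

variable {A : Type} [CommGroup A] (lam : N →* A)

/-- the transfer cocycle -/
noncomputable def co (r : G) (c : G ⧸ N) : A := lam (el N r c)

theorem co_mul (r s : G) (c : G ⧸ N) : co lam (r * s) c = co lam r (s • c) * co lam s c := by
  unfold co
  rw [el_mul, map_mul]

theorem co_one (c : G ⧸ N) : co lam 1 c = 1 := by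
  unfold co
  rw [el_one, map_one]

theorem co_inv (r : G) (c : G ⧸ N) : co lam r⁻¹ (r • c) = (co lam r c)⁻¹ := by
  have h := co_mul lam r⁻¹ r c
  rw [inv_mul_cancel, co_one] at h
  exact eq_inv_of_mul_eq_one_left h.symm

theorem co_pow (g : G) (n : ℕ) (c : G ⧸ N) :
    co lam (g ^ n) c = ∏ i ∈ Finset.range n, co lam g (g ^ i • c) := by
  induction n with
  | zero => rw [pow_zero, co_one, Finset.range_zero, Finset.prod_empty]
  | succ n ih => rw [pow_succ', co_mul, ih, Finset.prod_range_succ, mul_comm]

/-- partial transfer -/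
noncomputable def TO (O : Finset (G ⧸ N)) (r : G) : A := ∏ c ∈ O, co lam r c

theorem prod_smul_stable {O : Finset (G ⧸ N)} {s : G} (hs : ∀ c ∈ O, s • c ∈ O)
    (f : G ⧸ N → A) : ∏ c ∈ O, f (s • c) = ∏ c ∈ O, f c := by
  classical
  have hinj : Set.InjOn (fun c : G ⧸ N => s • c) (O : Set (G ⧸ N)) :=
    (MulAction.injective s).injOn
  have himg : O.image (fun c => s • c) = O := by
    apply Finset.eq_of_subset_of_card_le
    · intro c hc
      obtain ⟨d, hd, rfl⟩ := Finset.mem_image.1 hc
      exact hs d hd
    · rw [Finset.card_image_of_injOn hinj]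
  conv_rhs => rw [← himg]
  rw [Finset.prod_image hinj]

theorem TO_mul {O : Finset (G ⧸ N)} (r : G) {s : G} (hs : ∀ c ∈ O, s • c ∈ O) :
    TO lam O (r * s) = TO lam O r * TO lam O s := by
  unfold TO
  rw [← prod_smul_stable hs (fun c => co lam r c), ← Finset.prod_mul_distrib]
  apply Finset.prod_congr rfl
  intro c _
  rw [co_mul]

theorem TO_one (O : Finset (G ⧸ N)) : TO lam O 1 = 1 := by
  unfold TO
  apply Finset.prod_eq_one
  intro c _
  rw [co_one]

/-- conjugation moves the set of cosets -/
theorem TO_conj {O : Finset (G ⧸ N)} [DecidableEq (G ⧸ N)] {r : G} (hr : ∀ c ∈ O, r • c ∈ O)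
    (y : G) : TO lam (O.image (fun c => y • c)) (y * r * y⁻¹) = TO lam O r := by
  unfold TO
  rw [Finset.prod_image ((MulAction.injective y).injOn)]
  have h1 : ∀ c, co lam (y * r * y⁻¹) (y • c) = co lam y (r • c) * co lam r c *
      (co lam y c)⁻¹ := by
    intro c
    rw [co_mul, co_mul, co_inv, inv_smul_smul]
  rw [Finset.prod_congr rfl (fun c _ => h1 c), Finset.prod_mul_distrib, Finset.prod_mul_distrib,
    prod_smul_stable hr (fun c => co lam y c), Finset.prod_inv_distrib]
  rw [mul_comm (∏ c ∈ O, co lam y c), mul_inv_cancel_right]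

/-- the full transfer as a homomorphism -/
noncomputable def TU [Finite G] : G →* A :=
  letI : Fintype (G ⧸ N) := Fintype.ofFinite _
  { toFun := fun r => TO lam Finset.univ r
    map_one' := TO_one lam _
    map_mul' := fun r s => TO_mul lam r (fun _ _ => Finset.mem_univ _) }

theorem TU_apply [Finite G] [Fintype (G ⧸ N)] (r : G) : TU lam r = ∏ c, co lam r c := by
  unfold TU TO
  change ∏ c ∈ (@Finset.univ _ (Fintype.ofFinite _)), co lam r c = _
  congr 1
  ext
  simp

/-- the product over a set of cosets which is a union of `g`-cycles with trivial cycle products -/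
theorem prod_cycles (g : G) (hg : ∃ n, 0 < n ∧ g ^ n = 1) (n : ℕ) :
    ∀ Y : Finset (G ⧸ N), Y.card ≤ n → (∀ c ∈ Y, g • c ∈ Y) →
      (∀ c ∈ Y, co lam (g ^ (Function.minimalPeriod (fun x : G ⧸ N => g • x) c)) c = 1) →
      ∏ c ∈ Y, co lam g c = 1 := by
  classical
  induction n with
  | zero =>
    intro Y hY _ _
    have : Y = ∅ := Finset.card_eq_zero.1 (Nat.le_zero.1 hY)
    rw [this, Finset.prod_empty]
  | succ n ih =>
    intro Y hY hst hcy
    rcases Y.eq_empty_or_nonempty with rfl | ⟨c, hc⟩
    · exact Finset.prod_empty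
    · let k := Function.minimalPeriod (fun x : G ⧸ N => g • x) c
      have hiter : ∀ i : ℕ, ((fun x : G ⧸ N => g • x)^[i]) c = g ^ i • c := by
        intro i
        rw [smul_iterate]
      have hk : 0 < k := by
        obtain ⟨m, hm, hgm⟩ := hg
        apply Function.minimalPeriod_pos_of_mem_periodicPts
        refine ⟨m, hm, ?_⟩
        change ((fun x : G ⧸ N => g • x)^[m]) c = c
        rw [hiter, hgm, one_smul]
      have hkc : g ^ k • c = c := by
        rw [← hiter]
        exact Function.isPeriodicPt_minimalPeriod _ c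
      have hmem : ∀ i : ℕ, g ^ i • c ∈ Y := by
        intro i
        induction i with
        | zero => rw [pow_zero, one_smul]; exact hc
        | succ i ih => rw [pow_succ', mul_smul]; exact hst _ ih
      let Z : Finset (G ⧸ N) := (Finset.range k).image (fun i => g ^ i • c)
      have hinj : Set.InjOn (fun i : ℕ => g ^ i • c) (Finset.range k : Set ℕ) := by
        intro i hi j hj hij
        have h1 := @Function.iterate_injOn_Iio_minimalPeriod _ (fun x : G ⧸ N => g • x) c i
          (by simpa using hi) j (by simpa using hj)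
        apply h1
        change ((fun x : G ⧸ N => g • x)^[i]) c = ((fun x : G ⧸ N => g • x)^[j]) c
        rw [hiter, hiter]
        exact hij
      have hZY : Z ⊆ Y := by
        intro d hd
        obtain ⟨i, _, rfl⟩ := Finset.mem_image.1 hd
        exact hmem i
      have hZprod : ∏ d ∈ Z, co lam g d = 1 := by
        rw [Finset.prod_image hinj, ← co_pow]
        exact hcy c hc
      have hcZ : c ∈ Z := by
        refine Finset.mem_image.2 ⟨0, Finset.mem_range.2 hk, ?_⟩
        rw [pow_zero, one_smul]
      have hcard : (Y \ Z).card ≤ n := by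
        have h1 : (Y \ Z).card < Y.card :=
          Finset.card_lt_card (Finset.sdiff_ssubset hZY ⟨c, hcZ⟩)
        omega
      have hst' : ∀ d ∈ Y \ Z, g • d ∈ Y \ Z := by
        intro d hd
        rw [Finset.mem_sdiff] at hd ⊢
        refine ⟨hst d hd.1, fun hgd => hd.2 ?_⟩
        obtain ⟨i, hi, hie⟩ := Finset.mem_image.1 hgd
        rcases Nat.eq_zero_or_pos i with rfl | hi0
        · refine Finset.mem_image.2 ⟨k - 1, Finset.mem_range.2 (by omega), ?_⟩
          apply MulAction.injective g
          change g • (g ^ (k - 1) • c) = g • d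
          rw [← hie, ← mul_smul, ← pow_succ', Nat.sub_add_cancel hk, hkc, pow_zero, one_smul]
        · refine Finset.mem_image.2 ⟨i - 1, Finset.mem_range.2 (by
            have := Finset.mem_range.1 hi; omega), ?_⟩
          apply MulAction.injective g
          change g • (g ^ (i - 1) • c) = g • d
          rw [← hie, ← mul_smul, ← pow_succ', Nat.sub_add_cancel hi0]
      rw [← Finset.prod_sdiff hZY, hZprod, mul_one]
      exact ih (Y \ Z) hcard hst' (fun d hd => hcy d (Finset.mem_sdiff.1 hd).1)

end Pool.Agent.Helper14.LC
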