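import Mathlib

/-!
# Metacyclic `p`-groups, `p` odd
-/

namespace Pool.Agent.Helper14.LC

/-- metacyclic groups -/
def Metacyclic (P : Type) [Group P] : Prop :=
  ∃ (C : Subgroup P) (_ : C.Normal), IsCyclic C ∧ IsCyclic (P ⧸ C)

theorem Metacyclic.of_injective {P D : Type} [Group P] [Group D] (h : Metacyclic P) (f : D →* P)
    (hf : Function.Injective f) : Metacyclic D := by
  obtain ⟨C, hC, h1, h2⟩ := h
  let g : D →* P ⧸ C := (QuotientGroup.mk' C).comp f
  refine ⟨g.ker, inferInstance, ?_, ?_⟩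
  · have h3 : ∀ x : g.ker, f x ∈ C := fun x => (QuotientGroup.eq_one_iff _).1 x.2
    exact isCyclic_of_injective ((f.comp g.ker.subtype).codRestrict C h3) (by
      intro a b hab
      have h4 : f a = f b := congrArg Subtype.val hab
      exact Subtype.ext (hf h4))
  · have h3 : IsCyclic g.range := inferInstance
    exact isCyclic_of_injective (QuotientGroup.quotientKerEquivRange g).toMonoidHom
      (QuotientGroup.quotientKerEquivRange g).injective

theorem Metacyclic.of_surjective {P E : Type} [Group P] [Group E] (h : Metacyclic P) (f : P →* E)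
    (hf : Function.Surjective f) : Metacyclic E := by
  obtain ⟨C, hC, h1, h2⟩ := h
  haveI hn : (C.map f).Normal := hC.map f hf
  refine ⟨C.map f, hn, ?_, ?_⟩
  · exact isCyclic_of_surjective (f.subgroupMap C) (f.subgroupMap_surjective C)
  · refine isCyclic_of_surjective (QuotientGroup.map C (C.map f) f (Subgroup.le_comap_map f C)) ?_
    intro y
    obtain ⟨e, rfl⟩ := QuotientGroup.mk_surjective y
    obtain ⟨x, rfl⟩ := hf e
    exact ⟨(x : P ⧸ C), rfl⟩

theorem pow_conj {P : Type} [Group P] {x c : P} {k : ℤ} (h : c * x = x * c ^ k) (n : ℕ) :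
    (x * c) ^ n = x ^ n * c ^ (∑ i ∈ Finset.range n, k ^ i) := by
  have h1 : ∀ m : ℤ, c ^ m * x = x * (c ^ m) ^ k := by
    intro m
    have h2 : x⁻¹ * c * x = c ^ k := by rw [mul_assoc, h, inv_mul_cancel_left]
    have h3 : x⁻¹ * c ^ m * x = (c ^ k) ^ m := by
      rw [← h2]
      have h4 : x⁻¹ * c * x = x⁻¹ * c * (x⁻¹)⁻¹ := by rw [inv_inv]
      have h5 : x⁻¹ * c ^ m * x = x⁻¹ * c ^ m * (x⁻¹)⁻¹ := by rw [inv_inv]
      rw [h4, h5, conj_zpow]
    rw [← zpow_mul, mul_comm, zpow_mul, ← h3]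
    group
  induction n with
  | zero => rw [pow_zero, pow_zero, Finset.range_zero, Finset.sum_empty, zpow_zero, mul_one]
  | succ n ih =>
    rw [pow_succ, ih, geom_sum_succ, zpow_add, zpow_one, pow_succ, mul_comm k, zpow_mul]
    calc x ^ n * c ^ (∑ i ∈ Finset.range n, k ^ i) * (x * c)
        = x ^ n * (c ^ (∑ i ∈ Finset.range n, k ^ i) * x) * c := by group
      _ = x ^ n * (x * (c ^ (∑ i ∈ Finset.range n, k ^ i)) ^ k) * c := by rw [h1]
      _ = _ := by group

theorem fiber_key {p : ℕ} [hp : Fact p.Prime] (hodd : p ≠ 2) {P : Type} [Group P]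
    (hP : IsPGroup p P) {x c : P} {k : ℤ} (h : c * x = x * c ^ k) (hx : x ^ p = 1)
    (hxc : (x * c) ^ p = 1) : c ^ p = 1 := by
  have hpo : Odd p := hp.out.odd_of_ne_two hodd
  have hs : c ^ (∑ i ∈ Finset.range p, k ^ i) = 1 := by
    rw [pow_conj h, hx, one_mul] at hxc
    exact hxc
  have hk : c ^ (k ^ p) = c := by
    have h2 : ∀ n : ℕ, x⁻¹ ^ n * c * x ^ n = c ^ (k ^ n) := by
      intro n
      induction n with
      | zero => simp
      | succ n ih =>
        have h3 : x⁻¹ * c * x = c ^ k := by rw [mul_assoc, h, inv_mul_cancel_left]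
        have h4 : x⁻¹ * c ^ (k ^ n) * x = (c ^ k) ^ (k ^ n) := by
          rw [← h3]
          have h5 : x⁻¹ * c * x = x⁻¹ * c * (x⁻¹)⁻¹ := by rw [inv_inv]
          have h6 : x⁻¹ * c ^ (k ^ n) * x = x⁻¹ * c ^ (k ^ n) * (x⁻¹)⁻¹ := by rw [inv_inv]
          rw [h5, h6, conj_zpow]
        rw [pow_succ', pow_succ, pow_succ', zpow_mul, ← h4, ← ih]
        group
    have h3 := h2 p
    rw [inv_pow, hx, inv_one, one_mul, mul_one] at h3
    exact h3.symm
  obtain ⟨r, hr⟩ := (IsPGroup.iff_orderOf.1 hP) c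
  rcases Nat.eq_zero_or_pos r with rfl | hr0
  · rw [pow_zero, orderOf_eq_one_iff] at hr
    rw [hr, one_pow]
  · have hk1 : (k : ZMod p) = 1 := by
      have h3 : c ^ (k ^ p - 1) = 1 := by
        rw [zpow_sub, hk, zpow_one, mul_inv_cancel]
      have h4 : (orderOf c : ℤ) ∣ k ^ p - 1 := orderOf_dvd_iff_zpow_eq_one.2 h3
      have h5 : (p : ℤ) ∣ k ^ p - 1 := by
        refine dvd_trans ?_ h4
        rw [hr]
        exact_mod_cast dvd_pow_self p (by omega)
      have h6 : ((k ^ p - 1 : ℤ) : ZMod p) = 0 := (ZMod.intCast_zmod_eq_zero_iff_dvd _ p).2 h5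
      push_cast at h6
      rw [ZMod.pow_card] at h6
      exact sub_eq_zero.1 h6
    have h7 : (p : ℤ) ∣ k - 1 := by
      rw [← ZMod.intCast_zmod_eq_zero_iff_dvd]
      push_cast
      rw [hk1, sub_self]
    obtain ⟨b, hb⟩ := h7
    have hkb : k = 1 + p * b := by linarith
    have h8 := odd_sq_dvd_geom_sum₂_sub (R := ℤ) (a := 1) (b := b) hpo
    simp only [one_pow, mul_one] at h8
    rw [← hkb] at h8
    have h9 : (orderOf c : ℤ) ∣ ∑ i ∈ Finset.range p, k ^ i := orderOf_dvd_iff_zpow_eq_one.2 hs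
    have hr1 : r = 1 := by
      by_contra hne
      have hr2 : 2 ≤ r := by omega
      have h10 : (p : ℤ) ^ 2 ∣ ∑ i ∈ Finset.range p, k ^ i := by
        refine dvd_trans ?_ h9
        rw [hr]
        exact_mod_cast pow_dvd_pow p hr2
      have h11 : (p : ℤ) ^ 2 ∣ (p : ℤ) := by
        have := dvd_sub h10 h8
        rwa [sub_sub_cancel] at this
      have h12 : p ^ 2 ∣ p := by exact_mod_cast h11
      have h13 := Nat.le_of_dvd hp.out.pos h12
      have h14 := hp.out.one_lt
      nlinarith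
    rw [← orderOf_dvd_iff_pow_eq_one, hr, hr1, pow_one]

/-- a metacyclic `p`-group, `p` odd, has at most `p ^ 2` elements with `x ^ p = 1` -/
theorem Metacyclic.card_le {p : ℕ} [hp : Fact p.Prime] (hodd : p ≠ 2) {P : Type} [Group P]
    [Finite P] (hP : IsPGroup p P) (h : Metacyclic P) :
    Nat.card {x : P // x ^ p = 1} ≤ p ^ 2 := by
  classical
  haveI : Fintype P := Fintype.ofFinite P
  obtain ⟨C, hC, h1, h2⟩ := h
  haveI : Fintype (P ⧸ C) := Fintype.ofFinite _
  haveI : Fintype C := Fintype.ofFinite _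
  rw [Nat.card_eq_fintype_card, Fintype.card_subtype]
  let S : Finset P := Finset.univ.filter (fun x => x ^ p = 1)
  have hS : ∀ x, x ∈ S ↔ x ^ p = 1 := by
    intro x
    rw [Finset.mem_filter]
    exact ⟨fun h => h.2, fun h => ⟨Finset.mem_univ _, h⟩⟩
  change S.card ≤ p ^ 2
  obtain ⟨a, ha⟩ := h1.exists_generator
  have hact : ∀ (x : P) (c : P), c ∈ C → ∃ k : ℤ, c * x = x * c ^ k := by
    intro x c hc
    have h3 : x⁻¹ * (a : P) * x ∈ C := by
      have := hC.conj_mem _ a.2 x⁻¹
      rwa [inv_inv] at this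
    obtain ⟨k, hk⟩ := Subgroup.mem_zpowers_iff.1 (ha ⟨_, h3⟩)
    have hk' : (a : P) ^ k = x⁻¹ * (a : P) * x := congrArg Subtype.val hk
    obtain ⟨m, hm⟩ := Subgroup.mem_zpowers_iff.1 (ha ⟨c, hc⟩)
    have hm' : (a : P) ^ m = c := congrArg Subtype.val hm
    refine ⟨k, ?_⟩
    rw [← hm', ← zpow_mul, mul_comm m k, zpow_mul, hk']
    have h5 : x⁻¹ * (a : P) * x = x⁻¹ * (a : P) * (x⁻¹)⁻¹ := by rw [inv_inv]
    rw [h5, conj_zpow]
    group
  have himg : (S.image (fun x : P => (x : P ⧸ C))).card ≤ p := by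
    refine le_trans (Finset.card_le_card ?_) (IsCyclic.card_pow_eq_one_le (α := P ⧸ C) hp.out.pos)
    intro y hy
    obtain ⟨x, hx, rfl⟩ := Finset.mem_image.1 hy
    rw [Finset.mem_filter]
    refine ⟨Finset.mem_univ _, ?_⟩
    rw [← QuotientGroup.mk_pow, (hS x).1 hx]
    rfl
  have hfib : ∀ y ∈ S.image (fun x : P => (x : P ⧸ C)),
      (S.filter (fun x : P => (x : P ⧸ C) = y)).card ≤ p := by
    intro y hy
    obtain ⟨x, hx, rfl⟩ := Finset.mem_image.1 hy
    refine le_trans ?_ (IsCyclic.card_pow_eq_one_le (α := C) hp.out.pos)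
    apply Finset.card_le_card_of_surjOn (fun c : C => x * (c : P))
    intro z hz
    rw [Finset.mem_coe, Finset.mem_filter] at hz
    have hz2 : x⁻¹ * z ∈ C := QuotientGroup.eq.1 hz.2.symm
    refine ⟨⟨x⁻¹ * z, hz2⟩, ?_, ?_⟩
    · rw [Finset.mem_coe, Finset.mem_filter]
      refine ⟨Finset.mem_univ _, ?_⟩
      apply Subtype.ext
      change (x⁻¹ * z) ^ p = 1
      obtain ⟨k, hk⟩ := hact x (x⁻¹ * z) hz2
      apply fiber_key hodd hP hk ((hS x).1 hx)
      rw [mul_inv_cancel_left]
      exact (hS z).1 hz.1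
    · exact mul_inv_cancel_left x z
  calc S.card ≤ p * (S.image (fun x : P => (x : P ⧸ C))).card :=
        Finset.card_le_mul_card_image S p hfib
    _ ≤ p * p := Nat.mul_le_mul_left p himg
    _ = p ^ 2 := by ring

/-- metacyclic `p`-groups, `p` odd, have no quotient `C_p ≀ C_p` -/
theorem Metacyclic.no_wreath {p : ℕ} [hp : Fact p.Prime] (hodd : p ≠ 2) {P : Type} [Group P]
    [Finite P] (hP : IsPGroup p P) (h : Metacyclic P)
    (f : P →* RegularWreathProduct (Multiplicative (ZMod p)) (Multiplicative (ZMod p))) :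
    ¬ Function.Surjective f := by
  intro hf
  have h1 : Metacyclic (RegularWreathProduct (Multiplicative (ZMod p)) (Multiplicative (ZMod p))) :=
    h.of_surjective f hf
  have h2 : IsPGroup p (RegularWreathProduct (Multiplicative (ZMod p)) (Multiplicative (ZMod p))) :=
    hP.of_surjective f hf
  have h3 := h1.card_le hodd h2
  have h4 : p ^ p ≤ Nat.card {x : RegularWreathProduct (Multiplicative (ZMod p))
      (Multiplicative (ZMod p)) // x ^ p = 1} := by
    have h5 : Nat.card (Multiplicative (ZMod p) → Multiplicative (ZMod p)) = p ^ p := by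
      rw [Nat.card_fun, Nat.card_congr Multiplicative.toAdd, Nat.card_zmod]
    rw [← h5]
    have hpow : ∀ (v : Multiplicative (ZMod p) → Multiplicative (ZMod p)) (n : ℕ),
        (⟨v, 1⟩ : RegularWreathProduct (Multiplicative (ZMod p)) (Multiplicative (ZMod p))) ^ n =
          ⟨v ^ n, 1⟩ := by
      intro v n
      induction n with
      | zero => rw [pow_zero, pow_zero]; rfl
      | succ n ih =>
        rw [pow_succ, ih]
        apply RegularWreathProduct.ext
        · funext c
          change (v ^ n) c * v (1⁻¹ * c) = (v ^ (n + 1)) c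
          rw [inv_one, one_mul, pow_succ]
          rfl
        · exact mul_one 1
    apply Nat.card_le_card_of_injective
      (fun v => (⟨⟨v, 1⟩, by
        rw [hpow]
        apply RegularWreathProduct.ext
        · funext c
          change v c ^ p = 1
          have : v c ^ Nat.card (Multiplicative (ZMod p)) = 1 := pow_card_eq_one'
          rwa [Nat.card_congr Multiplicative.toAdd, Nat.card_zmod] at this
        · rfl⟩ : {x : RegularWreathProduct (Multiplicative (ZMod p))
      (Multiplicative (ZMod p)) // x ^ p = 1}))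
    intro v w hvw
    have h6 := congrArg Subtype.val hvw
    exact congrArg RegularWreathProduct.left h6
  have h5 : p ^ p ≤ p ^ 2 := h4.trans h3
  have h6 := (Nat.pow_le_pow_iff_right hp.out.one_lt).1 h5
  have h7 := hp.out.two_le
  omega

end Pool.Agent.Helper14.LC
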