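import Pool.Agent.Helper14.LC.Cls2
import Pool.Agent.Helper14.LC.Mtc
import Pool.Agent.Helper14.LC.Co

/-!
# Normal metacyclic Sylow `p`-subgroups of groups without `p`-quotients are abelian (`p` odd)
-/

namespace Pool.Agent.Helper14.LC

open scoped commutatorElement

/-- no nontrivial homomorphism to a finite commutative `p`-group -/
def NoPQ (p : ℕ) (L : Type) [Group L] : Prop :=
  ∀ (A : Type) [CommGroup A] [Finite A], IsPGroup p A → ∀ f : L →* A, ∀ x, f x = 1

/-- commutative quotient as a commutative group -/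
@[reducible] def quotComm {Q : Type} [Group Q] (R : Subgroup Q) [R.Normal]
    (h : ∀ a b : Q, ⁅a, b⁆ ∈ R) : CommGroup (Q ⧸ R) :=
  { (inferInstance : Group (Q ⧸ R)) with
    mul_comm := by
      intro x y
      obtain ⟨a, rfl⟩ := QuotientGroup.mk_surjective x
      obtain ⟨b, rfl⟩ := QuotientGroup.mk_surjective y
      have h1 : ((a * b : Q) : Q ⧸ R) = ((b * a : Q) : Q ⧸ R) := by
        apply QuotientGroup.eq.2
        have h2 := h b⁻¹ a⁻¹
        rw [commutatorElement_def, inv_inv, inv_inv] at h2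
        rw [mul_inv_rev]
        have h3 : b⁻¹ * a⁻¹ * (b * a) = b⁻¹ * a⁻¹ * b * a := by group
        rw [h3]
        exact h2
      exact h1 }

theorem fixed_mem {p : ℕ} [hp : Fact p.Prime] {L : Type} [Group L] [Finite L] (Q : Subgroup L)
    [hQn : Q.Normal] (hQ : IsPGroup p Q) (hi : ¬ p ∣ Q.index) (hL : NoPQ p L) (R : Subgroup Q)
    [R.Normal] (hab : ∀ a b : Q, ⁅a, b⁆ ∈ R) (q : Q)
    (hq : ∀ x : L, MulAut.conjNormal x q * q⁻¹ ∈ R) : q ∈ R := by
  classical
  letI := quotComm R hab
  haveI : Fintype (L ⧸ Q) := Fintype.ofFinite _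
  let lam : Q →* Q ⧸ R := QuotientGroup.mk' R
  have h1 : TU lam (q : L) = 1 := hL _ (hQ.to_quotient R) _ _
  rw [TU_apply] at h1
  have h2 : ∀ c : L ⧸ Q, co lam (q : L) c = (q : Q ⧸ R) := by
    intro c
    have hfix : (q : L) • c = c := by
      obtain ⟨x, rfl⟩ := QuotientGroup.mk_surjective c
      change (((q : L) * x : L) : L ⧸ Q) = (x : L ⧸ Q)
      apply QuotientGroup.eq.2
      have h3 := hQn.conj_mem _ (Q.inv_mem q.2) x⁻¹
      have h4 : x⁻¹ * (q : L)⁻¹ * (x⁻¹)⁻¹ = ((q : L) * x)⁻¹ * x := by group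
      rw [h4] at h3
      exact h3
    have h3 : el Q (q : L) c = MulAut.conjNormal (c.out)⁻¹ q := by
      apply Subtype.ext
      rw [el_fix hfix, MulAut.conjNormal_apply, inv_inv]
    unfold co
    rw [h3]
    change ((MulAut.conjNormal (c.out)⁻¹ q : Q) : Q ⧸ R) = (q : Q ⧸ R)
    have h4 := (QuotientGroup.eq_one_iff _).2 (hq (c.out)⁻¹)
    rw [QuotientGroup.mk_mul, QuotientGroup.mk_inv] at h4
    exact mul_inv_eq_one.1 h4
  rw [Finset.prod_congr rfl (fun c _ => h2 c), Finset.prod_const, Finset.card_univ] at h1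
  have h3 : Fintype.card (L ⧸ Q) = Q.index := by
    rw [Subgroup.index, Nat.card_eq_fintype_card]
  rw [h3] at h1
  obtain ⟨n, hn⟩ := (hQ.to_quotient R) (q : Q ⧸ R)
  have h4 : Nat.Coprime Q.index (p ^ n) := by
    apply Nat.Coprime.pow_right
    rw [Nat.coprime_comm, hp.out.coprime_iff_not_dvd]
    exact hi
  have h5 : orderOf (q : Q ⧸ R) ∣ 1 := by
    rw [← h4.gcd_eq_one]
    exact Nat.dvd_gcd (orderOf_dvd_of_pow_eq_one h1) (orderOf_dvd_of_pow_eq_one hn)
  rw [← QuotientGroup.eq_one_iff, ← orderOf_eq_one_iff]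
  exact Nat.dvd_one.1 h5

theorem abel_of {p : ℕ} [hp : Fact p.Prime] (hodd : p ≠ 2) (n : ℕ) :
    ∀ (L : Type) [Group L] [Finite L], Nat.card L ≤ n → ∀ (Q : Subgroup L) [Q.Normal],
      IsPGroup p Q → ¬ p ∣ Q.index → Metacyclic Q → NoPQ p L → ∀ a b : Q, a * b = b * a := by
  induction n with
  | zero =>
    intro L _ _ hn
    exact absurd hn (not_le.2 Nat.card_pos)
  | succ n ih =>
    intro L _ _ hn Q hQn hQ hi hM hL
    by_contra hcon
    push Not at hcon
    obtain ⟨a0, b0, hab0⟩ := hcon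
    -- the subgroup `S`
    let S : Subgroup L :=
      { carrier := {x | x ∈ Q ∧ (∀ y ∈ Q, x * y = y * x) ∧ x ^ p = 1}
        one_mem' := ⟨Q.one_mem, fun y _ => by rw [one_mul, mul_one], one_pow _⟩
        mul_mem' := by
          rintro x y ⟨hx1, hx2, hx3⟩ ⟨hy1, hy2, hy3⟩
          refine ⟨Q.mul_mem hx1 hy1, fun w hw => ?_, ?_⟩
          · rw [mul_assoc, hy2 w hw, ← mul_assoc, hx2 w hw, mul_assoc]
          · rw [(show Commute x y from hx2 y hy1).mul_pow, hx3, hy3, one_mul]
        inv_mem' := by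
          rintro x ⟨hx1, hx2, hx3⟩
          refine ⟨Q.inv_mem hx1, fun w hw => ?_, ?_⟩
          · exact (show Commute x w from hx2 w hw).inv_left
          · rw [inv_pow, hx3, inv_one] }
    have hS : ∀ x, x ∈ S ↔ x ∈ Q ∧ (∀ y ∈ Q, x * y = y * x) ∧ x ^ p = 1 := fun x => Iff.rfl
    haveI hSn : S.Normal := ⟨fun x hx g => by
      rw [hS] at hx ⊢
      refine ⟨hQn.conj_mem _ hx.1 g, fun y hy => ?_, ?_⟩
      · have h1 := hQn.conj_mem _ hy g⁻¹
        rw [inv_inv] at h1
        have h2 := hx.2.1 _ h1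
        have h3 : g * x * g⁻¹ * y = g * (x * (g⁻¹ * y * g)) * g⁻¹ := by group
        have h4 : y * (g * x * g⁻¹) = g * (g⁻¹ * y * g * x) * g⁻¹ := by group
        rw [h3, h4, h2]
      · rw [conj_pow, hx.2.2, mul_one, mul_inv_cancel]⟩
    have hQnt : Nontrivial Q := by
      by_contra hnt
      rw [not_nontrivial_iff_subsingleton] at hnt
      exact hab0 (Subsingleton.elim _ _)
    have hSbot : S ≠ ⊥ := by
      haveI hcnt : Nontrivial (Subgroup.center Q) := hQ.center_nontrivial
      have hpc : IsPGroup p (Subgroup.center Q) := hQ.to_subgroup _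
      obtain ⟨z0, hz0⟩ : ∃ z : Subgroup.center Q, orderOf z = p := by
        apply exists_prime_orderOf_dvd_card'
        obtain ⟨j, hj⟩ := IsPGroup.iff_card.1 hpc
        have h1 : 1 < Nat.card (Subgroup.center Q) := Finite.one_lt_card_iff_nontrivial.2 hcnt
        rw [hj] at h1 ⊢
        have hj0 : j ≠ 0 := by
          rintro rfl
          rw [pow_zero] at h1
          exact lt_irrefl 1 h1
        exact dvd_pow_self p hj0
      intro hb
      have h1 : (((z0 : Q) : L)) ∈ S := by
        rw [hS]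
        refine ⟨(z0 : Q).2, fun y hy => ?_, ?_⟩
        · have h2 := Subgroup.mem_center_iff.1 z0.2 ⟨y, hy⟩
          exact (congrArg Subtype.val h2).symm
        · have h2 : z0 ^ p = 1 := by rw [← hz0, pow_orderOf_eq_one]
          have h3 := congrArg (fun w : Subgroup.center Q => ((w : Q) : L)) h2
          exact h3
      rw [hb, Subgroup.mem_bot] at h1
      have h2 : z0 = 1 := Subtype.ext (Subtype.ext h1)
      rw [h2, orderOf_one] at hz0
      exact hp.out.one_lt.ne hz0
    have hcomS : ∀ a b : Q, ((⁅a, b⁆ : Q) : L) ∈ S := by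
      haveI h1 : (Q.map (QuotientGroup.mk' S)).Normal :=
        hQn.map _ (QuotientGroup.mk'_surjective S)
      have hcard : Nat.card (L ⧸ S) ≤ n := by
        have h2 := Subgroup.card_eq_card_quotient_mul_card_subgroup S
        have h3 : 1 < Nat.card S := by
          rw [Finite.one_lt_card_iff_nontrivial, Subgroup.nontrivial_iff_ne_bot]
          exact hSbot
        have h4 : 0 < Nat.card (L ⧸ S) := Nat.card_pos
        have h5 : Nat.card (L ⧸ S) * 1 < Nat.card (L ⧸ S) * Nat.card S :=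
          Nat.mul_lt_mul_of_pos_left h3 h4
        omega
      have hidx : ¬ p ∣ (Q.map (QuotientGroup.mk' S)).index := by
        intro h2
        exact hi (h2.trans (Subgroup.index_map_dvd Q (QuotientGroup.mk'_surjective S)))
      have hM' : Metacyclic (Q.map (QuotientGroup.mk' S)) :=
        hM.of_surjective ((QuotientGroup.mk' S).subgroupMap Q)
          ((QuotientGroup.mk' S).subgroupMap_surjective Q)
      have hL' : NoPQ p (L ⧸ S) := by
        intro A _ _ hA f x
        obtain ⟨y, rfl⟩ := QuotientGroup.mk_surjective x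
        exact hL A hA (f.comp (QuotientGroup.mk' S)) y
      have h2 := ih (L ⧸ S) hcard (Q.map (QuotientGroup.mk' S)) (hQ.map _) hidx hM' hL'
      intro a b
      have h3 := h2 ⟨_, Subgroup.mem_map_of_mem _ a.2⟩ ⟨_, Subgroup.mem_map_of_mem _ b.2⟩
      have h4 : (QuotientGroup.mk' S) (a : L) * (QuotientGroup.mk' S) (b : L) =
          (QuotientGroup.mk' S) (b : L) * (QuotientGroup.mk' S) (a : L) := congrArg Subtype.val h3
      rw [← QuotientGroup.eq_one_iff]
      have h5 : (((⁅a, b⁆ : Q) : L) : L ⧸ S) = ⁅(QuotientGroup.mk' S) (a : L),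
          (QuotientGroup.mk' S) (b : L)⁆ := rfl
      rw [h5, commutatorElement_eq_one_iff_mul_comm]
      exact h4
    apply hab0
    rw [← commutatorElement_eq_one_iff_mul_comm]
    refine cls_two (Q := Q) (p := p) ?_ ?_ hodd hQ (hM.card_le hodd hQ)
      (Set.range (MulAut.conjNormal : L →* MulAut Q)) ?_ a0 b0
    · intro a b c
      exact Subtype.ext (((hS _).1 (hcomS a b)).2.1 c c.2)
    · intro a b
      exact Subtype.ext ((hS _).1 (hcomS a b)).2.2
    · intro R hR1 hR2 q hq
      haveI : R.Normal := ⟨fun x hx g => by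
        have h1 : g * x * g⁻¹ = ⁅g, x⁆ * x := by
          simp only [commutatorElement_def]; group
        rw [h1]
        exact R.mul_mem (hR1 g x) hx⟩
      exact fixed_mem Q hQ hi hL R hR1 q (fun x => hq _ ⟨x, rfl⟩)

end Pool.Agent.Helper14.LC
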