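import Mathlib

/-!
# The class two case
-/

namespace Pool.Agent.Helper14.LC

open scoped commutatorElement

section basic

variable {Q : Type} [Group Q] (hc : ∀ a b c : Q, ⁅a, b⁆ * c = c * ⁅a, b⁆)

include hc

theorem comm_mul_left (a b c : Q) : ⁅a * b, c⁆ = ⁅a, c⁆ * ⁅b, c⁆ := by
  have h1 : ⁅a * b, c⁆ = a * ⁅b, c⁆ * c * a⁻¹ * c⁻¹ := by
    simp only [commutatorElement_def]; group
  have h2 : ⁅b, c⁆ * a * c * a⁻¹ * c⁻¹ = ⁅b, c⁆ * ⁅a, c⁆ := by
    simp only [commutatorElement_def]; group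
  rw [h1, ← hc b c a, h2, ← hc a c ⁅b, c⁆]

theorem comm_mul_right (a b c : Q) : ⁅a, b * c⁆ = ⁅a, b⁆ * ⁅a, c⁆ := by
  rw [← inv_inj, commutatorElement_inv, comm_mul_left hc, mul_inv_rev, commutatorElement_inv,
    commutatorElement_inv, hc]

theorem comm_pow_left (a b : Q) (n : ℕ) : ⁅a ^ n, b⁆ = ⁅a, b⁆ ^ n := by
  induction n with
  | zero => simp
  | succ n ih => rw [pow_succ, comm_mul_left hc, ih, pow_succ]

theorem comm_pow_right (a b : Q) (n : ℕ) : ⁅a, b ^ n⁆ = ⁅a, b⁆ ^ n := by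
  induction n with
  | zero => simp
  | succ n ih => rw [pow_succ, comm_mul_right hc, ih, pow_succ]

theorem mul_pow_cls (a b : Q) (n : ℕ) : (a * b) ^ n = ⁅b, a⁆ ^ (n.choose 2) * (a ^ n * b ^ n) := by
  have h0 : ∀ (k : ℕ) (x : Q), ⁅b, a⁆ ^ k * x = x * ⁅b, a⁆ ^ k := by
    intro k x
    induction k with
    | zero => simp
    | succ k ih => rw [pow_succ, mul_assoc, hc, ← mul_assoc, ih, mul_assoc]
  have h1 : ∀ k : ℕ, b ^ k * a = ⁅b, a⁆ ^ k * (a * b ^ k) := by
    intro k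
    rw [← comm_pow_left hc]
    simp only [commutatorElement_def]; group
  induction n with
  | zero => simp
  | succ n ih =>
    rw [pow_succ, ih, Nat.choose_succ_succ' n 1, Nat.choose_one_right, add_comm n, pow_add]
    calc ⁅b, a⁆ ^ n.choose 2 * (a ^ n * b ^ n) * (a * b)
        = ⁅b, a⁆ ^ n.choose 2 * (a ^ n * (b ^ n * a) * b) := by group
      _ = ⁅b, a⁆ ^ n.choose 2 * (a ^ n * (⁅b, a⁆ ^ n * (a * b ^ n)) * b) := by rw [h1]
      _ = ⁅b, a⁆ ^ n.choose 2 * ((a ^ n * ⁅b, a⁆ ^ n) * (a * b ^ n * b)) := by group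
      _ = ⁅b, a⁆ ^ n.choose 2 * ((⁅b, a⁆ ^ n * a ^ n) * (a * b ^ n * b)) := by rw [← h0 n (a ^ n)]
      _ = _ := by rw [pow_succ a, pow_succ b]; group

end basic

section main

variable {Q : Type} [Group Q] [Finite Q] {p : ℕ} [hp : Fact p.Prime]
  (hc : ∀ a b c : Q, ⁅a, b⁆ * c = c * ⁅a, b⁆) (he : ∀ a b : Q, ⁅a, b⁆ ^ p = 1)

include hc he

theorem pow_p_mul (hodd : p ≠ 2) (a b : Q) : (a * b) ^ p = a ^ p * b ^ p := by
  rw [mul_pow_cls hc]
  have h1 : p ∣ p.choose 2 := by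
    apply hp.out.dvd_choose_self (by norm_num)
    have := hp.out.two_le
    omega
  obtain ⟨k, hk⟩ := h1
  rw [hk, pow_mul, he, one_pow, one_mul]

/-- the `p ^ j`-power homomorphism -/
noncomputable def ppow (hodd : p ≠ 2) (j : ℕ) : Q →* Q :=
  MonoidHom.mk' (fun v => v ^ p ^ j) (by
    intro a b
    induction j with
    | zero => simp
    | succ j ih => rw [pow_succ, pow_mul, pow_mul, pow_mul, ih, pow_p_mul hc he hodd])

theorem ppow_apply (hodd : p ≠ 2) (j : ℕ) (v : Q) : ppow hc he hodd j v = v ^ p ^ j := rfl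

theorem pow_p_center (a : Q) : a ^ p ∈ Subgroup.center Q := by
  rw [Subgroup.mem_center_iff]
  intro g
  have h1 : ⁅g, a ^ p⁆ = 1 := by rw [comm_pow_right hc, he]
  exact commutatorElement_eq_one_iff_mul_comm.1 h1

theorem order_comm {a b : Q} (h : ⁅a, b⁆ ≠ 1) : orderOf ⁅a, b⁆ = p :=
  orderOf_eq_prime (he a b) h

/-- the count -/
theorem card_quot_le (hodd : p ≠ 2) (hcount : Nat.card {x : Q // x ^ p = 1} ≤ p ^ 2) :
    Nat.card Q ≤ p ^ 2 * Nat.card (ppow hc he hodd 1).range := by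
  have h1 : Nat.card Q = Nat.card (ppow hc he hodd 1).range * Nat.card (ppow hc he hodd 1).ker := by
    rw [← Subgroup.index_ker, mul_comm, Subgroup.card_mul_index]
  have h2 : Nat.card (ppow hc he hodd 1).ker = Nat.card {x : Q // x ^ p = 1} := by
    apply Nat.card_congr
    apply Equiv.subtypeEquivRight
    intro x
    rw [MonoidHom.mem_ker, ppow_apply, pow_one]
  rw [h1, h2, mul_comm]
  exact Nat.mul_le_mul_right _ hcount

theorem range_le_center (hodd : p ≠ 2) : (ppow hc he hodd 1).range ≤ Subgroup.center Q := by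
  rintro _ ⟨v, rfl⟩
  rw [ppow_apply, pow_one]
  exact pow_p_center hc he v

/-- two noncommuting elements generate modulo the center -/
theorem gen_inj {g h : Q} (hgh : ⁅g, h⁆ ≠ 1) : Function.Injective
    (fun x : Fin p × Fin p => ((g ^ (x.1 : ℕ) * h ^ (x.2 : ℕ) : Q) : Q ⧸ Subgroup.center Q)) := by
  have ho := order_comm hc he hgh
  rintro ⟨i, k⟩ ⟨i', k'⟩ hik
  have h1 := QuotientGroup.eq.1 hik
  have h2 : ∀ x y : Q, x⁻¹ * y ∈ Subgroup.center Q → ∀ w : Q, ⁅x, w⁆ = ⁅y, w⁆ ∧ ⁅w, x⁆ = ⁅w, y⁆ := by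
    intro x y hxy w
    have h3 : y = x * (x⁻¹ * y) := by group
    have h4 : ⁅x⁻¹ * y, w⁆ = 1 :=
      commutatorElement_eq_one_iff_mul_comm.2 ((Subgroup.mem_center_iff.1 hxy w).symm)
    have h5 : ⁅w, x⁻¹ * y⁆ = 1 :=
      commutatorElement_eq_one_iff_mul_comm.2 (Subgroup.mem_center_iff.1 hxy w)
    constructor
    · conv_rhs => rw [h3]
      rw [comm_mul_left hc, h4, mul_one]
    · conv_rhs => rw [h3]
      rw [comm_mul_right hc, h5, mul_one]
  have h3 := (h2 _ _ h1 h).1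
  have h4 := (h2 _ _ h1 g).2
  simp only at h3 h4
  rw [comm_mul_left hc, comm_mul_left hc, comm_pow_left hc, comm_pow_left hc, comm_pow_left hc,
    comm_pow_left hc, commutatorElement_self, one_pow, one_pow, mul_one, mul_one] at h3
  rw [comm_mul_right hc, comm_mul_right hc, comm_pow_right hc, comm_pow_right hc, comm_pow_right hc,
    comm_pow_right hc, commutatorElement_self, one_pow, one_pow, one_mul, one_mul] at h4
  have h5 := pow_injOn_Iio_orderOf (by rw [Set.mem_Iio, ho]; exact i.2)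
    (by rw [Set.mem_Iio, ho]; exact i'.2) h3
  have h6 := pow_injOn_Iio_orderOf (by rw [Set.mem_Iio, ho]; exact k.2)
    (by rw [Set.mem_Iio, ho]; exact k'.2) h4
  exact Prod.ext (Fin.ext h5) (Fin.ext h6)

theorem center_eq (hodd : p ≠ 2) (hcount : Nat.card {x : Q // x ^ p = 1} ≤ p ^ 2) {g h : Q}
    (hgh : ⁅g, h⁆ ≠ 1) : (ppow hc he hodd 1).range = Subgroup.center Q ∧
      Nat.card (Q ⧸ Subgroup.center Q) = p ^ 2 := by
  have h1 := gen_inj hc he hgh
  have h2 : p ^ 2 ≤ Nat.card (Q ⧸ Subgroup.center Q) := by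
    have h3 := Nat.card_le_card_of_injective _ h1
    rw [Nat.card_prod, Nat.card_fin] at h3
    rw [pow_two]
    exact h3
  have h3 := card_quot_le hc he hodd hcount
  have h4 := Subgroup.card_eq_card_quotient_mul_card_subgroup (Subgroup.center Q)
  have h5 : Nat.card (ppow hc he hodd 1).range ≤ Nat.card (Subgroup.center Q) :=
    Nat.card_le_card_of_injective _ (Subgroup.inclusion_injective (range_le_center hc he hodd))
  have hr0 : 0 < Nat.card (ppow hc he hodd 1).range := Nat.card_pos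
  have hc0 : 0 < Nat.card (Subgroup.center Q) := Nat.card_pos
  have h6 : Nat.card (Q ⧸ Subgroup.center Q) * Nat.card (Subgroup.center Q) ≤
      p ^ 2 * Nat.card (ppow hc he hodd 1).range := by rw [← h4]; exact h3
  have h7 : p ^ 2 * Nat.card (Subgroup.center Q) ≤ p ^ 2 * Nat.card (ppow hc he hodd 1).range :=
    (Nat.mul_le_mul_right _ h2).trans h6
  have hp2 : 0 < p ^ 2 := pow_pos hp.out.pos 2
  have h8 : Nat.card (Subgroup.center Q) ≤ Nat.card (ppow hc he hodd 1).range :=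
    Nat.le_of_mul_le_mul_left h7 hp2
  refine ⟨Subgroup.eq_of_le_of_card_ge (range_le_center hc he hodd) h8, ?_⟩
  have h9 : Nat.card (Q ⧸ Subgroup.center Q) * Nat.card (Subgroup.center Q) ≤
      p ^ 2 * Nat.card (Subgroup.center Q) := h6.trans (Nat.mul_le_mul_left _ h5)
  exact le_antisymm (Nat.le_of_mul_le_mul_right h9 hc0) h2

theorem gen_two (hodd : p ≠ 2) (hcount : Nat.card {x : Q // x ^ p = 1} ≤ p ^ 2) {g h : Q}
    (hgh : ⁅g, h⁆ ≠ 1) (v : Q) : ∃ (i k : ℕ) (ζ : Q), ζ ∈ Subgroup.center Q ∧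
      v = g ^ i * h ^ k * ζ := by
  have h1 := gen_inj hc he hgh
  obtain ⟨_, h2⟩ := center_eq hc he hodd hcount hgh
  have h3 : Function.Bijective
    (fun x : Fin p × Fin p => ((g ^ (x.1 : ℕ) * h ^ (x.2 : ℕ) : Q) : Q ⧸ Subgroup.center Q)) := by
    rw [Nat.bijective_iff_injective_and_card]
    refine ⟨h1, ?_⟩
    rw [Nat.card_prod, Nat.card_fin, h2, pow_two]
  obtain ⟨⟨i, k⟩, hik⟩ := h3.2 (v : Q ⧸ Subgroup.center Q)
  refine ⟨i, k, (g ^ (i : ℕ) * h ^ (k : ℕ))⁻¹ * v, QuotientGroup.eq.1 hik, ?_⟩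
  rw [mul_inv_cancel_left]

/-- the class two case: `Q` is abelian -/
theorem cls_two (hodd : p ≠ 2) (hQ : IsPGroup p Q)
    (hcount : Nat.card {x : Q // x ^ p = 1} ≤ p ^ 2)
    (Γ : Set (MulAut Q))
    (hfix : ∀ R : Subgroup Q, (∀ a b : Q, ⁅a, b⁆ ∈ R) → (∀ γ ∈ Γ, ∀ x ∈ R, γ x ∈ R) →
      ∀ q, (∀ γ ∈ Γ, γ q * q⁻¹ ∈ R) → q ∈ R) (a0 b0 : Q) : ⁅a0, b0⁆ = 1 := by
  by_contra hz1
  set z : Q := ⁅a0, b0⁆ with hz
  have hzo : orderOf z = p := order_comm hc he hz1
  obtain ⟨hZ, -⟩ := center_eq hc he hodd hcount hz1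
  have hcomm : ∀ {x : Q}, x ∈ Subgroup.center Q → ∀ w : Q, ⁅x, w⁆ = 1 ∧ ⁅w, x⁆ = 1 := by
    intro x hx w
    exact ⟨commutatorElement_eq_one_iff_mul_comm.2 ((Subgroup.mem_center_iff.1 hx w).symm),
      commutatorElement_eq_one_iff_mul_comm.2 (Subgroup.mem_center_iff.1 hx w)⟩
  have hcen : ∀ {x : Q}, (∀ w : Q, ⁅x, w⁆ = 1) → x ∈ Subgroup.center Q := by
    intro x hx
    rw [Subgroup.mem_center_iff]
    intro w
    exact (commutatorElement_eq_one_iff_mul_comm.1 (hx w)).symm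
  have hzZ : z ∈ Subgroup.center Q := by
    rw [Subgroup.mem_center_iff]
    intro g
    exact (hc a0 b0 g).symm
  -- the largest `j`
  have hex : ∃ m, z ∉ (ppow hc he hodd m).range := by
    obtain ⟨n, hn⟩ := IsPGroup.iff_card.1 hQ
    refine ⟨n, ?_⟩
    rintro ⟨v, hv⟩
    rw [ppow_apply, ← hn, pow_card_eq_one'] at hv
    exact hz1 hv.symm
  classical
  obtain ⟨j, hj0, hjz, hjY⟩ : ∃ j, 1 ≤ j ∧ z ∈ (ppow hc he hodd j).range ∧
      z ∉ (ppow hc he hodd (j + 1)).range := by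
    have h1 := Nat.find_spec hex
    have h2 : Nat.find hex ≠ 0 := by
      intro h0
      rw [h0] at h1
      exact h1 ⟨z, by rw [ppow_apply, pow_zero, pow_one]⟩
    have h3 : Nat.find hex ≠ 1 := by
      intro h0
      rw [h0, hZ] at h1
      exact h1 hzZ
    refine ⟨Nat.find hex - 1, by omega, ?_, ?_⟩
    · by_contra hcon
      have := Nat.find_min' hex hcon
      omega
    · rw [Nat.sub_add_cancel (by omega)]
      exact h1
  obtain ⟨v0, hv0⟩ := hjz
  rw [ppow_apply] at hv0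
  set Y := (ppow hc he hodd (j + 1)).range with hYdef
  have hY1 : ∀ ζ ∈ Subgroup.center Q, ζ ^ p ^ j ∈ Y := by
    intro ζ hζ
    rw [← hZ] at hζ
    obtain ⟨v, rfl⟩ := hζ
    refine ⟨v, ?_⟩
    rw [ppow_apply, ppow_apply, pow_one, ← pow_mul, ← pow_succ']
  have hY2 : ∀ n : ℤ, z ^ n ∈ Y → (p : ℤ) ∣ n := by
    intro n hn
    by_contra hnd
    apply hjY
    have hcop : IsCoprime (p : ℤ) n := by
      rw [Int.isCoprime_iff_gcd_eq_one]
      have h1 : Nat.Coprime p n.natAbs := by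
        rw [hp.out.coprime_iff_not_dvd]
        intro h2
        exact hnd (Int.natCast_dvd.2 h2)
      exact h1
    obtain ⟨s, t, hst⟩ := hcop
    have h1 : z = (z ^ n) ^ t := by
      rw [← zpow_mul]
      have h2 : n * t = 1 - s * p := by linarith
      rw [h2, zpow_sub, zpow_one, mul_comm s, zpow_mul]
      have h3 : z ^ (p : ℤ) = 1 := by rw [zpow_natCast, ← hzo, pow_orderOf_eq_one]
      rw [h3, one_zpow, inv_one, mul_one]
    rw [h1]
    exact Y.zpow_mem hn t
  have hYinv : ∀ (γ : MulAut Q) (y : Q), y ∈ Y → γ y ∈ Y := by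
    rintro γ _ ⟨v, rfl⟩
    refine ⟨γ v, ?_⟩
    rw [ppow_apply, ppow_apply, map_pow]
  -- commutators are powers of `z`
  have hD1 : ∀ h : Q, ⁅a0, h⁆ ∈ Subgroup.zpowers z := by
    intro h
    obtain ⟨i, k, ζ, hζ, rfl⟩ := gen_two hc he hodd hcount hz1 h
    rw [comm_mul_right hc, comm_mul_right hc, comm_pow_right hc, comm_pow_right hc,
      commutatorElement_self, one_pow, one_mul, (hcomm hζ a0).2, mul_one]
    exact Subgroup.pow_mem _ (Subgroup.mem_zpowers z) k
  have hD2 : ∀ h : Q, ⁅b0, h⁆ ∈ Subgroup.zpowers z := by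
    intro h
    obtain ⟨i, k, ζ, hζ, rfl⟩ := gen_two hc he hodd hcount hz1 h
    rw [comm_mul_right hc, comm_mul_right hc, comm_pow_right hc, comm_pow_right hc,
      commutatorElement_self, one_pow, mul_one, (hcomm hζ b0).2, mul_one]
    apply Subgroup.pow_mem
    rw [← commutatorElement_inv]
    exact Subgroup.inv_mem _ (Subgroup.mem_zpowers z)
  have hD : ∀ g h : Q, ⁅g, h⁆ ∈ Subgroup.zpowers z := by
    intro g h
    obtain ⟨i, k, ζ, hζ, rfl⟩ := gen_two hc he hodd hcount hz1 g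
    rw [comm_mul_left hc, comm_mul_left hc, comm_pow_left hc, comm_pow_left hc, (hcomm hζ h).1,
      mul_one]
    exact Subgroup.mul_mem _ (Subgroup.pow_mem _ (hD1 h) i) (Subgroup.pow_mem _ (hD2 h) k)
  have hγz : ∀ γ : MulAut Q, ∃ s : ℤ, γ z = z ^ s := by
    intro γ
    have h1 : γ z = ⁅γ a0, γ b0⁆ := map_commutatorElement γ a0 b0
    obtain ⟨s, hs⟩ := Subgroup.mem_zpowers_iff.1 (hD (γ a0) (γ b0))
    exact ⟨s, by rw [h1, hs]⟩
  have hγz1 : ∀ γ : MulAut Q, γ z ≠ 1 := by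
    intro γ h0
    exact hz1 ((MulEquiv.map_eq_one_iff γ).1 h0)
  -- if `γ z = z ^ a` then `γ y = y ^ a` for all commutators `y`
  have hγy : ∀ (γ : MulAut Q) (a : ℕ), γ z = z ^ a → ∀ g h : Q, γ ⁅g, h⁆ = ⁅g, h⁆ ^ a := by
    intro γ a ha g h
    obtain ⟨t, ht⟩ := Subgroup.mem_zpowers_iff.1 (hD g h)
    rw [← ht, map_zpow, ha, ← zpow_natCast, ← zpow_natCast, ← zpow_mul, ← zpow_mul, mul_comm]
  -- congruences
  have hcong : ∀ (γ : MulAut Q) (a b : ℕ), γ z = z ^ a → ∀ g h : Q, ⁅g, h⁆ ≠ 1 →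
      ⁅g, h⁆ ^ (a * b) = ⁅g, h⁆ ^ a → ∃ m, b = 1 + p * m := by
    intro γ a b ha g h hgh hab
    have ho := order_comm hc he hgh
    rw [pow_eq_pow_iff_modEq, ho] at hab
    have hpa : ¬ p ∣ a := by
      rintro ⟨k, rfl⟩
      apply hγz1 γ
      rw [ha, pow_mul, ← hzo, pow_orderOf_eq_one, one_pow]
    have hb : b ≡ 1 [MOD p] := by
      have h1 : a * b ≡ a * 1 [MOD p] := by rw [mul_one]; exact hab
      exact Nat.ModEq.cancel_left_of_coprime (hp.out.coprime_iff_not_dvd.2 hpa) h1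
    have hb1 : 1 ≤ b := by
      by_contra hb0
      have hb0' : b = 0 := by omega
      rw [hb0'] at hb
      have h2 := (Nat.modEq_zero_iff_dvd.1 hb.symm)
      have h3 := Nat.le_of_dvd Nat.one_pos h2
      have h4 := hp.out.one_lt
      omega
    obtain ⟨m, hm⟩ := (Nat.modEq_iff_dvd' hb1).1 hb.symm
    exact ⟨m, by omega⟩
  have hpm : ∀ (x : Q) (m : ℕ), x ^ (p * m) ∈ Subgroup.center Q := by
    intro x m
    rw [pow_mul]
    exact Subgroup.pow_mem _ (pow_p_center hc he x) m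
  have hpdvd : ∀ (x : Q) (e : ℕ), p ∣ e → x ^ e ∈ Subgroup.center Q := by
    rintro x _ ⟨m, rfl⟩
    exact hpm x m
  by_cases hcase : ∃ u, u ^ p ^ j ∈ Y ∧ u ∉ Subgroup.center Q
  · -- case 2
    obtain ⟨u, huY, huZ⟩ := hcase
    -- `u`, `v0` do not commute
    have huv : ⁅u, v0⁆ ≠ 1 := by
      intro h0
      obtain ⟨w, hw⟩ : ∃ w : Q, ⁅u, w⁆ ≠ 1 := by
        by_contra hcon
        push Not at hcon
        exact huZ (hcen hcon)
      obtain ⟨i, k, ζ, hζ, hv⟩ := gen_two hc he hodd hcount hw v0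
      have h1 : ⁅u, w⁆ ^ k = 1 := by
        rw [hv, comm_mul_right hc, comm_mul_right hc, comm_pow_right hc, comm_pow_right hc,
          commutatorElement_self, one_pow, one_mul, (hcomm hζ u).2, mul_one] at h0
        exact h0
      have h2 : p ∣ k := by
        rw [← order_comm hc he hw]
        exact orderOf_dvd_of_pow_eq_one h1
      apply hjY
      have h3 : z = ppow hc he hodd j v0 := by rw [ppow_apply, hv0]
      rw [h3, hv, map_mul, map_mul, map_pow, ppow_apply, ppow_apply, ppow_apply]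
      exact Y.mul_mem (Y.mul_mem (Y.pow_mem huY i) (hY1 _ (hpdvd w k h2))) (hY1 ζ hζ)
    apply huZ
    apply hfix (Subgroup.center Q)
    · intro a b
      rw [Subgroup.mem_center_iff]
      intro g
      exact (hc a b g).symm
    · intro γ _ x hx
      rw [Subgroup.mem_center_iff] at hx ⊢
      intro g
      have h1 := congrArg γ (hx (γ.symm g))
      rw [map_mul, map_mul] at h1
      have h2 : γ (γ.symm g) = g := MulEquiv.apply_symm_apply γ g
      rwa [h2] at h1
    · intro γ _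
      obtain ⟨b, e, ζ, hζ, hγu⟩ := gen_two hc he hodd hcount huv (γ u)
      obtain ⟨c, a, ζ', hζ', hγv⟩ := gen_two hc he hodd hcount huv (γ v0)
      have he1 : p ∣ e := by
        have h1 : (γ u) ^ p ^ j ∈ Y := by
          rw [← map_pow]
          exact hYinv γ _ huY
        have h2 : (γ u) ^ p ^ j = (u ^ p ^ j) ^ b * z ^ e * ζ ^ p ^ j := by
          have h3 : (γ u) ^ p ^ j = ppow hc he hodd j (γ u) := rfl
          rw [h3, hγu, map_mul, map_mul, map_pow, map_pow, ppow_apply, ppow_apply, ppow_apply, hv0]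
        have h4 : z ^ e = ((u ^ p ^ j) ^ b)⁻¹ * (γ u) ^ p ^ j * (ζ ^ p ^ j)⁻¹ := by
          rw [h2]; group
        have h5 : z ^ (e : ℤ) ∈ Y := by
          rw [zpow_natCast, h4]
          exact Y.mul_mem (Y.mul_mem (Y.inv_mem (Y.pow_mem huY b)) h1) (Y.inv_mem (hY1 ζ hζ))
        exact_mod_cast hY2 _ h5
      have hγza : γ z = z ^ a := by
        obtain ⟨s, hs⟩ := hγz γ
        have h2 : γ z = (u ^ p ^ j) ^ c * z ^ a * ζ' ^ p ^ j := by
          have h3 : γ z = ppow hc he hodd j (γ v0) := by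
            rw [ppow_apply, ← map_pow, hv0]
          rw [h3, hγv, map_mul, map_mul, map_pow, map_pow, ppow_apply, ppow_apply, ppow_apply, hv0]
        have h4 : z ^ (s - a) ∈ Y := by
          have h5 : z ^ (s - a) = (u ^ p ^ j) ^ c * (ζ' ^ p ^ j) := by
            rw [zpow_sub, ← hs, h2, zpow_natCast]
            have h6 : z ^ a * ζ' ^ p ^ j = ζ' ^ p ^ j * z ^ a :=
              (Subgroup.mem_center_iff.1 (Subgroup.pow_mem _ hζ' _) _)
            rw [mul_assoc ((u ^ p ^ j) ^ c), h6]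
            group
          rw [h5]
          exact Y.mul_mem (Y.pow_mem huY c) (hY1 ζ' hζ')
        obtain ⟨m, hm⟩ := hY2 _ h4
        have h7 : s = a + p * m := by linarith
        rw [hs, h7, zpow_add, zpow_mul, zpow_natCast, zpow_natCast]
        have h8 : z ^ p = 1 := by rw [← hzo, pow_orderOf_eq_one]
        rw [h8, one_zpow, mul_one]
      have hy : ⁅u, v0⁆ ^ (a * b) = ⁅u, v0⁆ ^ a := by
        rw [← hγy γ a hγza u v0]
        have h1 : γ ⁅u, v0⁆ = ⁅γ u, γ v0⁆ := map_commutatorElement γ u v0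
        rw [h1, hγu, hγv, comm_mul_left hc, (hcomm hζ _).1, mul_one, comm_mul_left hc,
          (hcomm (hpdvd v0 e he1) _).1, mul_one, comm_mul_right hc, (hcomm hζ' _).2, mul_one,
          comm_mul_right hc, comm_pow_right hc, comm_pow_right hc, comm_pow_left hc,
          comm_pow_left hc, commutatorElement_self, one_pow, one_pow, one_mul, ← pow_mul,
          mul_comm b a]
      obtain ⟨m, hm⟩ := hcong γ a b hγza u v0 huv hy
      rw [hγu, hm, pow_add, pow_one]
      have h9 : u * u ^ (p * m) * v0 ^ e * ζ * u⁻¹ ∈ Subgroup.center Q := by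
        have h10 : u ^ (p * m) * v0 ^ e * ζ ∈ Subgroup.center Q :=
          Subgroup.mul_mem _ (Subgroup.mul_mem _ (hpm u m) (hpdvd v0 e he1)) hζ
        have h11 : u * u ^ (p * m) * v0 ^ e * ζ * u⁻¹ = u ^ (p * m) * v0 ^ e * ζ := by
          have h12 := Subgroup.mem_center_iff.1 h10 u
          have h13 : u * u ^ (p * m) * v0 ^ e * ζ * u⁻¹ = (u * (u ^ (p * m) * v0 ^ e * ζ)) * u⁻¹ := by
            group
          rw [h13, h12]
          group
        rw [h11]
        exact h10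
      exact h9
  · -- case 1
    push Not at hcase
    have hv0Z : v0 ∉ Subgroup.center Q := by
      intro h0
      apply hjY
      rw [← hv0]
      exact hY1 v0 h0
    obtain ⟨w, hw⟩ : ∃ w : Q, ⁅v0, w⁆ ≠ 1 := by
      by_contra hcon
      push Not at hcon
      exact hv0Z (hcen hcon)
    -- `γ v0 = v0 ^ a ζ`, `γ z = z ^ a`
    have hγv0 : ∀ γ : MulAut Q, ∃ (a : ℕ) (ζ : Q), ζ ∈ Subgroup.center Q ∧ γ v0 = v0 ^ a * ζ ∧
        γ z = z ^ a := by
      intro γ
      obtain ⟨s, hs⟩ := hγz γ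
      obtain ⟨a, ha⟩ : ∃ a : ℕ, z ^ s = z ^ a := by
        refine ⟨(s % p).toNat, ?_⟩
        have h1 : 0 ≤ s % p := Int.emod_nonneg _ (by exact_mod_cast hp.out.ne_zero)
        rw [← zpow_natCast, Int.toNat_of_nonneg h1]
        have h2 : z ^ (p : ℤ) = 1 := by rw [zpow_natCast, ← hzo, pow_orderOf_eq_one]
        conv_lhs => rw [← Int.emod_add_mul_ediv s p]
        rw [zpow_add, zpow_mul, h2, one_zpow, mul_one]
      rw [ha] at hs
      refine ⟨a, (v0 ^ a)⁻¹ * γ v0, ?_, by rw [mul_inv_cancel_left], hs⟩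
      apply hcase
      have h3 : ((v0 ^ a)⁻¹ * γ v0) ^ p ^ j = ppow hc he hodd j ((v0 ^ a)⁻¹ * γ v0) := rfl
      have h4 : ((v0 ^ a)⁻¹ * γ v0) ^ p ^ j = 1 := by
        rw [h3, map_mul, map_inv, map_pow, ppow_apply, ppow_apply, ← map_pow, hv0, hs,
          inv_mul_cancel]
      rw [h4]
      exact Y.one_mem
    have hR : ∀ x : Q, x ∈ Subgroup.centralizer ({v0} : Set Q) ↔ ⁅x, v0⁆ = 1 := by
      intro x
      rw [Subgroup.mem_centralizer_singleton_iff, commutatorElement_eq_one_iff_mul_comm]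
    have hwR : w ∈ Subgroup.centralizer ({v0} : Set Q) := by
      apply hfix
      · intro a b
        rw [hR, commutatorElement_eq_one_iff_mul_comm]
        exact hc a b v0
      · intro γ _ x hx
        rw [hR] at hx ⊢
        obtain ⟨a, ζ, hζ, h1, h2⟩ := hγv0 γ
        have h3 : ⁅γ x, v0⁆ ^ a = 1 := by
          have h4 : ⁅γ x, γ v0⁆ = 1 := by
            rw [← map_commutatorElement, hx, map_one]
          rw [h1, comm_mul_right hc, (hcomm hζ _).2, mul_one, comm_pow_right hc] at h4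
          exact h4
        by_contra hne
        have h5 : p ∣ a := by
          rw [← order_comm hc he hne]
          exact orderOf_dvd_of_pow_eq_one h3
        obtain ⟨k, rfl⟩ := h5
        apply hγz1 γ
        rw [h2, pow_mul, ← hzo, pow_orderOf_eq_one, one_pow]
      · intro γ _
        obtain ⟨a, ζ, hζ, h1, h2⟩ := hγv0 γ
        obtain ⟨c, b, ζ', hζ', hγw⟩ := gen_two hc he hodd hcount hw (γ w)
        have hy : ⁅v0, w⁆ ^ (a * b) = ⁅v0, w⁆ ^ a := by
          rw [← hγy γ a h2 v0 w]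
          have h3 : γ ⁅v0, w⁆ = ⁅γ v0, γ w⁆ := map_commutatorElement γ v0 w
          rw [h3, h1, hγw, comm_mul_left hc, (hcomm hζ _).1, mul_one, comm_mul_right hc,
            (hcomm hζ' _).2, mul_one, comm_mul_right hc, comm_pow_right hc, comm_pow_right hc,
            comm_pow_left hc, comm_pow_left hc, commutatorElement_self, one_pow, one_pow, one_mul,
            ← pow_mul]
        obtain ⟨m, hm⟩ := hcong γ a b h2 v0 w hw hy
        rw [hR, comm_mul_left hc, hγw, comm_mul_left hc, comm_mul_left hc, (hcomm hζ' _).1, mul_one,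
          comm_pow_left hc, comm_pow_left hc, commutatorElement_self, one_pow, one_mul, hm, pow_add,
          pow_one, pow_mul, he, one_pow, mul_one]
        rw [← comm_mul_left hc, mul_inv_cancel, commutatorElement_one_left]
    apply hw
    rw [← commutatorElement_inv, (hR w).1 hwR, inv_one]

end main

end Pool.Agent.Helper14.LC
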