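import Pool.Agent.Helper14.LC.Abel

/-!
# Normal nonabelian metacyclic Sylow `p`-subgroups: `P ∩ O^p(N)` is cyclic (`p` odd)
-/

namespace Pool.Agent.Helper14.LC

open scoped commutatorElement

/-- a finite abelian `p`-group with less than `p ^ 2` elements with `x ^ p = 1` is cyclic -/
theorem cyc_of_small {p : ℕ} [hp : Fact p.Prime] {Q : Type} [CommGroup Q] [Finite Q]
    (hQ : IsPGroup p Q) (h : Nat.card {x : Q // x ^ p = 1} < p ^ 2) : IsCyclic Q := by
  classical
  haveI : Fintype Q := Fintype.ofFinite Q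
  have hker : ∀ n : ℕ, Nat.card (powMonoidHom n : Q →* Q).ker = Nat.card {x : Q // x ^ n = 1} := by
    intro n
    apply Nat.card_congr
    apply Equiv.subtypeEquivRight
    intro x
    rw [MonoidHom.mem_ker, powMonoidHom_apply]
  have h1 : Nat.card {x : Q // x ^ p = 1} ≤ p := by
    obtain ⟨k, hk⟩ := IsPGroup.iff_card.1 (hQ.to_subgroup (powMonoidHom p : Q →* Q).ker)
    rw [hker] at hk
    rw [hk] at h ⊢
    have h2 : k < 2 := (Nat.pow_lt_pow_iff_right hp.out.one_lt).1 h
    calc p ^ k ≤ p ^ 1 := Nat.pow_le_pow_right hp.out.pos (by omega)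
      _ = p := pow_one p
  have h2 : ∀ v : ℕ, Nat.card {x : Q // x ^ p ^ v = 1} ≤ p ^ v := by
    intro v
    induction v with
    | zero =>
      rw [pow_zero]
      haveI : Subsingleton {x : Q // x ^ 1 = 1} := ⟨fun a b => Subtype.ext (by
        have ha := a.2
        have hb := b.2
        rw [pow_one] at ha hb
        rw [ha, hb])⟩
      exact Finite.card_le_one_iff_subsingleton.2 this
    | succ v ih =>
      let A := (powMonoidHom (p ^ (v + 1)) : Q →* Q).ker
      let f : A →* Q := (powMonoidHom p).comp A.subtype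
      have hf1 : Nat.card f.ker ≤ p := by
        refine le_trans ?_ h1
        apply Nat.card_le_card_of_injective (fun x : f.ker => (⟨((x : A) : Q), by
          have := x.2
          rw [MonoidHom.mem_ker] at this
          exact this⟩ : {x : Q // x ^ p = 1}))
        intro a b hab
        exact Subtype.ext (Subtype.ext (Subtype.mk.inj hab))
      have hf2 : Nat.card f.range ≤ p ^ v := by
        refine le_trans ?_ ih
        apply Nat.card_le_card_of_injective (fun x : f.range => (⟨(x : Q), by
          obtain ⟨a, ha⟩ := x.2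
          have h3 := a.2
          rw [MonoidHom.mem_ker, powMonoidHom_apply] at h3
          rw [← ha]
          change (((a : A) : Q) ^ p) ^ p ^ v = 1
          rw [← pow_mul, ← pow_succ']
          exact h3⟩ : {x : Q // x ^ p ^ v = 1}))
        intro a b hab
        exact Subtype.ext (Subtype.mk.inj hab)
      have hA : Nat.card A = Nat.card f.range * Nat.card f.ker := by
        rw [← Subgroup.index_ker, mul_comm, Subgroup.card_mul_index]
      rw [← hker]
      change Nat.card A ≤ _
      rw [hA, pow_succ]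
      exact Nat.mul_le_mul hf2 hf1
  apply isCyclic_of_card_pow_eq_one_le
  intro n hn
  obtain ⟨v, m, hm, hnm⟩ := Nat.exists_eq_pow_mul_and_not_dvd hn.ne' p hp.out.ne_one
  have h3 : (Finset.univ.filter (fun a : Q => a ^ n = 1)).card ≤ Nat.card {x : Q // x ^ p ^ v = 1} := by
    rw [Nat.card_eq_fintype_card, Fintype.card_subtype]
    apply Finset.card_le_card
    intro a ha
    rw [Finset.mem_filter] at ha ⊢
    refine ⟨Finset.mem_univ _, ?_⟩
    have h4 : (a ^ p ^ v) ^ m = 1 := by
      rw [← pow_mul, ← hnm]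
      exact ha.2
    obtain ⟨k, hk⟩ := hQ (a ^ p ^ v)
    have h5 : orderOf (a ^ p ^ v) ∣ 1 := by
      have h6 : Nat.Coprime m (p ^ k) := by
        apply Nat.Coprime.pow_right
        rw [Nat.coprime_comm, hp.out.coprime_iff_not_dvd]
        exact hm
      rw [← h6.gcd_eq_one]
      exact Nat.dvd_gcd (orderOf_dvd_of_pow_eq_one h4) (orderOf_dvd_of_pow_eq_one hk)
    exact orderOf_eq_one_iff.1 (Nat.dvd_one.1 h5)
  refine h3.trans ((h2 v).trans ?_)
  have hm0 : 0 < m := by
    rcases Nat.eq_zero_or_pos m with h4 | h4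
    · exact absurd (h4 ▸ dvd_zero p) hm
    · exact h4
  rw [hnm]
  exact Nat.le_mul_of_pos_right _ hm0

section op

variable (p : ℕ) [hp : Fact p.Prime] (N : Type) [Group N] [Finite N]

/-- the subgroup generated by the elements of order prime to `p` -/
def Op : Subgroup N := Subgroup.closure {x | ¬ p ∣ orderOf x}

instance Op_normal : (Op p N).Normal := by
  have h1 : Op p N = Subgroup.normalClosure {x : N | ¬ p ∣ orderOf x} := by
    apply le_antisymm
    · exact Subgroup.closure_le_normalClosure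
    · unfold Subgroup.normalClosure
      apply Subgroup.closure_mono
      intro y hy
      rw [Group.mem_conjugatesOfSet_iff] at hy
      obtain ⟨x, hx, hxy⟩ := hy
      rw [isConj_iff] at hxy
      obtain ⟨c, rfl⟩ := hxy
      have h2 : orderOf (c * x * c⁻¹) = orderOf x := by
        have := MulEquiv.orderOf_eq (MulAut.conj c) x
        rwa [MulAut.conj_apply] at this
      change ¬ p ∣ orderOf (c * x * c⁻¹)
      rw [h2]
      exact hx
  rw [h1]
  infer_instance

theorem Op_quot : IsPGroup p (N ⧸ Op p N) := by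
  intro x
  obtain ⟨y, rfl⟩ := QuotientGroup.mk_surjective x
  obtain ⟨a, m, hm, hn⟩ := Nat.exists_eq_pow_mul_and_not_dvd (orderOf_pos y).ne' p hp.out.ne_one
  refine ⟨a, ?_⟩
  rw [← QuotientGroup.mk_pow, QuotientGroup.eq_one_iff]
  apply Subgroup.subset_closure
  change ¬ p ∣ orderOf (y ^ p ^ a)
  rw [orderOf_pow_of_dvd (pow_pos hp.out.pos a).ne' ⟨m, hn⟩, hn,
    Nat.mul_div_cancel_left _ (pow_pos hp.out.pos a)]
  exact hm

theorem Op_noPQ : NoPQ p (Op p N) := by
  intro A _ _ hA f
  have h1 : ∀ x (hx : x ∈ Op p N), f ⟨x, hx⟩ = 1 := by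
    intro x hx
    refine Subgroup.closure_induction (p := fun x hx => f ⟨x, hx⟩ = 1) ?_ ?_ ?_ ?_ hx
    · intro y hy
      obtain ⟨k, hk⟩ := hA (f ⟨y, Subgroup.subset_closure hy⟩)
      have h2 : orderOf (f ⟨y, Subgroup.subset_closure hy⟩) ∣ 1 := by
        have h3 : orderOf (f ⟨y, Subgroup.subset_closure hy⟩) ∣ orderOf y := by
          refine (orderOf_map_dvd f _).trans ?_
          rw [← Subgroup.orderOf_coe]
        have h4 : Nat.Coprime (orderOf y) (p ^ k) := by
          apply Nat.Coprime.pow_right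
          rw [Nat.coprime_comm, hp.out.coprime_iff_not_dvd]
          exact hy
        rw [← h4.gcd_eq_one]
        exact Nat.dvd_gcd h3 (orderOf_dvd_of_pow_eq_one hk)
      exact orderOf_eq_one_iff.1 (Nat.dvd_one.1 h2)
    · exact map_one f
    · intro a b ha hb h2 h3
      have h4 : (⟨a * b, mul_mem ha hb⟩ : Op p N) = ⟨a, ha⟩ * ⟨b, hb⟩ := rfl
      rw [h4, map_mul, h2, h3, one_mul]
    · intro a ha h2
      have h4 : (⟨a⁻¹, inv_mem ha⟩ : Op p N) = (⟨a, ha⟩)⁻¹ := rfl
      rw [h4, map_inv, h2, inv_one]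
  intro x
  exact h1 x x.2

end op

theorem cyc_Op {p : ℕ} [hp : Fact p.Prime] (hodd : p ≠ 2) {N : Type} [Group N] [Finite N]
    (P : Subgroup N) [hPn : P.Normal] (hP : IsPGroup p P) (hi : ¬ p ∣ P.index)
    (hM : Metacyclic P) (hna : ¬ ∀ a b : P, a * b = b * a) :
    IsCyclic (P.subgroupOf (Op p N)) := by
  classical
  let L := Op p N
  let Q : Subgroup L := P.subgroupOf L
  have hQ : IsPGroup p Q := hP.comap_subtype
  have hQi : ¬ p ∣ Q.index := by
    intro h1
    exact hi (h1.trans (Subgroup.relIndex_dvd_index_of_normal P L))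
  let ι : Q →* P := (L.subtype.comp Q.subtype).codRestrict P (fun x => x.2)
  have hι : Function.Injective ι := by
    intro a b hab
    have h1 := congrArg Subtype.val hab
    exact Subtype.ext (Subtype.ext h1)
  have hQM : Metacyclic Q := hM.of_injective ι hι
  have hNP : NoPQ p L := Op_noPQ p N
  have hab : ∀ a b : Q, a * b = b * a := abel_of hodd _ L le_rfl Q hQ hQi hQM hNP
  letI : CommGroup Q := { (inferInstance : Group Q) with mul_comm := hab }
  change IsCyclic Q
  by_contra hnc
  have hbig : p ^ 2 ≤ Nat.card {x : Q // x ^ p = 1} := by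
    by_contra h1
    exact hnc (cyc_of_small hQ (not_le.1 h1))
  have hcount := hM.card_le hodd hP
  -- elements of order `p` of `P` are in `L`
  have hall : ∀ y : P, y ^ p = 1 → (y : N) ∈ L := by
    intro y hy
    by_contra hyL
    let F : Option {x : Q // x ^ p = 1} → {x : P // x ^ p = 1} := fun o =>
      match o with
      | none => ⟨y, hy⟩
      | some x => ⟨ι x.1, by rw [← map_pow, x.2, map_one]⟩
    have hF : Function.Injective F := by
      intro a b hab'
      rcases a with _ | a <;> rcases b with _ | b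
      · rfl
      · exfalso
        apply hyL
        have h1 : y = ι b.1 := congrArg Subtype.val hab'
        rw [h1]
        exact (b.1 : L).2
      · exfalso
        apply hyL
        have h1 : ι a.1 = y := congrArg Subtype.val hab'
        rw [← h1]
        exact (a.1 : L).2
      · have h1 : ι a.1 = ι b.1 := congrArg Subtype.val hab'
        exact congrArg some (Subtype.ext (hι h1))
    have h1 := Nat.card_le_card_of_injective F hF
    rw [Finite.card_option] at h1
    omega
  -- an element of `P` outside `L`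
  obtain ⟨x, hxP, hxL⟩ : ∃ x ∈ P, x ∉ L := by
    by_contra hcon
    push Not at hcon
    apply hna
    intro a b
    have h1 := hab ⟨⟨a, hcon _ a.2⟩, a.2⟩ ⟨⟨b, hcon _ b.2⟩, b.2⟩
    exact Subtype.ext (congrArg (fun z : Q => ((z : L) : N)) h1)
  -- a complement
  have hcopQ : Nat.Coprime (Nat.card Q) Q.index := by
    obtain ⟨k, hk⟩ := IsPGroup.iff_card.1 hQ
    rw [hk]
    apply Nat.Coprime.pow_left
    rw [hp.out.coprime_iff_not_dvd]
    exact hQi
  obtain ⟨K, hK⟩ := Subgroup.exists_right_complement'_of_coprime hcopQ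
  haveI : Fintype K := Fintype.ofFinite K
  have hKcard : Fintype.card K = Q.index := by
    rw [hK.symm.index_eq_card, Nat.card_eq_fintype_card]
  have hcop : Nat.Coprime (Fintype.card K) (Nat.card Q) := by
    rw [hKcard]
    exact hcopQ.symm
  have hQ1 : 1 < Nat.card Q := by
    by_contra h1
    apply hnc
    have h2 : Nat.card Q = 1 := by
      have := Nat.card_pos (α := Q)
      omega
    haveI : Subsingleton Q := (Nat.card_eq_one_iff_unique.1 h2).1
    exact isCyclic_of_subsingleton
  obtain ⟨m', -, hm'⟩ := Nat.exists_mul_mod_eq_one_of_coprime hcop hQ1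
  -- the cocycle
  have hmemL : ∀ k : K, x⁻¹ * ((k : L) : N) * x * ((k : L) : N)⁻¹ ∈ L := by
    intro k
    apply L.mul_mem _ (L.inv_mem (k : L).2)
    have h1 := (Op_normal p N).conj_mem _ (k : L).2 x⁻¹
    rw [inv_inv] at h1
    exact h1
  have hmemP : ∀ k : K, x⁻¹ * ((k : L) : N) * x * ((k : L) : N)⁻¹ ∈ P := by
    intro k
    have h1 : x⁻¹ * ((k : L) : N) * x * ((k : L) : N)⁻¹ =
        x⁻¹ * (((k : L) : N) * x * ((k : L) : N)⁻¹) := by group
    rw [h1]
    exact P.mul_mem (P.inv_mem hxP) (hPn.conj_mem _ hxP _)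
  let a : K → Q := fun k => ⟨⟨_, hmemL k⟩, hmemP k⟩
  have ha : ∀ k : K, ((a k : L) : N) = x⁻¹ * ((k : L) : N) * x * ((k : L) : N)⁻¹ := fun k => rfl
  let φ : K → Q →* Q := fun k => (MulAut.conjNormal (k : L) : MulAut Q).toMonoidHom
  have hφ : ∀ (k : K) (q : Q), ((φ k q : L) : N) = ((k : L) : N) * ((q : L) : N) * ((k : L) : N)⁻¹ := by
    intro k q
    have h1 : ((φ k q : Q) : L) = (k : L) * (q : L) * (k : L)⁻¹ := MulAut.conjNormal_apply _ _
    rw [h1]
    rfl
  have hcoc : ∀ k k' : K, a (k * k') = a k * φ k (a k') := by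
    intro k k'
    apply Subtype.ext
    apply Subtype.ext
    change ((a (k * k') : L) : N) = ((a k : L) : N) * ((φ k (a k') : L) : N)
    rw [ha, hφ, ha, ha]
    change x⁻¹ * (((k : L) : N) * ((k' : L) : N)) * x * (((k : L) : N) * ((k' : L) : N))⁻¹ = _
    group
  let b : Q := ∏ k, a k
  have hb : ∀ k, a k ^ (Fintype.card K) * φ k b = b := by
    intro k
    have h1 : ∏ k', a (k * k') = b := Fintype.prod_equiv (Equiv.mulLeft k) _ _ (fun _ => rfl)
    rw [Finset.prod_congr rfl (fun k' _ => hcoc k k'), Finset.prod_mul_distrib, Finset.prod_const,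
      Finset.card_univ, ← map_prod] at h1
    exact h1
  let c : Q := b ^ m'
  have hc : ∀ k, a k * φ k c = c := by
    intro k
    have h1 := congrArg (fun z => z ^ m') (hb k)
    simp only [mul_pow, ← pow_mul, ← map_pow] at h1
    have h2 : a k ^ (Fintype.card K * m') = a k := by
      rw [← Nat.div_add_mod (Fintype.card K * m') (Nat.card Q), hm', pow_add, pow_mul,
        pow_card_eq_one', one_pow, one_mul, pow_one]
    rw [h2] at h1
    exact h1
  -- the fixed element
  let y : N := x * ((c : L) : N)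
  have hyP : y ∈ P := P.mul_mem hxP c.2
  have hyL : y ∉ L := by
    intro h1
    apply hxL
    have h2 : x = y * ((c : L) : N)⁻¹ := by
      change x = x * ((c : L) : N) * ((c : L) : N)⁻¹
      rw [mul_inv_cancel_right]
    rw [h2]
    exact L.mul_mem h1 (L.inv_mem (c : L).2)
  have hyK : ∀ k : K, ((k : L) : N) * y * ((k : L) : N)⁻¹ = y := by
    intro k
    have h1 := congrArg (fun z : Q => ((z : L) : N)) (hc k)
    change ((a k : L) : N) * ((φ k c : L) : N) = ((c : L) : N) at h1
    rw [ha, hφ] at h1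
    change ((k : L) : N) * (x * ((c : L) : N)) * ((k : L) : N)⁻¹ = x * ((c : L) : N)
    conv_rhs => rw [← h1]
    group
  -- a power of `y` of order `p` outside `L`
  have hex : ∃ r, y ^ p ^ r ∈ L := by
    obtain ⟨n, hn⟩ := hP ⟨y, hyP⟩
    refine ⟨n, ?_⟩
    have h1 : y ^ p ^ n = 1 := congrArg Subtype.val hn
    rw [h1]
    exact L.one_mem
  have hr := Nat.find_spec hex
  have hr0 : Nat.find hex ≠ 0 := by
    intro h0
    rw [h0, pow_zero, pow_one] at hr
    exact hyL hr
  let y' : N := y ^ p ^ (Nat.find hex - 1)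
  have hy'L : y' ∉ L := by
    intro h1
    have := Nat.find_min' hex h1
    omega
  have hy'P : y' ∈ P := P.pow_mem hyP _
  have hy'p : y' ^ p = y ^ p ^ (Nat.find hex) := by
    change (y ^ p ^ (Nat.find hex - 1)) ^ p = _
    rw [← pow_mul, ← pow_succ, Nat.sub_add_cancel (by omega)]
  have hy'pL : y' ^ p ∈ L := by rw [hy'p]; exact hr
  have hy'K : ∀ k : K, ((k : L) : N) * y' ^ p * ((k : L) : N)⁻¹ = y' ^ p := by
    intro k
    rw [hy'p, ← conj_pow, hyK]
  let q : Q := ⟨⟨y' ^ p, hy'pL⟩, P.pow_mem hy'P p⟩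
  have hq1 : q ∈ (⊥ : Subgroup Q) := by
    refine fixed_mem Q hQ hQi hNP ⊥ ?_ q ?_
    · intro u v
      rw [Subgroup.mem_bot, commutatorElement_eq_one_iff_mul_comm]
      exact hab u v
    · intro l
      rw [Subgroup.mem_bot, mul_inv_eq_one]
      obtain ⟨⟨u, k⟩, huk⟩ := hK.surjective l
      simp only at huk
      apply Subtype.ext
      rw [MulAut.conjNormal_apply, ← huk]
      have h1 : (k : L) * (q : L) * (k : L)⁻¹ = (q : L) := Subtype.ext (hy'K k)
      have h2 : (u : L) * (q : L) * (u : L)⁻¹ = (q : L) := by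
        have h3 := congrArg Subtype.val (hab u q)
        change (u : L) * (q : L) = (q : L) * (u : L) at h3
        rw [h3, mul_inv_cancel_right]
      have h4 : (u : L) * (k : L) * (q : L) * ((u : L) * (k : L))⁻¹ =
          (u : L) * ((k : L) * (q : L) * (k : L)⁻¹) * (u : L)⁻¹ := by group
      exact h4.trans (by rw [h1, h2])
  have hq2 : y' ^ p = 1 := congrArg (fun z : Q => ((z : L) : N)) (Subgroup.mem_bot.1 hq1)
  exact hy'L (hall ⟨y', hy'P⟩ (Subtype.ext hq2))

end Pool.Agent.Helper14.LC
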