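import Pool.Agent.Helper14.LC.Co

/-!
# The wreath product as a quotient
-/

namespace Pool.Agent.Helper14.LC

open RegularWreathProduct

variable {p : ℕ} [hp : Fact p.Prime] {P : Type} [Group P] [Finite P] {M : Subgroup P}

/-- the monomial representation -/
noncomputable def mono [M.Normal] (φ : M →* Multiplicative (ZMod p))
    (e : (P ⧸ M) ≃* Multiplicative (ZMod p)) :
    P →* RegularWreathProduct (Multiplicative (ZMod p)) (Multiplicative (ZMod p)) where
  toFun x := ⟨fun c => co φ x (x⁻¹ • e.symm c), e (x : P ⧸ M)⟩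
  map_one' := by
    apply RegularWreathProduct.ext
    · funext c
      exact co_one φ _
    · exact map_one e
  map_mul' x y := by
    have hs : ∀ (x : P) (c : Multiplicative (ZMod p)),
        e.symm ((e (x : P ⧸ M))⁻¹ * c) = x⁻¹ • e.symm c := by
      intro x c
      rw [map_mul, map_inv, e.symm_apply_apply]
      obtain ⟨z, hz⟩ := QuotientGroup.mk_surjective (e.symm c)
      rw [← hz]
      rfl
    apply RegularWreathProduct.ext
    · funext c
      change co φ (x * y) ((x * y)⁻¹ • e.symm c) = co φ x (x⁻¹ • e.symm c) *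
        co φ y (y⁻¹ • e.symm ((e (x : P ⧸ M))⁻¹ * c))
      rw [hs, co_mul]
      have h1 : y • (x * y)⁻¹ • e.symm c = x⁻¹ • e.symm c := by
        rw [← mul_smul, mul_inv_rev, mul_inv_cancel_left]
      have h2 : (x * y)⁻¹ • e.symm c = y⁻¹ • x⁻¹ • e.symm c := by
        rw [← mul_smul, mul_inv_rev]
      rw [h1, h2]
    · change e ((x * y : P) : P ⧸ M) = e (x : P ⧸ M) * e (y : P ⧸ M)
      rw [← map_mul]
      rfl

/-- functions as elements of the group algebra, and the base group -/
noncomputable def bs (r : MonoidAlgebra (ZMod p) (Multiplicative (ZMod p))) :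
    RegularWreathProduct (Multiplicative (ZMod p)) (Multiplicative (ZMod p)) :=
  ⟨fun c => Multiplicative.ofAdd (r.coeff c), 1⟩

theorem bs_zero : bs (p := p) 0 = 1 := rfl

theorem bs_add (r s : MonoidAlgebra (ZMod p) (Multiplicative (ZMod p))) :
    bs (r + s) = bs r * bs s := by
  apply RegularWreathProduct.ext
  · funext c
    change Multiplicative.ofAdd ((r + s).coeff c) = Multiplicative.ofAdd (r.coeff c) *
      Multiplicative.ofAdd (s.coeff (1⁻¹ * c))
    rw [inv_one, one_mul, ← ofAdd_add]
    rfl
  · change (1 : Multiplicative (ZMod p)) = 1 * 1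
    rw [mul_one]

theorem bs_single (c : Multiplicative (ZMod p)) (r : MonoidAlgebra (ZMod p) (Multiplicative (ZMod p)))
    (w : RegularWreathProduct (Multiplicative (ZMod p)) (Multiplicative (ZMod p)))
    (hw : w.right = c) : bs (MonoidAlgebra.single c 1 * r) = w * bs r * w⁻¹ := by
  apply RegularWreathProduct.ext
  · funext d
    change Multiplicative.ofAdd ((MonoidAlgebra.single c 1 * r).coeff d) =
      w.left d * Multiplicative.ofAdd (r.coeff (w.right⁻¹ * d)) *
        (w.left (w.right * ((w.right * 1)⁻¹ * d)))⁻¹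
    rw [MonoidAlgebra.coeff_single_mul_apply, one_mul, hw, mul_one, mul_inv_cancel_left, mul_comm (w.left d),
      mul_inv_cancel_right]
  · change (1 : Multiplicative (ZMod p)) = w.right * 1 * w.right⁻¹
    rw [mul_one, mul_inv_cancel]

theorem wreath_of [M.Normal] (hM : M.index = p) (φ : M →* Multiplicative (ZMod p)) (g : P)
    (hg : g ∈ M) (h : TU φ g ≠ 1) :
    ∃ f : P →* RegularWreathProduct (Multiplicative (ZMod p)) (Multiplicative (ZMod p)),
      Function.Surjective f := by
  classical
  have hc1 : Nat.card (P ⧸ M) = p := hM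
  have hc2 : Nat.card (Multiplicative (ZMod p)) = p := by
    rw [Nat.card_congr Multiplicative.toAdd, Nat.card_zmod]
  let e : (P ⧸ M) ≃* Multiplicative (ZMod p) := mulEquivOfPrimeCardEq hc1 hc2
  let f := mono φ e
  have hfr : ∀ x, (f x).right = e (x : P ⧸ M) := fun x => rfl
  have hfl : ∀ x c, (f x).left c = co φ x (x⁻¹ • e.symm c) := fun x c => rfl
  have hright : ∀ c : Multiplicative (ZMod p), ∃ x, (f x).right = c := by
    intro c
    obtain ⟨x, hx⟩ := QuotientGroup.mk_surjective (e.symm c)
    refine ⟨x, ?_⟩
    rw [hfr, hx, e.apply_symm_apply]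
  let W : MonoidAlgebra (ZMod p) (Multiplicative (ZMod p)) → Prop := fun r => bs r ∈ f.range
  have W0 : W 0 := by
    change bs 0 ∈ f.range
    rw [bs_zero]
    exact one_mem _
  have Wadd : ∀ r s, W r → W s → W (r + s) := by
    intro r s hr hs
    change bs (r + s) ∈ f.range
    rw [bs_add]
    exact mul_mem hr hs
  have Wnsmul : ∀ (n : ℕ) r, W r → W (n • r) := by
    intro n r hr
    induction n with
    | zero => rw [zero_nsmul]; exact W0
    | succ n ih => rw [succ_nsmul]; exact Wadd _ _ ih hr
  have Wsingle : ∀ (c : Multiplicative (ZMod p)) (a : ZMod p) r, W r →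
      W (MonoidAlgebra.single c a * r) := by
    intro c a r hr
    have h1 : W (MonoidAlgebra.single c 1 * r) := by
      obtain ⟨x, hx⟩ := hright c
      change bs _ ∈ f.range
      rw [bs_single c r (f x) hx]
      exact mul_mem (mul_mem ⟨x, rfl⟩ hr) (inv_mem ⟨x, rfl⟩)
    have h2 : MonoidAlgebra.single c a * r = a.val • (MonoidAlgebra.single c 1 * r) := by
      rw [← smul_mul_assoc]
      congr 1
      rw [MonoidAlgebra.smul_single, nsmul_eq_mul, mul_one, ZMod.natCast_zmod_val]
    rw [h2]
    exact Wnsmul _ _ h1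
  have Wmul : ∀ s r, W r → W (s * r) := by
    intro s r hr
    induction s using MonoidAlgebra.induction_linear with
    | zero => rw [zero_mul]; exact W0
    | add s t hs ht => rw [add_mul]; exact Wadd _ _ hs ht
    | single c a => exact Wsingle c a r hr
  -- the element with nonzero augmentation
  let v : MonoidAlgebra (ZMod p) (Multiplicative (ZMod p)) :=
    ∑ c, MonoidAlgebra.single c (Multiplicative.toAdd ((f g).left c))
  have hv : ∀ c, v.coeff c = Multiplicative.toAdd ((f g).left c) := by
    intro c
    change (∑ d, MonoidAlgebra.single d (Multiplicative.toAdd ((f g).left d)) :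
      MonoidAlgebra (ZMod p) (Multiplicative (ZMod p))).coeff c = _
    rw [MonoidAlgebra.coeff_sum, Finset.sum_apply', Finset.sum_eq_single c]
    · exact Finsupp.single_eq_same
    · intro d _ hdc
      exact Finsupp.single_eq_of_ne (Ne.symm hdc)
    · intro h1
      exact absurd (Finset.mem_univ _) h1
  have hgr : (f g).right = 1 := by
    rw [hfr]
    have h1 : (g : P ⧸ M) = 1 := (QuotientGroup.eq_one_iff g).2 hg
    rw [h1, map_one]
  have Wv : W v := by
    refine ⟨g, ?_⟩
    apply RegularWreathProduct.ext
    · funext c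
      change (f g).left c = Multiplicative.ofAdd (v.coeff c)
      rw [hv, ofAdd_toAdd]
    · exact hgr
  let s : ZMod p := ∑ c, Multiplicative.toAdd ((f g).left c)
  have hs : s ≠ 0 := by
    intro h0
    apply h
    haveI : Fintype (P ⧸ M) := Fintype.ofFinite _
    rw [TU_apply]
    have h1 : ∏ c : Multiplicative (ZMod p), (f g).left c = 1 := by
      have h2 : (∏ c : Multiplicative (ZMod p), (f g).left c) = Multiplicative.ofAdd s := by
        rw [ofAdd_sum]
        rfl
      rw [h2, h0]
      rfl
    rw [← h1]
    symm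
    apply Fintype.prod_equiv (e.symm.toEquiv.trans (MulAction.toPerm g⁻¹))
    intro c
    rfl
  have hvp : v ^ p = MonoidAlgebra.single 1 s := by
    haveI : CharP (MonoidAlgebra (ZMod p) (Multiplicative (ZMod p))) p :=
      charP_of_injective_algebraMap (R := ZMod p)
        (FaithfulSMul.algebraMap_injective (ZMod p) _) p
    change (∑ c, MonoidAlgebra.single c (Multiplicative.toAdd ((f g).left c))) ^ p = _
    rw [sum_pow_char]
    have h1 : ∀ c : Multiplicative (ZMod p),
        (MonoidAlgebra.single c (Multiplicative.toAdd ((f g).left c)) :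
          MonoidAlgebra (ZMod p) (Multiplicative (ZMod p))) ^ p =
        MonoidAlgebra.single 1 (Multiplicative.toAdd ((f g).left c)) := by
      intro c
      rw [MonoidAlgebra.single_pow, ZMod.pow_card]
      congr 1
      have : c ^ Nat.card (Multiplicative (ZMod p)) = 1 := pow_card_eq_one'
      rwa [hc2] at this
    rw [Finset.sum_congr rfl (fun c _ => h1 c)]
    apply MonoidAlgebra.ext
    rw [MonoidAlgebra.coeff_sum]
    exact (map_sum (Finsupp.singleAddHom (1 : Multiplicative (ZMod p)))
      (fun c => Multiplicative.toAdd ((f g).left c)) Finset.univ).symm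
  have W1 : W (MonoidAlgebra.single 1 s) := by
    rw [← hvp]
    have h1 : v ^ p = v ^ (p - 1) * v := by
      rw [← pow_succ, Nat.sub_add_cancel hp.out.pos]
    rw [h1]
    exact Wmul _ _ Wv
  have Wall : ∀ r, W r := by
    intro r
    have h1 : r = (r * MonoidAlgebra.single 1 s⁻¹) * MonoidAlgebra.single 1 s := by
      rw [mul_assoc, MonoidAlgebra.single_mul_single, one_mul, inv_mul_cancel₀ hs]
      exact (mul_one r).symm
    rw [h1]
    exact Wmul _ _ W1
  refine ⟨f, fun w => ?_⟩
  obtain ⟨x, hx⟩ := hright w.right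
  let r : MonoidAlgebra (ZMod p) (Multiplicative (ZMod p)) :=
    ∑ c, MonoidAlgebra.single c (Multiplicative.toAdd (w.left c * ((f x).left c)⁻¹))
  have hr : ∀ c, r.coeff c = Multiplicative.toAdd (w.left c * ((f x).left c)⁻¹) := by
    intro c
    change (∑ d, MonoidAlgebra.single d (Multiplicative.toAdd (w.left d * ((f x).left d)⁻¹)) :
      MonoidAlgebra (ZMod p) (Multiplicative (ZMod p))).coeff c = _
    rw [MonoidAlgebra.coeff_sum, Finset.sum_apply', Finset.sum_eq_single c]
    · exact Finsupp.single_eq_same
    · intro d _ hdc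
      exact Finsupp.single_eq_of_ne (Ne.symm hdc)
    · intro h1
      exact absurd (Finset.mem_univ _) h1
  obtain ⟨y, hy⟩ := Wall r
  refine ⟨y * x, ?_⟩
  rw [map_mul, hy]
  apply RegularWreathProduct.ext
  · funext c
    change Multiplicative.ofAdd (r.coeff c) * (f x).left (1⁻¹ * c) = w.left c
    rw [hr, ofAdd_toAdd, inv_one, one_mul, inv_mul_cancel_right]
  · change 1 * (f x).right = w.right
    rw [one_mul, hx]

end Pool.Agent.Helper14.LC
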