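import Pool.Agent.Helper14.LC.Yos
import Pool.Agent.Helper14.LC.Wr

/-!
# Extension of homomorphisms from the normalizer of a Sylow subgroup

`ext_prime`: if `P` has no quotient `C_p ≀ C_p` then every homomorphism `N_G(P) → C_p` extends to `G`.
`ext_pgroup`: if `p` does not divide `|G : N|` and all homomorphisms `N → C_p` extend to `G`, then all
homomorphisms from `N` to a finite `p`-group extend.
-/

namespace Pool.Agent.Helper14.LC

open scoped IsMulCommutative

variable {G : Type} [Group G]

theorem ext_prime {p : ℕ} [hp : Fact p.Prime] [Finite G] (P : Sylow p G)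
    (hw : ∀ f : P →* RegularWreathProduct (Multiplicative (ZMod p)) (Multiplicative (ZMod p)),
      ¬ Function.Surjective f)
    (μ : Subgroup.normalizer (P : Set G) →* Multiplicative (ZMod p)) :
    ∃ ν : G →* Multiplicative (ZMod p), ∀ n : Subgroup.normalizer (P : Set G), ν n = μ n := by
  classical
  let N := Subgroup.normalizer (P : Set G)
  haveI : Fintype (G ⧸ N) := Fintype.ofFinite _
  let Φ : (N →* Multiplicative (ZMod p)) →* (N →* Multiplicative (ZMod p)) :=
    { toFun := fun lam => (TU lam).comp N.subtype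
      map_one' := by
        ext n
        change TU (1 : N →* Multiplicative (ZMod p)) (n : G) = 1
        rw [TU_apply]
        exact Finset.prod_eq_one (fun c _ => rfl)
      map_mul' := by
        intro a b
        ext n
        change TU (a * b) (n : G) = TU a (n : G) * TU b (n : G)
        rw [TU_apply, TU_apply, TU_apply, ← Finset.prod_mul_distrib]
        exact Finset.prod_congr rfl (fun c _ => rfl) }
  have hinj : Function.Injective Φ := by
    rw [injective_iff_map_eq_one]
    intro lam hlam
    have hPN : (P : Subgroup G) ≤ N := Subgroup.le_normalizer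
    have h1 : ∀ x ∈ (P : Subgroup G), TU lam x = 1 := by
      intro x hx
      exact DFunLike.congr_fun hlam (⟨x, hPN hx⟩ : N)
    have h2 : ∀ x : N, (x : G) ∈ (P : Subgroup G) → lam x = 1 := by
      by_contra hcon
      push Not at hcon
      obtain ⟨M, hM, φ, g, hMi, hg, hT⟩ := yoshida P lam h1 hcon
      obtain ⟨f, hf⟩ := wreath_of hMi φ g hg hT
      exact hw f hf
    by_contra hne
    have h3 : ∃ n, lam n ≠ 1 := by
      by_contra hcon
      push Not at hcon
      apply hne
      ext n
      rw [hcon n]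
      rfl
    obtain ⟨n, hn⟩ := h3
    have hc2 : Nat.card (Multiplicative (ZMod p)) = p := by
      rw [Nat.card_congr Multiplicative.toAdd, Nat.card_zmod]
    have h4 : Nat.card lam.range = p := by
      have h5 : Nat.card lam.range ∣ p := by
        have := Subgroup.card_subgroup_dvd_card lam.range
        rwa [hc2] at this
      rcases (Nat.dvd_prime hp.out).1 h5 with h6 | h6
      · exfalso
        apply hn
        have h7 := Subgroup.card_eq_one.1 h6
        have h8 : lam n ∈ lam.range := ⟨n, rfl⟩
        rw [h7] at h8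
        exact Subgroup.mem_bot.1 h8
      · exact h6
    have h5 : lam.ker.index = p := by
      rw [Subgroup.index_ker, h4]
    let P' := P.subtype hPN
    have h6 : (P' : Subgroup N) ≤ lam.ker := by
      intro x hx
      rw [MonoidHom.mem_ker]
      apply h2
      exact hx
    have h7 := Subgroup.index_dvd_of_le h6
    rw [h5] at h7
    exact P'.not_dvd_index h7
  haveI : Finite (N →* Multiplicative (ZMod p)) := DFunLike.finite _
  obtain ⟨lam, hlam⟩ := Finite.surjective_of_injective hinj μ
  refine ⟨TU lam, fun n => ?_⟩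
  rw [← hlam]
  rfl

theorem ext_pgroup {p : ℕ} [hp : Fact p.Prime] [Finite G] (N : Subgroup G) (hN : ¬ p ∣ N.index)
    (hext : ∀ μ : N →* Multiplicative (ZMod p), ∃ ν : G →* Multiplicative (ZMod p),
      ∀ n : N, ν n = μ n) (k : ℕ) :
    ∀ (E : Type) [Group E] [Finite E], Nat.card E = p ^ k → ∀ e : N →* E,
      ∃ f : G →* E, ∀ n : N, f n = e n := by
  classical
  haveI : Fintype (G ⧸ N) := Fintype.ofFinite _
  induction k with
  | zero =>
    intro E _ _ hE e
    rw [pow_zero] at hE
    haveI : Subsingleton E := (Nat.card_eq_one_iff_unique.1 hE).1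
    exact ⟨1, fun n => Subsingleton.elim _ _⟩
  | succ k ih =>
    intro E _ _ hE e
    have hpE : IsPGroup p E := IsPGroup.iff_card.2 ⟨k + 1, hE⟩
    haveI hnt : Nontrivial E := by
      rw [← Finite.one_lt_card_iff_nontrivial, hE]
      exact Nat.one_lt_pow (Nat.succ_ne_zero k) hp.out.one_lt
    haveI hcnt : Nontrivial (Subgroup.center E) := hpE.center_nontrivial
    have hpc : IsPGroup p (Subgroup.center E) := hpE.to_subgroup _
    obtain ⟨z0, hz0⟩ : ∃ z : Subgroup.center E, orderOf z = p := by
      apply exists_prime_orderOf_dvd_card'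
      obtain ⟨j, hj⟩ := IsPGroup.iff_card.1 hpc
      have h1 : 1 < Nat.card (Subgroup.center E) := Finite.one_lt_card_iff_nontrivial.2 hcnt
      rw [hj] at h1 ⊢
      have hj0 : j ≠ 0 := by
        rintro rfl
        rw [pow_zero] at h1
        exact lt_irrefl 1 h1
      exact dvd_pow_self p hj0
    let z : E := z0
    have hz : orderOf z = p := by
      rw [← hz0]
      exact Subgroup.orderOf_coe z0
    have hzc : ∀ x, x * z = z * x := fun x => Subgroup.mem_center_iff.1 z0.2 x
    let Z : Subgroup E := Subgroup.zpowers z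
    have hZc : Z ≤ Subgroup.center E := by
      rw [Subgroup.zpowers_le]
      exact z0.2
    haveI hZn : Z.Normal := ⟨fun x hx g => by
      have h1 := Subgroup.mem_center_iff.1 (hZc hx) g
      rw [h1, mul_inv_cancel_right]
      exact hx⟩
    have hZcard : Nat.card Z = p := by
      rw [Nat.card_zpowers, hz]
    have hZp : ∀ x ∈ Z, x ^ p = 1 := by
      intro x hx
      have h1 : (⟨x, hx⟩ : Z) ^ Nat.card Z = 1 := pow_card_eq_one'
      rw [hZcard] at h1
      exact congrArg Subtype.val h1
    have hEZ : Nat.card (E ⧸ Z) = p ^ k := by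
      have h1 := Subgroup.card_eq_card_quotient_mul_card_subgroup Z
      rw [hE, hZcard, pow_succ] at h1
      exact (Nat.eq_of_mul_eq_mul_right hp.out.pos h1).symm
    obtain ⟨h, hh⟩ := ih (E ⧸ Z) hEZ ((QuotientGroup.mk' Z).comp e)
    have hh' : ∀ n : N, h n = (e n : E ⧸ Z) := hh
    let ε : G ⧸ N → E := fun c => (h c.out).out
    have hε : ∀ c, (ε c : E ⧸ Z) = h c.out := fun c => QuotientGroup.out_eq' _
    let β : G → G ⧸ N → E := fun g c => ε (g • c) * e (el N g c) * (ε c)⁻¹
    have hβ : ∀ g c, (β g c : E ⧸ Z) = h g := by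
      intro g c
      change (ε (g • c) : E ⧸ Z) * (e (el N g c) : E ⧸ Z) * (ε c : E ⧸ Z)⁻¹ = h g
      rw [hε, hε, ← hh', ← map_mul, ← map_inv, ← map_mul]
      congr 1
      change (g • c).out * (((g • c : G ⧸ N).out)⁻¹ * g * c.out) * (c.out)⁻¹ = g
      group
    have hβmul : ∀ g g' c, β (g * g') c = β g (g' • c) * β g' c := by
      intro g g' c
      change ε ((g * g') • c) * e (el N (g * g') c) * (ε c)⁻¹ =
        (ε (g • g' • c) * e (el N g (g' • c)) * (ε (g' • c))⁻¹) *
          (ε (g' • c) * e (el N g' c) * (ε c)⁻¹)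
      rw [el_mul, map_mul, mul_smul]
      group
    let s : G → E := fun g => (h g).out
    have hs : ∀ g, (s g : E ⧸ Z) = h g := fun g => QuotientGroup.out_eq' _
    have hd : ∀ g c, (s g)⁻¹ * β g c ∈ Z := by
      intro g c
      rw [← QuotientGroup.eq_one_iff]
      change (s g : E ⧸ Z)⁻¹ * (β g c : E ⧸ Z) = 1
      rw [hs, hβ, inv_mul_cancel]
    let d : G → G ⧸ N → Subgroup.center E := fun g c => ⟨(s g)⁻¹ * β g c, hZc (hd g c)⟩
    have hdval : ∀ g c, (d g c : E) = (s g)⁻¹ * β g c := fun g c => rfl
    have hζ : ∀ g g', (s g * s g')⁻¹ * s (g * g') ∈ Z := by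
      intro g g'
      rw [← QuotientGroup.eq_one_iff]
      change ((s g : E ⧸ Z) * (s g' : E ⧸ Z))⁻¹ * (s (g * g') : E ⧸ Z) = 1
      rw [hs, hs, hs, map_mul, inv_mul_cancel]
    let ζ : G → G → Subgroup.center E := fun g g' => ⟨(s g * s g')⁻¹ * s (g * g'), hZc (hζ g g')⟩
    have hζval : ∀ g g', s (g * g') = s g * s g' * (ζ g g' : E) := by
      intro g g'
      change s (g * g') = s g * s g' * ((s g * s g')⁻¹ * s (g * g'))
      rw [mul_inv_cancel_left]
    let D : G → Subgroup.center E := fun g => ∏ c, d g c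
    have hdmul : ∀ g g' c, d (g * g') c = (ζ g g')⁻¹ * (d g (g' • c) * d g' c) := by
      intro g g' c
      apply Subtype.ext
      change (s (g * g'))⁻¹ * β (g * g') c =
        (ζ g g' : E)⁻¹ * ((d g (g' • c) : E) * ((s g')⁻¹ * β g' c))
      have h1 : (d g (g' • c) : E) * (s g')⁻¹ = (s g')⁻¹ * (d g (g' • c) : E) :=
        (Subgroup.mem_center_iff.1 (d g (g' • c)).2 _).symm
      rw [← mul_assoc (d g (g' • c) : E), h1, hdval, hζval, hβmul]
      group
    have hDmul : ∀ g g', D (g * g') = (ζ g g')⁻¹ ^ (Fintype.card (G ⧸ N)) * (D g * D g') := by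
      intro g g'
      change ∏ c, d (g * g') c = _
      rw [Finset.prod_congr rfl (fun c _ => hdmul g g' c), Finset.prod_mul_distrib,
        Finset.prod_mul_distrib, Finset.prod_const, Finset.card_univ]
      congr 2
      exact Fintype.prod_equiv (MulAction.toPerm g') _ _ (fun c => rfl)
    obtain ⟨m', hm'⟩ : ∃ m', Fintype.card (G ⧸ N) * m' % p = 1 := by
      have h1 : Nat.Coprime (Fintype.card (G ⧸ N)) p := by
        rw [Nat.coprime_comm, hp.out.coprime_iff_not_dvd]
        have h2 : Fintype.card (G ⧸ N) = N.index := by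
          rw [Subgroup.index, Nat.card_eq_fintype_card]
        rw [h2]
        exact hN
      obtain ⟨m, hm⟩ := Nat.exists_mul_mod_eq_one_of_coprime h1 hp.out.one_lt
      exact ⟨m, hm.2⟩
    have hζpow : ∀ g g', ((ζ g g')⁻¹ ^ (Fintype.card (G ⧸ N))) ^ m' = (ζ g g')⁻¹ := by
      intro g g'
      have h1 : (ζ g g')⁻¹ ^ p = 1 := by
        apply Subtype.ext
        change ((ζ g g' : E)⁻¹) ^ p = 1
        rw [inv_pow, hZp _ (hζ g g'), inv_one]
      rw [← pow_mul, ← Nat.div_add_mod (Fintype.card (G ⧸ N) * m') p, hm', pow_add, pow_mul, h1,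
        one_pow, one_mul, pow_one]
    let f : G →* E := MonoidHom.mk' (fun g => s g * ((D g ^ m' : Subgroup.center E) : E)) (by
      intro g g'
      change s (g * g') * ((D (g * g') ^ m' : Subgroup.center E) : E) =
        s g * ((D g ^ m' : Subgroup.center E) : E) * (s g' * ((D g' ^ m' : Subgroup.center E) : E))
      rw [hDmul, mul_pow, mul_pow, hζpow, hζval]
      have h1 : s g' * ((D g ^ m' : Subgroup.center E) : E) =
          ((D g ^ m' : Subgroup.center E) : E) * s g' :=
        Subgroup.mem_center_iff.1 (D g ^ m').2 _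
      change s g * s g' * (ζ g g' : E) * ((ζ g g' : E)⁻¹ * (((D g ^ m' : Subgroup.center E) : E) *
        ((D g' ^ m' : Subgroup.center E) : E))) = _
      rw [mul_assoc (s g * s g'), mul_inv_cancel_left, mul_assoc (s g) (s g'), ← mul_assoc (s g'), h1]
      group)
    have hf : ∀ g, f g = s g * ((D g ^ m' : Subgroup.center E) : E) := fun g => rfl
    have hDZ : ∀ g, ((D g : Subgroup.center E) : E) ∈ Z := by
      intro g
      have h1 : D g ∈ Z.subgroupOf (Subgroup.center E) := by
        apply Subgroup.prod_mem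
        intro c _
        exact hd g c
      exact h1
    have hfq : ∀ g, (f g : E ⧸ Z) = h g := by
      intro g
      rw [hf]
      change (s g : E ⧸ Z) * (((D g ^ m' : Subgroup.center E) : E) : E ⧸ Z) = h g
      rw [hs]
      have h1 : (((D g ^ m' : Subgroup.center E) : E) : E ⧸ Z) = 1 := by
        rw [QuotientGroup.eq_one_iff]
        exact Z.pow_mem (hDZ g) m'
      rw [h1, mul_one]
    have hε0 : ∀ n : N, (f n)⁻¹ * e n ∈ Z := by
      intro n
      rw [← QuotientGroup.eq_one_iff]
      change (f n : E ⧸ Z)⁻¹ * (e n : E ⧸ Z) = 1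
      rw [hfq, hh', inv_mul_cancel]
    have hcomm : ∀ x ∈ Z, ∀ y, y * x = x * y := fun x hx y => Subgroup.mem_center_iff.1 (hZc hx) y
    let ε0 : N →* Z := MonoidHom.mk' (fun n => ⟨(f n)⁻¹ * e n, hε0 n⟩) (by
      intro a b
      apply Subtype.ext
      change (f ((a * b : N) : G))⁻¹ * e (a * b) = (f a)⁻¹ * e a * ((f b)⁻¹ * e b)
      have h1 := hcomm _ (hε0 a) (f b)⁻¹
      have h2 : f ((a * b : N) : G) = f (a : G) * f (b : G) := by
        rw [Subgroup.coe_mul, map_mul]
      rw [h2, map_mul, mul_inv_rev, ← mul_assoc ((f a)⁻¹ * e a), ← h1]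
      group)
    have hc2 : Nat.card (Multiplicative (ZMod p)) = p := by
      rw [Nat.card_congr Multiplicative.toAdd, Nat.card_zmod]
    let eZ : Z ≃* Multiplicative (ZMod p) := mulEquivOfPrimeCardEq hZcard hc2
    obtain ⟨ν, hν⟩ := hext (eZ.toMonoidHom.comp ε0)
    let F : G →* E := MonoidHom.mk' (fun g => f g * ((eZ.symm (ν g) : Z) : E)) (by
      intro g g'
      change f (g * g') * ((eZ.symm (ν (g * g')) : Z) : E) =
        f g * ((eZ.symm (ν g) : Z) : E) * (f g' * ((eZ.symm (ν g') : Z) : E))
      rw [map_mul, map_mul, map_mul, Subgroup.coe_mul]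
      have h1 := hcomm _ (eZ.symm (ν g)).2 (f g')
      rw [mul_assoc (f g), ← mul_assoc (f g'), h1]
      group)
    refine ⟨F, fun n => ?_⟩
    change f n * ((eZ.symm (ν n) : Z) : E) = e n
    rw [hν n]
    change f n * ((eZ.symm (eZ (ε0 n)) : Z) : E) = e n
    rw [eZ.symm_apply_apply]
    change f n * ((f n)⁻¹ * e n) = e n
    rw [mul_inv_cancel_left]

end Pool.Agent.Helper14.LC
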