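import Pool.Agent.Helper14.LC.Jordan

/-!
# Simple sections of permutation groups of degree less than `3 p` with noncyclic Sylow `p`-subgroups
-/

namespace Pool.Agent.Helper14.LC

open Equiv Equiv.Perm MulAction
open scoped Pointwise commutatorElement

/-- an alternating group of degree at least `2 p` -/
def IsAlt (p : ℕ) (S : Type) [Group S] : Prop :=
  ∃ m, 2 * p ≤ m ∧ Nonempty (alternatingGroup (Fin m) ≃* S)

/-- the statement for degree at most `n` -/
def Claim (p n : ℕ) : Prop :=
  ∀ (α : Type) [Fintype α] [DecidableEq α], Fintype.card α ≤ n → ∀ (H : Type) [Group H] [Finite H]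
    (ρ : H →* Perm α) (S : Type) [Group S] (f : H →* S), IsSimpleGroup S →
    (¬ ∀ a b : S, a * b = b * a) → p ^ 2 ∣ Nat.card S → Function.Surjective f → ρ.ker ≤ f.ker →
    IsAlt p S

theorem map_bot_or_top {H S : Type} [Group H] [Group S] (hS : IsSimpleGroup S) (f : H →* S)
    (hf : Function.Surjective f) (K : Subgroup H) [K.Normal] :
    K ≤ f.ker ∨ Function.Surjective (f.comp K.subtype) := by
  rcases hS.eq_bot_or_eq_top_of_normal _ (Subgroup.Normal.map (H := K) inferInstance f hf) with h | h
  · left
    intro x hx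
    have h1 := Subgroup.mem_map_of_mem f hx
    rw [h] at h1
    exact h1
  · right
    intro s
    have h1 : s ∈ K.map f := by rw [h]; exact Subgroup.mem_top s
    obtain ⟨x, hx, rfl⟩ := h1
    exact ⟨⟨x, hx⟩, rfl⟩

/-- a proper invariant subset -/
theorem claim_inv {p n : ℕ} (ih : Claim p n) {α : Type} [Fintype α] [DecidableEq α]
    (hα : Fintype.card α ≤ n + 1) {H : Type} [Group H] [Finite H] (ρ : H →* Perm α) {S : Type}
    [Group S] (f : H →* S) (hS : IsSimpleGroup S) (hn : ¬ ∀ a b : S, a * b = b * a)
    (hp : p ^ 2 ∣ Nat.card S) (hf : Function.Surjective f) (hk : ρ.ker ≤ f.ker) (B : Finset α)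
    (hB : B.Nonempty) (hB' : B ≠ Finset.univ) (hinv : ∀ h, ∀ z ∈ B, ρ h z ∈ B) : IsAlt p S := by
  have hiff : ∀ h z, ρ h z ∈ B ↔ z ∈ B := by
    intro h z
    refine ⟨fun h1 => ?_, hinv h z⟩
    have h2 := hinv h⁻¹ _ h1
    rw [map_inv] at h2
    have h3 : (ρ h)⁻¹ (ρ h z) = z := (ρ h).symm_apply_apply z
    rwa [h3] at h2
  have hiff' : ∀ h z, ρ h z ∉ B ↔ z ∉ B := fun h z => not_congr (hiff h z)
  let ρB : H →* Perm {z // z ∈ B} :=
    { toFun := fun h => (ρ h).subtypePerm (hiff h)
      map_one' := by ext z; simp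
      map_mul' := by intro a b; ext z; simp }
  let ρC : H →* Perm {z // z ∉ B} :=
    { toFun := fun h => (ρ h).subtypePerm (hiff' h)
      map_one' := by ext z; simp
      map_mul' := by intro a b; ext z; simp }
  have hcB : Fintype.card {z // z ∈ B} ≤ n := by
    have h1 : Fintype.card {z // z ∈ B} < Fintype.card α := by
      obtain ⟨z, hz⟩ : ∃ z, z ∉ B := by
        by_contra hcon
        push Not at hcon
        exact hB' (Finset.eq_univ_iff_forall.2 hcon)
      exact Fintype.card_subtype_lt hz
    omega
  have hcC : Fintype.card {z // z ∉ B} ≤ n := by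
    have h1 : Fintype.card {z // z ∉ B} < Fintype.card α := by
      obtain ⟨z, hz⟩ := hB
      exact Fintype.card_subtype_lt (not_not.2 hz)
    omega
  rcases map_bot_or_top hS f hf ρB.ker with h1 | h1
  · exact ih _ hcB H ρB S f hS hn hp hf h1
  · refine ih _ hcC ρB.ker (ρC.comp ρB.ker.subtype) S (f.comp ρB.ker.subtype) hS hn hp h1 ?_
    intro x hx
    rw [MonoidHom.mem_ker] at hx ⊢
    apply hk
    rw [MonoidHom.mem_ker]
    ext z
    by_cases hz : z ∈ B
    · have h2 : ρB (x : H) = 1 := x.2
      have h3 := congrArg (fun g : Perm {z // z ∈ B} => ((g ⟨z, hz⟩ : {z // z ∈ B}) : α)) h2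
      exact h3
    · have h2 : ρC (x : H) = 1 := hx
      have h3 := congrArg (fun g : Perm {z // z ∉ B} => ((g ⟨z, hz⟩ : {z // z ∉ B}) : α)) h2
      exact h3

/-- existence of a `p`-cycle in a subgroup of order divisible by `p ^ 2` -/
theorem exists_cycle {p : ℕ} [hp : Fact p.Prime] (h5 : 5 ≤ p) {α : Type} [Fintype α]
    [DecidableEq α] (hα : Fintype.card α < 3 * p) (G : Subgroup (Perm α))
    (hG : p ^ 2 ∣ Nat.card G) : 2 * p ≤ Fintype.card α ∧
      ∃ g ∈ G, g.IsCycle ∧ g.support.card = p := by
  have hdvd : p ^ 2 ∣ (Fintype.card α).factorial := by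
    have h1 := Subgroup.card_subgroup_dvd_card G
    rw [Nat.card_perm, Nat.card_eq_fintype_card (α := α)] at h1
    exact hG.trans h1
  have h2p : 2 * p ≤ Fintype.card α := by
    by_contra hlt
    rw [not_le] at hlt
    have h1 : p ^ 2 ∣ (2 * p - 1).factorial := hdvd.trans (Nat.factorial_dvd_factorial (by omega))
    have h2 := (hp.out.pow_dvd_factorial_iff (b := 2) (by
      have h3 : Nat.log p (2 * p - 1) < 2 := by
        apply Nat.log_lt_of_lt_pow (by omega)
        have h6 : 2 * p ≤ p ^ 2 := by nlinarith
        omega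
      exact h3)).1 h1
    have h4 : ∑ i ∈ Finset.Ico 1 2, (2 * p - 1) / p ^ i = 1 := by
      rw [show Finset.Ico 1 2 = {1} from rfl, Finset.sum_singleton, pow_one]
      rw [Nat.div_eq_iff (by omega)]
      omega
    rw [h4] at h2
    omega
  refine ⟨h2p, ?_⟩
  have hv : ((Fintype.card α).factorial).factorization p = 2 := by
    have h1 : ¬ p ^ 3 ∣ (Fintype.card α).factorial := by
      intro h1
      have h2 := (hp.out.pow_dvd_factorial_iff (b := 2) (by
        apply Nat.log_lt_of_lt_pow (by omega)
        nlinarith)).1 h1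
      have h4 : ∑ i ∈ Finset.Ico 1 2, (Fintype.card α) / p ^ i ≤ 2 := by
        rw [show Finset.Ico 1 2 = {1} from rfl, Finset.sum_singleton, pow_one]
        apply Nat.lt_succ_iff.1
        rw [Nat.div_lt_iff_lt_mul (by omega)]
        omega
      omega
    have h0 : (Fintype.card α).factorial ≠ 0 := Nat.factorial_ne_zero _
    have h2 := (hp.out.pow_dvd_iff_le_factorization h0).1 hdvd
    have h3 := mt (hp.out.pow_dvd_iff_le_factorization h0).2 h1
    omega
  obtain ⟨P0, hP0⟩ := Sylow.exists_subgroup_card_pow_prime p hG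
  let P1 : Subgroup (Perm α) := P0.map G.subtype
  have hP1 : Nat.card P1 = p ^ (Nat.card (Perm α)).factorization p := by
    rw [Nat.card_perm, Nat.card_eq_fintype_card (α := α), hv, ← hP0]
    exact (Nat.card_congr (P0.equivMapOfInjective _ G.subtype_injective).toEquiv).symm
  let S1 : Sylow p (Perm α) := Sylow.ofCard P1 hP1
  -- a `p`-cycle
  obtain ⟨t, -, ht⟩ := Finset.exists_subset_card_eq (s := (Finset.univ : Finset α)) (n := p)
    (by rw [Finset.card_univ]; omega)
  have hnd : t.toList.Nodup := t.nodup_toList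
  have hlen : t.toList.length = p := by rw [Finset.length_toList, ht]
  let c : Perm α := t.toList.formPerm
  have hcc : c.IsCycle := List.isCycle_formPerm hnd (by rw [hlen]; omega)
  have hcs : c.support.card = p := by
    have h1 : c.support = t.toList.toFinset := List.support_formPerm_of_nodup _ hnd (by
      intro x hx
      have := congrArg List.length hx
      rw [hlen, List.length_singleton] at this
      omega)
    rw [h1, Finset.toList_toFinset, ht]
  have hco : orderOf c = p := by rw [hcc.orderOf, hcs]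
  have hcp : IsPGroup p (Subgroup.zpowers c) := by
    apply IsPGroup.of_card (n := 1)
    rw [Nat.card_zpowers, hco, pow_one]
  obtain ⟨Q, hQ⟩ := hcp.exists_le_sylow
  obtain ⟨x, hx⟩ := MulAction.exists_smul_eq (Perm α) Q S1
  have h1 : x * c * x⁻¹ ∈ (S1 : Subgroup (Perm α)) := by
    rw [← hx]
    exact Subgroup.smul_mem_pointwise_smul c (MulAut.conj x) (Q : Subgroup (Perm α))
      (hQ (Subgroup.mem_zpowers c))
  have h2 : x * c * x⁻¹ ∈ G := by
    obtain ⟨y, _, hy⟩ := (show x * c * x⁻¹ ∈ P0.map G.subtype from h1)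
    rw [← hy]
    exact y.2
  exact ⟨x * c * x⁻¹, h2, hcc.conj, by rw [card_support_conj, hcs]⟩

/-- the primitive case -/
theorem claim_prim {p : ℕ} [hp : Fact p.Prime] (h5 : 5 ≤ p) {α : Type} [Fintype α] [DecidableEq α]
    (hα : Fintype.card α < 3 * p) (G : Subgroup (Perm α)) (hG : IsPreprimitive G α) {S : Type}
    [Group S] (f : G →* S) (hS : IsSimpleGroup S) (hn : ¬ ∀ a b : S, a * b = b * a)
    (hpS : p ^ 2 ∣ Nat.card S) (hf : Function.Surjective f) : IsAlt p S := by
  have hcard : p ^ 2 ∣ Nat.card G := hpS.trans (Subgroup.card_dvd_of_surjective f hf)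
  obtain ⟨h2p, g, hg, hgc, hgs⟩ := exists_cycle h5 hα G hcard
  have hA : alternatingGroup α ≤ G := jordan_cycle h5 hG (by omega) hgc hgs hg
  let A : Subgroup G := (alternatingGroup α).subgroupOf G
  haveI : A.Normal := inferInstance
  rcases map_bot_or_top hS f hf A with h1 | h1
  · exfalso
    apply hn
    intro a b
    obtain ⟨x, rfl⟩ := hf a
    obtain ⟨y, rfl⟩ := hf b
    have h2 : ⁅x, y⁆ ∈ A := by
      rw [Subgroup.mem_subgroupOf, mem_alternatingGroup]
      have h3 : ((⁅x, y⁆ : G) : Perm α) = (x : Perm α) * (y : Perm α) * (x : Perm α)⁻¹ *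
          (y : Perm α)⁻¹ := rfl
      rw [h3, map_mul, map_mul, map_mul, map_inv, map_inv]
      rw [mul_comm (sign (x : Perm α)), mul_inv_cancel_right, mul_inv_cancel]
    have h3 := h1 h2
    rw [MonoidHom.mem_ker, map_commutatorElement, commutatorElement_eq_one_iff_mul_comm] at h3
    exact h3
  · haveI hs : IsSimpleGroup (alternatingGroup α) :=
      alternatingGroup.isSimpleGroup (by rw [Nat.card_eq_fintype_card]; omega)
    let e1 : A ≃* alternatingGroup α := Subgroup.subgroupOfEquivOfLe hA
    let f1 : alternatingGroup α →* S := (f.comp A.subtype).comp e1.symm.toMonoidHom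
    have hf1 : Function.Surjective f1 := h1.comp e1.symm.surjective
    have hinj : Function.Injective f1 := by
      rw [← MonoidHom.ker_eq_bot_iff]
      rcases hs.eq_bot_or_eq_top_of_normal f1.ker inferInstance with h2 | h2
      · exact h2
      · exfalso
        apply hn
        intro a b
        obtain ⟨x, rfl⟩ := hf1 a
        obtain ⟨y, rfl⟩ := hf1 b
        have hx : f1 x = 1 := by rw [← MonoidHom.mem_ker, h2]; exact Subgroup.mem_top x
        have hy : f1 y = 1 := by rw [← MonoidHom.mem_ker, h2]; exact Subgroup.mem_top y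
        rw [hx, hy]
    let e2 : alternatingGroup α ≃* S := MulEquiv.ofBijective f1 ⟨hinj, hf1⟩
    refine ⟨Fintype.card α, h2p, ⟨?_⟩⟩
    exact (Equiv.altCongrHom (Fintype.equivFin α).symm).trans e2

theorem claim_all {p : ℕ} [hp : Fact p.Prime] (h5 : 5 ≤ p) (n : ℕ) (hn : n < 3 * p) : Claim p n := by
  classical
  induction n with
  | zero =>
    intro α _ _ hα H _ _ ρ S _ f hS hnc hpS hf hk
    exfalso
    apply hnc
    haveI : IsEmpty α := Fintype.card_eq_zero_iff.1 (Nat.le_zero.1 hα)
    intro a b
    obtain ⟨x, rfl⟩ := hf a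
    have hx : x ∈ ρ.ker := by
      rw [MonoidHom.mem_ker]
      exact Subsingleton.elim _ _
    rw [MonoidHom.mem_ker.1 (hk hx), one_mul, mul_one]
  | succ n ih =>
    have ih := ih (by omega)
    intro α _ _ hα H _ _ ρ S _ f hS hnc hpS hf hk
    rcases isEmpty_or_nonempty α with hemp | hne
    · exact ih α (by rw [Fintype.card_eq_zero]; exact Nat.zero_le _) H ρ S f hS hnc hpS hf hk
    by_cases htr : IsPretransitive ρ.range α
    · by_cases hprim : IsPreprimitive ρ.range α
      · -- primitive
        let fb : ρ.range →* S := ρ.rangeRestrict.liftOfSurjective ρ.rangeRestrict_surjective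
          ⟨f, by rw [MonoidHom.ker_rangeRestrict]; exact hk⟩
        have hfb : Function.Surjective fb := by
          intro s
          obtain ⟨x, rfl⟩ := hf s
          exact ⟨ρ.rangeRestrict x, MonoidHom.liftOfRightInverse_comp_apply _ _ _ ⟨f, by
            rw [MonoidHom.ker_rangeRestrict]; exact hk⟩ x⟩
        exact claim_prim h5 (by omega) ρ.range hprim fb hS hnc hpS hfb
      · -- a nontrivial block
        obtain ⟨B, hB, hBnt⟩ : ∃ B : Set α, IsBlock ρ.range B ∧ ¬ IsTrivialBlock B := by
          by_contra hcon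
          push Not at hcon
          exact hprim { toIsPretransitive := htr, isTrivialBlock_of_isBlock := fun {B} hB => hcon B hB }
        have hBs : ¬ B.Subsingleton := fun h => hBnt (Or.inl h)
        have hBu : B ≠ Set.univ := fun h => hBnt (Or.inr h)
        have hBn : B.Nonempty := by
          rw [Set.nonempty_iff_ne_empty]
          rintro rfl
          exact hBs Set.subsingleton_empty
        have hcount := hB.ncard_block_mul_ncard_orbit_eq hBn
        have hB2 : 2 ≤ B.ncard := by
          by_contra hlt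
          exact hBs (Set.ncard_le_one_iff_subsingleton.1 (by omega))
        haveI : Fintype (orbit ρ.range B) := Fintype.ofFinite _
        have hβ : Fintype.card (orbit ρ.range B) ≤ n := by
          rw [Nat.card_eq_fintype_card] at hcount
          have h1 : (orbit ρ.range B).ncard = Fintype.card (orbit ρ.range B) := by
            rw [Set.ncard, Set.encard, ENat.card_eq_coe_fintype_card]
            rfl
          rw [h1] at hcount
          have h2 : 0 < Fintype.card (orbit ρ.range B) :=
            Fintype.card_pos_iff.2 ⟨⟨B, mem_orbit_self B⟩⟩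
          nlinarith
        let ρβ : H →* Perm (orbit ρ.range B) :=
          (MulAction.toPermHom ρ.range (orbit ρ.range B)).comp ρ.rangeRestrict
        rcases map_bot_or_top hS f hf ρβ.ker with h1 | h1
        · exact ih _ hβ H ρβ S f hS hnc hpS hf h1
        · refine claim_inv ih hα (ρ.comp ρβ.ker.subtype) (f.comp ρβ.ker.subtype) hS hnc hpS h1 ?_
            B.toFinset ?_ ?_ ?_
          · intro x hx
            exact hk hx
          · rw [Set.toFinset_nonempty]
            exact hBn
          · intro h2
            exact hBu (Set.toFinset_eq_univ.1 h2)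
          · intro h z hz
            rw [Set.mem_toFinset] at hz ⊢
            have h2 : ρβ (h : H) = 1 := h.2
            have h3 := congrArg (fun g : Perm (orbit ρ.range B) =>
              ((g ⟨B, mem_orbit_self B⟩ : orbit ρ.range B) : Set α)) h2
            change ρ.rangeRestrict (h : H) • B = B at h3
            have h4 : ρ.rangeRestrict (h : H) • z ∈ ρ.rangeRestrict (h : H) • B :=
              Set.smul_mem_smul_set hz
            rw [h3] at h4
            exact h4
    · -- intransitive
      obtain ⟨z0, w0, hzw⟩ : ∃ z0 w0 : α, ∀ h, ρ h z0 ≠ w0 := by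
        by_contra hcon
        push Not at hcon
        apply htr
        refine ⟨fun z w => ?_⟩
        obtain ⟨h, hh⟩ := hcon z w
        exact ⟨⟨ρ h, h, rfl⟩, hh⟩
      let B : Finset α := Finset.univ.filter (fun z => ∃ h, ρ h z0 = z)
      have hB : ∀ z, z ∈ B ↔ ∃ h, ρ h z0 = z := by
        intro z
        rw [Finset.mem_filter]
        exact ⟨fun h => h.2, fun h => ⟨Finset.mem_univ _, h⟩⟩
      refine claim_inv ih hα ρ f hS hnc hpS hf hk B ⟨z0, (hB z0).2 ⟨1, by rw [map_one]; rfl⟩⟩ ?_ ?_
      · intro h
        have h1 : w0 ∈ B := by rw [h]; exact Finset.mem_univ _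
        obtain ⟨h2, h3⟩ := (hB w0).1 h1
        exact hzw h2 h3
      · intro h z hz
        obtain ⟨h1, rfl⟩ := (hB z).1 hz
        rw [hB]
        exact ⟨h * h1, by rw [map_mul]; rfl⟩

end Pool.Agent.Helper14.LC
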