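import Pool.Agent.Helper14.LC.MtcN
import Pool.Agent.Helper14.LC.Sym
import Pool.Agent.Helper81.AN.TrS

/-!
# The class `InCC` for the allowed factors
-/

namespace Pool.Agent.Helper14.LC

open Pool.Agent.Helper24.S7 (InCC Involved PGood)
open Equiv

theorem inCC_of_ext {p : ℕ} [hp : Fact p.Prime] (G : Type) [Group G] [Finite G] (K : Subgroup G)
    [K.Normal] (hK : ∀ Q : Sylow p K, IsCyclic Q) (hGK : IsPGroup p (G ⧸ K)) : InCC p G := by
  intro S _ hS hn hinv h2
  rcases involved_ext hS K hinv with h | h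
  · intro T _ _ hperf he hz
    exact Pool.Agent.Helper42.CY.pgood_of_cyclic S (Pool.Agent.Helper42.CY.cyclic_section hK h) h2
      T hperf he hz
  · exact absurd h (not_involved_pgroup hGK hS hn)

theorem inCC_local {p : ℕ} [hp : Fact p.Prime] (G : Type) [Group G] [Finite G] (P : Sylow p G)
    (hw : ∀ f : P →* RegularWreathProduct (Multiplicative (ZMod p)) (Multiplicative (ZMod p)),
      ¬ Function.Surjective f)
    (L : Subgroup (Subgroup.normalizer (P : Set G))) [L.Normal]
    (hL : IsPGroup p (Subgroup.normalizer (P : Set G) ⧸ L))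
    (hc : IsCyclic ((P : Subgroup G).subgroupOf (Subgroup.normalizer (P : Set G)) ⊓ L :
      Subgroup (Subgroup.normalizer (P : Set G)))) : InCC p G := by
  obtain ⟨K, hK, hGK, hcyc⟩ := cyclic_kernel G P hw L hL hc
  haveI := hK
  exact inCC_of_ext G K hcyc hGK

theorem inCC_metacyclic {p : ℕ} [hp : Fact p.Prime] (hodd : p ≠ 2) (G : Type) [Group G] [Finite G]
    (P : Sylow p G) (hM : Metacyclic P) (hna : ¬ ∀ a b : P, a * b = b * a) : InCC p G :=
  inCC_local G P (hM.no_wreath hodd P.isPGroup') (Op p _) (Op_quot p _)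
    (cyc_Op' hodd P hM hna)

theorem inCC_perm {p : ℕ} [hp : Fact p.Prime] (h5 : 5 ≤ p) (G : Type) [Group G] [Finite G] {n : ℕ}
    (hn : n < 3 * p) (ρ : G →* Perm (Fin n)) (hρ : Function.Injective ρ) : InCC p G := by
  intro S _ hS hnc hinv h2
  obtain ⟨H, L, hL, ⟨e⟩⟩ := hinv
  let f : H →* S := e.toMonoidHom.comp (QuotientGroup.mk' L)
  have hf : Function.Surjective f := e.surjective.comp (QuotientGroup.mk'_surjective L)
  have hk : (ρ.comp H.subtype).ker ≤ f.ker := by
    intro x hx
    have h3 : x = 1 := by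
      apply Subtype.ext
      apply hρ
      rw [MonoidHom.mem_ker] at hx
      exact hx.trans (map_one ρ).symm
    rw [h3]
    exact one_mem _
  obtain ⟨m, hm, ⟨e'⟩⟩ := claim_all h5 n hn (Fin n) (by rw [Fintype.card_fin]) H (ρ.comp H.subtype)
    S f hS hnc h2 hf hk
  intro K _ _ hperf he hz
  obtain ⟨e1⟩ := he
  exact Pool.Agent.Helper81.AN.pgood_all p h5 m hm K hperf ⟨e1.trans e'.symm⟩ hz

end Pool.Agent.Helper14.LC
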