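import Mathlib

/-!
# Jordan's theorem on primitive groups containing a cycle of prime length
-/

namespace Pool.Agent.Helper14.LC

open Equiv Equiv.Perm MulAction

variable {α : Type} [Fintype α] [DecidableEq α]

/-- elements of the group inducing a given permutation of the fixed points of `g` and normalizing `⟨g⟩` -/
theorem exists_norm {p : ℕ} [hp : Fact p.Prime] {G : Subgroup (Perm α)} {k : ℕ}
    (hG : IsMultiplyPretransitive G α k) {g : Perm α} (hgp : g.support.card = p) (ho : orderOf g = p)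
    (hg : g ∈ G) (hk : k + p = Fintype.card α) (τ : Perm α) (hτ : ∀ z, g z = z → g (τ z) = τ z) :
    ∃ x ∈ G, (∀ z, g z = z → x z = τ z) ∧ ∃ i : ℤ, x * g * x⁻¹ = g ^ i := by
  classical
  -- the set of fixed points
  let s : Finset α := g.supportᶜ
  have hs : ∀ z, z ∈ s ↔ g z = z := by
    intro z
    rw [Finset.mem_compl, mem_support, not_not]
  have hscard : s.card = k := by
    rw [Finset.card_compl, hgp]
    omega
  let e : Fin k ≃ s := (Fintype.equivFinOfCardEq (by rw [Fintype.card_coe, hscard])).symm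
  let u : Fin k ↪ α := e.toEmbedding.trans (Function.Embedding.subtype _)
  let v : Fin k ↪ α := u.trans τ.toEmbedding
  obtain ⟨⟨h, hhG⟩, hh⟩ := hG.exists_smul_eq u v
  have hhs : ∀ z, g z = z → h z = τ z := by
    intro z hz
    have h1 : u (e.symm ⟨z, (hs z).2 hz⟩) = z := by
      change ((e (e.symm ⟨z, (hs z).2 hz⟩) : s) : α) = z
      rw [e.apply_symm_apply]
    have h2 := DFunLike.congr_fun hh (e.symm ⟨z, (hs z).2 hz⟩)
    change h (u (e.symm ⟨z, (hs z).2 hz⟩)) = τ (u (e.symm ⟨z, (hs z).2 hz⟩)) at h2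
    rw [h1] at h2
    exact h2
  -- `h` maps the set of fixed points onto itself
  have hmaps : s.image h = s := by
    apply Finset.eq_of_subset_of_card_le
    · intro w hw
      obtain ⟨z, hz, rfl⟩ := Finset.mem_image.1 hw
      rw [hs] at hz ⊢
      rw [hhs z hz]
      exact hτ z hz
    · rw [Finset.card_image_of_injective _ h.injective]
  have hinv : ∀ z, g z = z → g (h⁻¹ z) = h⁻¹ z := by
    intro z hz
    have h1 : z ∈ s.image h := by rw [hmaps, hs]; exact hz
    obtain ⟨w, hw, rfl⟩ := Finset.mem_image.1 h1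
    rw [hs] at hw
    have h2 : h⁻¹ (h w) = w := h.symm_apply_apply w
    rw [h2]
    exact hw
  let g1 : Perm α := h * g * h⁻¹
  have hg1 : ∀ z, g z = z → g1 z = z := by
    intro z hz
    change h (g (h⁻¹ z)) = z
    rw [hinv z hz]
    exact h.apply_symm_apply z
  -- the pointwise stabilizer
  let D : Subgroup (Perm α) :=
    { carrier := {d | d ∈ G ∧ ∀ z, g z = z → d z = z}
      one_mem' := ⟨G.one_mem, fun z _ => rfl⟩
      mul_mem' := by
        rintro a b ⟨ha, ha'⟩ ⟨hb, hb'⟩
        refine ⟨G.mul_mem ha hb, fun z hz => ?_⟩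
        change a (b z) = z
        rw [hb' z hz, ha' z hz]
      inv_mem' := by
        rintro a ⟨ha, ha'⟩
        refine ⟨G.inv_mem ha, fun z hz => ?_⟩
        rw [Perm.inv_eq_iff_eq]
        exact (ha' z hz).symm }
  have hgD : g ∈ D := ⟨hg, fun z hz => hz⟩
  have hg1D : g1 ∈ D := ⟨G.mul_mem (G.mul_mem hhG hg) (G.inv_mem hhG), hg1⟩
  have hDcard : Nat.card D ∣ p.factorial := by
    have h1 : ∀ (d : D) (z : α), z ∈ g.support → (d : Perm α) z ∈ g.support := by
      intro d z hz
      rw [mem_support] at hz ⊢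
      intro h2
      have h3 := d.2.2 _ h2
      have h4 : (d : Perm α) z = z := (d : Perm α).injective h3
      rw [h4] at h2
      exact hz h2
    have h2 : ∀ (d : D) (z : α), (d : Perm α) z ∈ g.support ↔ z ∈ g.support := by
      intro d z
      refine ⟨fun h3 => ?_, h1 d z⟩
      have h4 := h1 d⁻¹ _ h3
      have h5 : ((d⁻¹ : D) : Perm α) ((d : Perm α) z) = z := (d : Perm α).symm_apply_apply z
      rwa [h5] at h4
    let F : D →* Perm {z // z ∈ g.support} :=
      { toFun := fun d => (d : Perm α).subtypePerm (h2 d)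
        map_one' := by ext z; rfl
        map_mul' := by intro a b; ext z; rfl }
    have hF : Function.Injective F := by
      intro a b hab
      apply Subtype.ext
      apply Equiv.ext
      intro z
      by_cases hz : z ∈ g.support
      · have h3 := congrArg (fun f : Perm {z // z ∈ g.support} => ((f ⟨z, hz⟩ : _) : α)) hab
        exact h3
      · rw [mem_support, not_not] at hz
        rw [a.2.2 z hz, b.2.2 z hz]
    have h3 := Subgroup.card_dvd_of_injective F hF
    rw [Nat.card_perm, Nat.card_eq_fintype_card (α := {z // z ∈ g.support}), Fintype.card_coe, hgp]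
      at h3
    exact h3
  have hpD : p ∣ Nat.card D := by
    have h1 : orderOf (⟨g, hgD⟩ : D) ∣ Nat.card D := orderOf_dvd_natCard _
    rwa [Subgroup.orderOf_mk, ho] at h1
  have hfac : (Nat.card D).factorization p = 1 := by
    have hD0 : Nat.card D ≠ 0 := Nat.card_pos.ne'
    apply le_antisymm
    · have h1 := (Nat.factorization_le_iff_dvd hD0 (Nat.factorial_ne_zero p)).2 hDcard p
      have h2 : (p.factorial).factorization p = 1 := by
        have h3 : p.factorial = p * (p - 1).factorial := (Nat.mul_factorial_pred hp.out.ne_zero).symm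
        rw [h3, Nat.factorization_mul hp.out.ne_zero (Nat.factorial_ne_zero _)]
        have h4 : ((p - 1).factorial).factorization p = 0 := by
          apply Nat.factorization_eq_zero_of_not_dvd
          rw [hp.out.dvd_factorial]
          have := hp.out.pos
          omega
        rw [Finsupp.add_apply, h4, add_zero]
        exact hp.out.factorization_self
      rw [h2] at h1
      exact h1
    · exact (hp.out.dvd_iff_one_le_factorization hD0).1 hpD
  have hcy : ∀ (d : Perm α) (hd : d ∈ D), orderOf d = p →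
      Nat.card (Subgroup.zpowers (⟨d, hd⟩ : D)) = p ^ (Nat.card D).factorization p := by
    intro d hd hdo
    rw [Nat.card_zpowers, Subgroup.orderOf_mk, hdo, hfac, pow_one]
  have ho1 : orderOf g1 = p := by
    have h1 := MulEquiv.orderOf_eq (MulAut.conj h) g
    rw [MulAut.conj_apply] at h1
    exact h1.trans ho
  let S1 : Sylow p D := Sylow.ofCard _ (hcy g1 hg1D ho1)
  let S2 : Sylow p D := Sylow.ofCard _ (hcy g hgD ho)
  obtain ⟨d, hd⟩ := MulAction.exists_smul_eq D S1 S2
  refine ⟨(d : Perm α) * h, G.mul_mem d.2.1 hhG, fun z hz => ?_, ?_⟩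
  · change (d : Perm α) (h z) = τ z
    rw [hhs z hz]
    exact d.2.2 _ (hτ z hz)
  · have h1 : d * (⟨g1, hg1D⟩ : D) * d⁻¹ ∈ (S2 : Subgroup D) := by
      rw [← hd]
      exact Subgroup.smul_mem_pointwise_smul (⟨g1, hg1D⟩ : D) (MulAut.conj d) (S1 : Subgroup D)
        (Subgroup.mem_zpowers _)
    obtain ⟨i, hi⟩ := Subgroup.mem_zpowers_iff.1 (show d * (⟨g1, hg1D⟩ : D) * d⁻¹ ∈
      Subgroup.zpowers (⟨g, hgD⟩ : D) from h1)
    refine ⟨i, ?_⟩
    have h2 := congrArg Subtype.val hi
    change g ^ i = (d : Perm α) * (h * g * h⁻¹) * (d : Perm α)⁻¹ at h2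
    rw [h2]
    group

/-- Jordan's theorem -/
theorem jordan_cycle {p : ℕ} [hp : Fact p.Prime] (h5 : 5 ≤ p) {G : Subgroup (Perm α)}
    (hG : IsPreprimitive G α) (hp' : p + 3 ≤ Fintype.card α) {g : Perm α} (hgc : g.IsCycle)
    (hgp : g.support.card = p) (hg : g ∈ G) : alternatingGroup α ≤ G := by
  classical
  obtain ⟨n, hn⟩ : ∃ n, Fintype.card α = n + 1 + p := ⟨Fintype.card α - p - 1, by omega⟩
  have hsc : Set.ncard ((g.support)ᶜ : Set α) = n + 1 := by
    apply Nat.add_left_cancel
    rw [Set.ncard_add_ncard_compl, Set.ncard_coe_finset, hgp, Nat.card_eq_fintype_card, hn, add_comm]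
  have h1 : IsMultiplyPreprimitive G α (n + 2) := by
    apply hG.isMultiplyPreprimitive hsc
    · rw [Nat.card_eq_fintype_card, hn]
      omega
    · have := isPretransitive_of_isCycle_mem hgc hg
      apply IsPreprimitive.of_prime_card
      convert! hp.out
      rw [Nat.card_eq_fintype_card, Fintype.card_subtype, ← hgp]
      apply congr_arg
      ext x
      simp [SubMulAction.mem_ofFixingSubgroup_iff]
  have h2 : IsMultiplyPretransitive G α (n + 2) := h1.isMultiplyPretransitive
  have h3 : IsMultiplyPretransitive G α (n + 1) :=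
    isMultiplyPretransitive_of_le' (n := n + 2) (by omega) (by
      rw [ENat.card_eq_coe_fintype_card, hn]
      exact_mod_cast (by omega : n + 2 ≤ n + 1 + p))
  have ho : orderOf g = p := by rw [hgc.orderOf, hgp]
  -- three fixed points
  obtain ⟨a, b, c, ha, hb, hc, hab, hac, hbc⟩ : ∃ a b c : α, g a = a ∧ g b = b ∧ g c = c ∧
      a ≠ b ∧ a ≠ c ∧ b ≠ c := by
    have h4 : 2 < (g.supportᶜ).card := by
      rw [Finset.card_compl, hgp]
      omega
    obtain ⟨a, ha, b, hb, c, hc, hab, hac, hbc⟩ := Finset.two_lt_card.1 h4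
    simp only [Finset.mem_compl, mem_support, not_not] at ha hb hc
    exact ⟨a, b, c, ha, hb, hc, hab, hac, hbc⟩
  have hsw : ∀ u w : α, g u = u → g w = w → ∀ z, g z = z → g (swap u w z) = swap u w z := by
    intro u w hu hw z hz
    rw [swap_apply_def]
    split_ifs
    · exact hw
    · exact hu
    · exact hz
  obtain ⟨x1, hx1G, hx1, i, hi⟩ := exists_norm h3 hgp ho hg (by omega) (swap a b) (hsw a b ha hb)
  obtain ⟨x2, hx2G, hx2, j, hj⟩ := exists_norm h3 hgp ho hg (by omega) (swap a c) (hsw a c ha hc)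
  let y : Perm α := (x2 * x1)⁻¹ * (x1 * x2)
  have hyG : y ∈ G := G.mul_mem (G.inv_mem (G.mul_mem hx2G hx1G)) (G.mul_mem hx1G hx2G)
  have hyg : Commute y g := by
    have h4 : (x1 * x2) * g * (x1 * x2)⁻¹ = g ^ (i * j) := by
      have h5 : (x1 * x2) * g * (x1 * x2)⁻¹ = x1 * (x2 * g * x2⁻¹) * x1⁻¹ := by group
      rw [h5, hj, ← conj_zpow, hi, zpow_mul]
    have h6 : (x2 * x1) * g * (x2 * x1)⁻¹ = g ^ (i * j) := by
      have h5 : (x2 * x1) * g * (x2 * x1)⁻¹ = x2 * (x1 * g * x1⁻¹) * x2⁻¹ := by group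
      rw [h5, hi, ← conj_zpow, hj, ← zpow_mul, mul_comm]
    have h7 : y * g * y⁻¹ = g := by
      have h8 : y * g * y⁻¹ = (x2 * x1)⁻¹ * ((x1 * x2) * g * (x1 * x2)⁻¹) * (x2 * x1) := by
        change (x2 * x1)⁻¹ * (x1 * x2) * g * ((x2 * x1)⁻¹ * (x1 * x2))⁻¹ = _
        group
      rw [h8, h4, ← h6]
      group
    exact mul_inv_eq_iff_eq_mul.1 h7
  let τ : Perm α := swap a b * swap a c
  have hfx : ∀ (x : Perm α) (u w : α), g u = u → g w = w → (∀ z, g z = z → x z = swap u w z) →
      ∀ z, g z = z → x⁻¹ z = swap u w z := by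
    intro x u w hu hw hx z hz
    rw [Perm.inv_eq_iff_eq, hx _ (hsw u w hu hw z hz), swap_apply_self]
  have hy : ∀ z, g z = z → y z = (τ * τ) z := by
    intro z hz
    have h4 := hsw a c ha hc z hz
    have h5 := hsw a b ha hb _ h4
    have h6 := hsw a c ha hc _ h5
    change (x2 * x1)⁻¹ (x1 (x2 z)) = _
    rw [hx2 z hz, hx1 _ h4, mul_inv_rev]
    change x1⁻¹ (x2⁻¹ _) = _
    rw [hfx x2 a c ha hc hx2 _ h5, hfx x1 a b ha hb hx1 _ h6]
    rfl
  have hτfix : ∀ z, g z = z → g ((τ * τ) z) = (τ * τ) z := by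
    intro z hz
    rw [← hy z hz]
    have h4 : g (y z) = y (g z) := DFunLike.congr_fun hyg.symm z
    rw [h4, hz]
  have hypow : ∀ (m : ℕ) (z : α), g z = z → (y ^ m) z = ((τ * τ) ^ m) z := by
    intro m
    induction m with
    | zero => intro z _; rfl
    | succ m ih =>
      intro z hz
      rw [pow_succ, pow_succ]
      change (y ^ m) (y z) = ((τ * τ) ^ m) ((τ * τ) z)
      rw [hy z hz]
      exact ih _ (hτfix z hz)
  obtain ⟨z0, hz0, hcyc⟩ := id hgc
  have hyz0 : g (y z0) ≠ y z0 := by
    intro h4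
    apply hz0
    have h5 : g (y z0) = y (g z0) := DFunLike.congr_fun hyg.symm z0
    rw [h5] at h4
    exact y.injective h4
  obtain ⟨m, hm⟩ := hcyc hyz0
  let y' : Perm α := y * (g ^ m)⁻¹
  have hy'g : Commute y' (g ^ m) :=
    Commute.mul_left (hyg.zpow_right m) (Commute.refl _).inv_left
  have hyy' : y = y' * g ^ m := by
    change y = y * (g ^ m)⁻¹ * g ^ m
    rw [inv_mul_cancel_right]
  have hy'sup : ∀ z, g z ≠ z → y' z = z := by
    intro z hz
    obtain ⟨k, hk⟩ := hcyc hz
    have h4 : Commute y' g := Commute.mul_left hyg (((Commute.refl g).zpow_left m).inv_left)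
    have h6 : y' z0 = z0 := by
      have h7 : y z0 = (g ^ m) z0 := hm.symm
      have h8 : y' ((g ^ m) z0) = y z0 := by
        change y ((g ^ m)⁻¹ ((g ^ m) z0)) = y z0
        rw [show (g ^ m)⁻¹ ((g ^ m) z0) = z0 from (g ^ m).symm_apply_apply z0]
      have h9 : y' ((g ^ m) z0) = (g ^ m) (y' z0) := DFunLike.congr_fun (h4.zpow_right m) z0
      rw [h9, h7] at h8
      exact (g ^ m).injective h8
    rw [← hk]
    have h10 : y' ((g ^ k) z0) = (g ^ k) (y' z0) := DFunLike.congr_fun (h4.zpow_right k) z0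
    rw [h10, h6]
  have hyp : y ^ p = (τ * τ) ^ p := by
    apply Equiv.ext
    intro z
    by_cases hz : g z = z
    · exact hypow p z hz
    · rw [hyy', hy'g.mul_pow, ← zpow_natCast (g ^ m), ← zpow_mul, mul_comm m, zpow_mul, zpow_natCast,
        ← ho, pow_orderOf_eq_one, one_zpow, mul_one, pow_apply_eq_self_of_apply_eq_self (hy'sup z hz)]
      have h4 : ∀ w : α, g w = w → z ≠ w := by
        rintro w hw rfl
        exact hz hw
      have h5 : (τ * τ) z = z := by
        have h6 : τ z = z := by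
          change swap a b (swap a c z) = z
          rw [swap_apply_of_ne_of_ne (h4 a ha) (h4 c hc), swap_apply_of_ne_of_ne (h4 a ha) (h4 b hb)]
        change τ (τ z) = z
        rw [h6, h6]
      rw [pow_apply_eq_self_of_apply_eq_self h5]
  have hτ3 : IsThreeCycle τ := isThreeCycle_swap_mul_swap_same hab hac hbc
  have h3c : IsThreeCycle (y ^ p) := by
    rw [hyp, ← pow_two, ← pow_mul]
    have h4 : τ ^ 3 = 1 := by
      rw [← hτ3.orderOf, pow_orderOf_eq_one]
    have h5 : τ ^ (2 * p) = τ ^ (2 * p % 3) := by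
      conv_lhs => rw [← Nat.div_add_mod (2 * p) 3, pow_add, pow_mul, h4, one_pow, one_mul]
    have h6 : 2 * p % 3 = 1 ∨ 2 * p % 3 = 2 := by
      have h7 : ¬ 3 ∣ p := by
        intro h8
        have := (Nat.prime_dvd_prime_iff_eq Nat.prime_three hp.out).1 h8
        omega
      omega
    rw [h5]
    rcases h6 with h6 | h6
    · rw [h6, pow_one]
      exact hτ3
    · rw [h6, pow_two]
      exact hτ3.isThreeCycle_sq
  exact alternatingGroup_le_of_isPreprimitive_of_isThreeCycle_mem hG h3c (G.pow_mem hyG p)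

end Pool.Agent.Helper14.LC
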