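import Pool.Agent.Helper14.LC.Ext
import Pool.Agent.Helper24.S7.Final
import Pool.Agent.Helper42.IR.F.HII
import Pool.Agent.Helper42.CY.FMain

/-!
# Q1 if `P` has no quotient `C_p ≀ C_p` and `P ∩ O^p(N_G(P))` is cyclic
-/

namespace Pool.Agent.Helper14.LC

open scoped Pointwise

open Pool.Agent.Helper24.S7 (InCC Involved PGood)

/-! ### copied from `Results/MP_5ecade_al/SimpleReduction.lean` (private there) -/

private lemma lift_range {H Y S : Type} [Group H] [Group Y] [Group S] (ψ : H →* Y) (φ : H →* S)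
    (hφ : Function.Surjective φ) (hker : ψ.rangeRestrict.ker ≤ φ.ker) :
    ∃ g : ψ.range →* S, Function.Surjective g := by
  let g : ψ.range →* S := ψ.rangeRestrict.liftOfSurjective ψ.rangeRestrict_surjective ⟨φ, hker⟩
  refine ⟨g, fun s => ?_⟩
  obtain ⟨x, rfl⟩ := hφ s
  exact ⟨ψ.rangeRestrict x,
    MonoidHom.liftOfRightInverse_comp_apply _ _ _ ⟨φ, hker⟩ x⟩

/-- a simple group involved in `G` is involved in the normal subgroup `N` or in the quotient -/
theorem involved_ext {G S : Type} [Group G] [Group S] (hS : IsSimpleGroup S)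
    (N : Subgroup G) [N.Normal] (hinv : Involved S G) : Involved S N ∨ Involved S (G ⧸ N) := by
  obtain ⟨H, L, hL, ⟨e⟩⟩ := hinv
  haveI := hL
  let φ : H →* S := e.toMonoidHom.comp (QuotientGroup.mk' L)
  have hφ : Function.Surjective φ := e.surjective.comp (QuotientGroup.mk'_surjective L)
  have hnorm : ((N.subgroupOf H).map φ).Normal := Subgroup.Normal.map inferInstance φ hφ
  rcases hS.eq_bot_or_eq_top_of_normal _ hnorm with hb | ht
  · right
    let ψ : H →* G ⧸ N := (QuotientGroup.mk' N).comp H.subtype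
    have hker : ψ.rangeRestrict.ker ≤ φ.ker := by
      intro x hx
      rw [MonoidHom.mem_ker] at hx ⊢
      have h1 : (QuotientGroup.mk' N) (x : G) = 1 := congrArg Subtype.val hx
      have h2 : (x : G) ∈ N := (QuotientGroup.eq_one_iff (x : G)).1 h1
      have h3 : φ x ∈ (N.subgroupOf H).map φ :=
        Subgroup.mem_map_of_mem φ (Subgroup.mem_subgroupOf.2 h2)
      rwa [hb, Subgroup.mem_bot] at h3
    obtain ⟨g, hg⟩ := lift_range ψ φ hφ hker
    exact ⟨ψ.range, g.ker, inferInstance, ⟨QuotientGroup.quotientKerEquivOfSurjective g hg⟩⟩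
  · left
    let θ : H.subgroupOf N →* H :=
      (N.subtype.comp (H.subgroupOf N).subtype).codRestrict H (fun x => x.2)
    have hθ : Function.Surjective (φ.comp θ) := by
      intro s
      have hs : s ∈ (N.subgroupOf H).map φ := by rw [ht]; exact Subgroup.mem_top s
      obtain ⟨x, hx, rfl⟩ := hs
      have hxN : (x : G) ∈ N := Subgroup.mem_subgroupOf.1 hx
      exact ⟨⟨⟨x, hxN⟩, Subgroup.mem_subgroupOf.2 x.2⟩, rfl⟩
    exact ⟨H.subgroupOf N, (φ.comp θ).ker, inferInstance,
      ⟨QuotientGroup.quotientKerEquivOfSurjective (φ.comp θ) hθ⟩⟩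

/-- a `p`-group involves no nonabelian simple group -/
theorem not_involved_pgroup {p : ℕ} [hp : Fact p.Prime] {G S : Type} [Group G] [Finite G] [Group S]
    (hG : IsPGroup p G) (hS : IsSimpleGroup S) (hn : ¬ ∀ a b : S, a * b = b * a) :
    ¬ Involved S G := by
  rintro ⟨H, L, hL, ⟨e⟩⟩
  haveI := hL
  have h1 : IsPGroup p S := ((hG.to_subgroup H).to_quotient L).of_equiv e
  haveI : Finite S := Finite.of_equiv _ e.toEquiv
  haveI : Nontrivial S := hS.toNontrivial
  haveI h2 : Nontrivial (Subgroup.center S) := h1.center_nontrivial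
  rcases hS.eq_bot_or_eq_top_of_normal (Subgroup.center S) inferInstance with h3 | h3
  · rw [h3] at h2
    exact not_nontrivial _ h2
  · apply hn
    intro a b
    have hb : b ∈ Subgroup.center S := by rw [h3]; exact Subgroup.mem_top b
    exact Subgroup.mem_center_iff.1 hb a

/-- Q1 for groups with a normal subgroup of `p`-power index with cyclic Sylow `p`-subgroups -/
theorem mcKay_of_ext {p : ℕ} [hp : Fact p.Prime] (G : Type) [Group G] [Finite G] (K : Subgroup G)
    [K.Normal] (hK : ∀ Q : Sylow p K, IsCyclic Q) (hGK : IsPGroup p (G ⧸ K)) :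
    Pool.Agent.Helper42.INC.McKayCongr p G := by
  refine Pool.Agent.Helper24.S7.final_of (fun K _ _ => Pool.Agent.Helper42.IR.F.hII K) G ?_
  intro S _ hS hn hinv h2
  rcases involved_ext hS K hinv with h | h
  · intro T _ _ hperf he hz
    exact Pool.Agent.Helper42.CY.pgood_of_cyclic S (Pool.Agent.Helper42.CY.cyclic_section hK h) h2
      T hperf he hz
  · exact absurd h (not_involved_pgroup hGK hS hn)

/-- the normal subgroup `K` of `G` -/
theorem exists_kernel {p : ℕ} [hp : Fact p.Prime] (G : Type) [Group G] [Finite G] (P : Sylow p G)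
    (hw : ∀ f : P →* RegularWreathProduct (Multiplicative (ZMod p)) (Multiplicative (ZMod p)),
      ¬ Function.Surjective f)
    (L : Subgroup (Subgroup.normalizer (P : Set G))) [L.Normal]
    (hL : IsPGroup p (Subgroup.normalizer (P : Set G) ⧸ L)) :
    ∃ (K : Subgroup G) (_ : K.Normal), IsPGroup p (G ⧸ K) ∧
      ∀ n : Subgroup.normalizer (P : Set G), (n : G) ∈ K ↔ n ∈ L := by
  let N := Subgroup.normalizer (P : Set G)
  obtain ⟨k, hk⟩ := IsPGroup.iff_card.1 hL
  have hidx : ¬ p ∣ N.index := by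
    intro h
    exact P.not_dvd_index (h.trans (Subgroup.index_dvd_of_le Subgroup.le_normalizer))
  obtain ⟨f, hf⟩ := ext_pgroup N hidx (ext_prime P hw) k (N ⧸ L) hk (QuotientGroup.mk' L)
  refine ⟨f.ker, inferInstance, ?_, ?_⟩
  · have h1 : IsPGroup p f.range := hL.to_subgroup f.range
    exact h1.of_equiv (QuotientGroup.quotientKerEquivRange f).symm
  · intro n
    rw [MonoidHom.mem_ker, hf n]
    exact QuotientGroup.eq_one_iff n

/-- its Sylow subgroups are cyclic -/
theorem cyclic_kernel {p : ℕ} [hp : Fact p.Prime] (G : Type) [Group G] [Finite G] (P : Sylow p G)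
    (hw : ∀ f : P →* RegularWreathProduct (Multiplicative (ZMod p)) (Multiplicative (ZMod p)),
      ¬ Function.Surjective f)
    (L : Subgroup (Subgroup.normalizer (P : Set G))) [L.Normal]
    (hL : IsPGroup p (Subgroup.normalizer (P : Set G) ⧸ L))
    (hc : IsCyclic ((P : Subgroup G).subgroupOf (Subgroup.normalizer (P : Set G)) ⊓ L :
      Subgroup (Subgroup.normalizer (P : Set G)))) :
    ∃ (K : Subgroup G) (_ : K.Normal), IsPGroup p (G ⧸ K) ∧ ∀ Q : Sylow p K, IsCyclic Q := by
  obtain ⟨K, hK, hGK, hKL⟩ := exists_kernel G P hw L hL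
  refine ⟨K, hK, hGK, ?_⟩
  intro Q
  obtain ⟨Q', hQ'⟩ := Sylow.exists_comap_subtype_eq Q
  obtain ⟨g, hg⟩ := MulAction.exists_smul_eq G Q' P
  have h1 : ∀ x : K, x ∈ (Q : Subgroup K) → g * (x : G) * g⁻¹ ∈ (P : Subgroup G) := by
    intro x hx
    have h2 : (x : G) ∈ (Q' : Subgroup G) := by
      have h3 : x ∈ (Q' : Subgroup G).comap K.subtype := by
        rw [hQ']
        exact hx
      exact h3
    rw [← hg]
    exact Subgroup.smul_mem_pointwise_smul (x : G) (MulAut.conj g) (Q' : Subgroup G) h2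
  have hPN : ∀ x : G, x ∈ (P : Subgroup G) → x ∈ Subgroup.normalizer (P : Set G) :=
    fun x hx => Subgroup.le_normalizer hx
  let F : Q →* ((P : Subgroup G).subgroupOf (Subgroup.normalizer (P : Set G)) ⊓ L :
      Subgroup (Subgroup.normalizer (P : Set G))) :=
    MonoidHom.mk' (fun x => ⟨⟨g * ((x : K) : G) * g⁻¹, hPN _ (h1 x x.2)⟩,
      ⟨h1 x x.2, (hKL _).1 (hK.conj_mem _ (x : K).2 g)⟩⟩) (by
        intro a b
        apply Subtype.ext
        apply Subtype.ext
        change g * (((a : K) : G) * ((b : K) : G)) * g⁻¹ =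
          (g * ((a : K) : G) * g⁻¹) * (g * ((b : K) : G) * g⁻¹)
        group)
  have hF : Function.Injective F := by
    intro a b hab
    have h2 : g * ((a : K) : G) * g⁻¹ = g * ((b : K) : G) * g⁻¹ :=
      congrArg (fun z => ((z.1 : Subgroup.normalizer (P : Set G)) : G)) hab
    have h3 : ((a : K) : G) = ((b : K) : G) := mul_left_cancel (mul_right_cancel h2)
    exact Subtype.ext (Subtype.ext h3)
  exact isCyclic_of_injective F hF

/-- the main theorem -/
theorem mcKay_local {p : ℕ} [hp : Fact p.Prime] (G : Type) [Group G] [Finite G] (P : Sylow p G)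
    (hw : ∀ f : P →* RegularWreathProduct (Multiplicative (ZMod p)) (Multiplicative (ZMod p)),
      ¬ Function.Surjective f)
    (L : Subgroup (Subgroup.normalizer (P : Set G))) [L.Normal]
    (hL : IsPGroup p (Subgroup.normalizer (P : Set G) ⧸ L))
    (hc : IsCyclic ((P : Subgroup G).subgroupOf (Subgroup.normalizer (P : Set G)) ⊓ L :
      Subgroup (Subgroup.normalizer (P : Set G)))) :
    Pool.Agent.Helper42.INC.McKayCongr p G := by
  obtain ⟨K, hK, hGK, hcyc⟩ := cyclic_kernel G P hw L hL hc
  haveI := hK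
  exact mcKay_of_ext G K hcyc hGK

end Pool.Agent.Helper14.LC
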