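import Pool.Agent.Helper14.LC.Cyc
import Pool.Agent.Helper14.LC.Ker

/-!
# Q1 for groups with nonabelian metacyclic Sylow `p`-subgroups, `p` odd
-/

namespace Pool.Agent.Helper14.LC

theorem cyc_Op' {p : ℕ} [hp : Fact p.Prime] (hodd : p ≠ 2) {G : Type} [Group G] [Finite G]
    (P : Sylow p G) (hM : Metacyclic P) (hna : ¬ ∀ a b : P, a * b = b * a) :
    IsCyclic ((P : Subgroup G).subgroupOf (Subgroup.normalizer (P : Set G)) ⊓
      Op p (Subgroup.normalizer (P : Set G)) : Subgroup (Subgroup.normalizer (P : Set G))) := by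
  let N := Subgroup.normalizer (P : Set G)
  let P' : Subgroup N := (P : Subgroup G).subgroupOf N
  have hPN : (P : Subgroup G) ≤ N := Subgroup.le_normalizer
  haveI : P'.Normal := Subgroup.normal_in_normalizer
  let e : P' ≃* P := Subgroup.subgroupOfEquivOfLe hPN
  have hP' : IsPGroup p P' := P.isPGroup'.comap_subtype
  have hi : ¬ p ∣ P'.index := (P.subtype hPN).not_dvd_index
  have hM' : Metacyclic P' := hM.of_injective e.toMonoidHom e.injective
  have hna' : ¬ ∀ a b : P', a * b = b * a := by
    intro h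
    apply hna
    intro a b
    have h1 := h (e.symm a) (e.symm b)
    rw [← map_mul, ← map_mul] at h1
    exact e.symm.injective h1
  have hcyc := cyc_Op hodd P' hP' hi hM' hna'
  let F : (P' ⊓ Op p N : Subgroup N) →* P'.subgroupOf (Op p N) :=
    MonoidHom.mk' (fun x => ⟨⟨(x : N), x.2.2⟩, x.2.1⟩) (fun a b => rfl)
  have hF : Function.Injective F := by
    intro a b hab
    have h1 := congrArg (fun z : P'.subgroupOf (Op p N) => ((z : Op p N) : N)) hab
    exact Subtype.ext h1
  exact isCyclic_of_injective F hF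

theorem mcKay_metacyclic {p : ℕ} [hp : Fact p.Prime] (hodd : p ≠ 2) (G : Type) [Group G] [Finite G]
    (P : Sylow p G) (hM : Metacyclic P) (hna : ¬ ∀ a b : P, a * b = b * a) :
    Pool.Agent.Helper42.INC.McKayCongr p G :=
  mcKay_local G P (hM.no_wreath hodd P.isPGroup') (Op p _) (Op_quot p _) (cyc_Op' hodd P hM hna)

end Pool.Agent.Helper14.LC
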