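import Pool.Agent.Helper14.LC.Co

/-!
# Yoshida's argument
-/

namespace Pool.Agent.Helper14.LC

variable {G : Type} [Group G]

/-- a `p`-element of the normalizer of a Sylow subgroup lies in the Sylow subgroup -/
theorem mem_of_pel {p : ℕ} [Fact p.Prime] [Finite G] (P : Sylow p G) {h : G}
    (hN : h ∈ Subgroup.normalizer (P : Set G)) {n : ℕ} (hp : h ^ p ^ n = 1) : h ∈ (P : Subgroup G) := by
  have h1 : IsPGroup p (Subgroup.zpowers h) := by
    intro x
    obtain ⟨k, hk⟩ := Subgroup.mem_zpowers_iff.1 x.2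
    refine ⟨n, Subtype.ext ?_⟩
    change (x : G) ^ p ^ n = 1
    rw [← hk, ← zpow_natCast, ← zpow_mul, mul_comm, zpow_mul, zpow_natCast, hp, one_zpow]
  have h2 : Subgroup.zpowers h ≤ Subgroup.normalizer ((P : Subgroup G) : Set G) := by
    rw [Subgroup.zpowers_le]
    exact hN
  have h3 : IsPGroup p (Subgroup.zpowers h ⊔ (P : Subgroup G) : Subgroup G) :=
    IsPGroup.to_sup_of_normal_right' h1 P.isPGroup' h2
  have h4 : (Subgroup.zpowers h ⊔ (P : Subgroup G) : Subgroup G) = P :=
    P.is_maximal' h3 le_sup_right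
  have h5 : Subgroup.zpowers h ≤ (P : Subgroup G) := by
    rw [← h4]
    exact le_sup_left
  exact h5 (Subgroup.mem_zpowers h)

/-- elements of a Sylow subgroup have `p`-power order -/
theorem pel_of_mem {p : ℕ} [Fact p.Prime] (P : Sylow p G) {h : G} (hP : h ∈ (P : Subgroup G)) :
    ∃ n, h ^ p ^ n = 1 := by
  obtain ⟨n, hn⟩ := P.isPGroup' ⟨h, hP⟩
  exact ⟨n, congrArg Subtype.val hn⟩

theorem fixed_coset {p : ℕ} [Fact p.Prime] [Finite G] (P : Sylow p G)
    (c : G ⧸ (Subgroup.normalizer (P : Set G))) (h : ∀ x ∈ (P : Subgroup G), x • c = c) :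
    c = ((1 : G) : G ⧸ (Subgroup.normalizer (P : Set G))) := by
  obtain ⟨y, rfl⟩ := QuotientGroup.mk_surjective c
  have h1 : ∀ x ∈ (P : Subgroup G), y⁻¹ * x * y ∈ (P : Subgroup G) := by
    intro x hx
    obtain ⟨n, hn⟩ := pel_of_mem P hx
    have h2 : y⁻¹ * x * y ∈ Subgroup.normalizer (P : Set G) := by
      have h3 := h x hx
      have h4 : ((x * y : G) : G ⧸ (Subgroup.normalizer (P : Set G))) = (y : G) := h3
      have h5 := QuotientGroup.eq.1 h4.symm
      rw [← mul_assoc] at h5
      exact h5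
    apply mem_of_pel P h2 (n := n)
    have h3 : y⁻¹ * x * y = y⁻¹ * x * (y⁻¹)⁻¹ := by rw [inv_inv]
    rw [h3, conj_pow, hn, mul_one, inv_inv, inv_mul_cancel]
  have h2 : y⁻¹ ∈ Subgroup.normalizer (P : Set G) := by
    haveI : Finite ((P : Set G)) := inferInstance
    apply Subgroup.mem_normalizer_fintype
    intro x hx
    rw [inv_inv]
    exact h1 x hx
  apply QuotientGroup.eq.2
  rw [mul_one]
  exact h2

/-- Yoshida's argument -/
theorem yoshida {p : ℕ} [hp : Fact p.Prime] [Finite G] (P : Sylow p G)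
    (lam : Subgroup.normalizer (P : Set G) →* Multiplicative (ZMod p))
    (h1 : ∀ x ∈ (P : Subgroup G), TU lam x = 1)
    (h2 : ∃ x : Subgroup.normalizer (P : Set G), (x : G) ∈ (P : Subgroup G) ∧ lam x ≠ 1) :
    ∃ (M : Subgroup P) (_ : M.Normal) (φ : M →* Multiplicative (ZMod p)) (g : P),
      M.index = p ∧ g ∈ M ∧ TU φ g ≠ 1 := by
  classical
  let N := Subgroup.normalizer (P : Set G)
  haveI : Fintype (G ⧸ N) := Fintype.ofFinite _
  have hPN : ∀ x : G, x ∈ (P : Subgroup G) → x ∈ N := fun x hx => Subgroup.le_normalizer hx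
  -- an element of minimal order
  let S : Set N := {x | (x : G) ∈ (P : Subgroup G) ∧ lam x ≠ 1}
  obtain ⟨g, ⟨hgP, hg1⟩, hmin⟩ := Set.exists_min_image S (fun x => orderOf (x : G)) (Set.toFinite S) h2
  have hmin' : ∀ x : N, (x : G) ∈ (P : Subgroup G) → orderOf (x : G) < orderOf (g : G) →
      lam x = 1 := by
    intro x hx hlt
    by_contra hne
    exact absurd (hmin x ⟨hx, hne⟩) (not_le.2 hlt)
  obtain ⟨n0, hn0⟩ := pel_of_mem P hgP
  let c0 : G ⧸ N := ((1 : G) : G ⧸ N)
  have hc0 : ∀ x ∈ (P : Subgroup G), x • c0 = c0 := by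
    intro x hx
    change ((x * 1 : G) : G ⧸ N) = ((1 : G) : G ⧸ N)
    apply QuotientGroup.eq.2
    rw [mul_one, mul_one]
    exact inv_mem (hPN x hx)
  -- the contribution of the trivial coset
  have hco0 : co lam (g : G) c0 = lam g := by
    have hout : (c0.out : G) ∈ N := by
      have h3 : ((c0.out : G) : G ⧸ N) = ((1 : G) : G ⧸ N) := QuotientGroup.out_eq' c0
      have h4 := QuotientGroup.eq.1 h3.symm
      simpa using h4
    have h3 : el N (g : G) c0 = (⟨c0.out, hout⟩ : N)⁻¹ * g * ⟨c0.out, hout⟩ := by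
      apply Subtype.ext
      rw [el_fix (hc0 g hgP)]
      rfl
    unfold co
    rw [h3, map_mul, map_mul, mul_comm, ← mul_assoc, map_inv, mul_inv_cancel, one_mul]
  -- orbits
  let Ω := MulAction.orbitRel.Quotient P (G ⧸ N)
  haveI : Fintype Ω := Fintype.ofFinite _
  let q : G ⧸ N → Ω := fun c => Quotient.mk (MulAction.orbitRel P (G ⧸ N)) c
  have hq : ∀ c d, q c = q d ↔ ∃ x : P, x • d = c := by
    intro c d
    have h3 : q c = q d ↔ (MulAction.orbitRel P (G ⧸ N)) c d := Quotient.eq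
    rw [h3, MulAction.orbitRel_apply, MulAction.mem_orbit_iff]
    exact Iff.rfl
  have htot : ∏ ω : Ω, ∏ c with q c = ω, co lam (g : G) c = 1 := by
    rw [Finset.prod_fiberwise Finset.univ q (fun c => co lam (g : G) c), ← TU_apply]
    exact h1 g hgP
  have hfib0 : ∏ c with q c = q c0, co lam (g : G) c = lam g := by
    have h3 : (Finset.univ.filter (fun c => q c = q c0)) = {c0} := by
      ext c
      rw [Finset.mem_filter, Finset.mem_singleton, hq]
      constructor
      · rintro ⟨_, x, hx⟩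
        rw [← hx]
        exact hc0 x x.2
      · rintro rfl
        exact ⟨Finset.mem_univ _, 1, one_smul _ _⟩
    rw [h3, Finset.prod_singleton, hco0]
  obtain ⟨ω, hω, hωne⟩ : ∃ ω : Ω, ω ≠ q c0 ∧ ∏ c with q c = ω, co lam (g : G) c ≠ 1 := by
    by_contra hcon
    push Not at hcon
    apply hg1
    rw [← hfib0, ← htot]
    symm
    exact Finset.prod_eq_single (q c0) (fun ω _ hne => hcon ω hne)
      (fun h => absurd (Finset.mem_univ _) h)
  let O : Finset (G ⧸ N) := Finset.univ.filter (fun c => q c = ω)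
  have hO : ∀ c, c ∈ O ↔ q c = ω := by
    intro c
    rw [Finset.mem_filter]
    exact ⟨fun h => h.2, fun h => ⟨Finset.mem_univ _, h⟩⟩
  have hOst : ∀ x ∈ (P : Subgroup G), ∀ c ∈ O, x • c ∈ O := by
    intro x hx c hc
    rw [hO] at hc ⊢
    rw [← hc, hq]
    exact ⟨⟨x, hx⟩, rfl⟩
  -- a fixed coset in the orbit
  obtain ⟨c, hcO, hgc⟩ : ∃ c ∈ O, (g : G) • c = c := by
    by_contra hcon
    push Not at hcon
    apply hωne
    refine prod_cycles lam (g : G) ⟨p ^ n0, pow_pos hp.out.pos _, hn0⟩ O.card O le_rfl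
      (hOst g hgP) ?_
    intro c hc
    let k := Function.minimalPeriod (fun x : G ⧸ N => (g : G) • x) c
    have hiter : ∀ i : ℕ, ((fun x : G ⧸ N => (g : G) • x)^[i]) c = (g : G) ^ i • c := by
      intro i
      rw [smul_iterate]
    have hkc : (g : G) ^ k • c = c := by
      rw [← hiter]
      exact Function.isPeriodicPt_minimalPeriod _ c
    have hk1 : k ≠ 1 := by
      intro h3
      apply hcon c hc
      rw [h3, pow_one] at hkc
      exact hkc
    have hkd : k ∣ orderOf (g : G) := by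
      apply Function.IsPeriodicPt.minimalPeriod_dvd
      change ((fun x : G ⧸ N => (g : G) • x)^[orderOf (g : G)]) c = c
      rw [hiter, pow_orderOf_eq_one, one_smul]
    have hopos : 0 < orderOf (g : G) := orderOf_pos _
    have hlt : orderOf ((g : G) ^ k) < orderOf (g : G) := by
      rw [orderOf_pow_of_dvd (by
        rintro h3
        rw [h3] at hkd
        rw [Nat.eq_zero_of_zero_dvd hkd] at hopos
        exact lt_irrefl 0 hopos) hkd]
      apply Nat.div_lt_self hopos
      have : k ≠ 0 := by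
        rintro h3
        rw [h3] at hkd
        rw [Nat.eq_zero_of_zero_dvd hkd] at hopos
        exact lt_irrefl 0 hopos
      omega
    have hel : ((el N ((g : G) ^ k) c : N) : G) = (c.out)⁻¹ * (g : G) ^ k * c.out := el_fix hkc
    have hord : orderOf ((el N ((g : G) ^ k) c : N) : G) = orderOf ((g : G) ^ k) := by
      rw [hel]
      have h3 : (c.out)⁻¹ * (g : G) ^ k * c.out = MulAut.conj (c.out)⁻¹ ((g : G) ^ k) := by
        rw [MulAut.conj_apply, inv_inv]
      rw [h3]
      exact MulEquiv.orderOf_eq _ _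
    apply hmin'
    · apply mem_of_pel P (el N ((g : G) ^ k) c).2 (n := n0)
      rw [hel]
      have h3 : (c.out)⁻¹ * (g : G) ^ k * c.out = (c.out)⁻¹ * (g : G) ^ k * ((c.out)⁻¹)⁻¹ := by
        rw [inv_inv]
      rw [h3, conj_pow, ← pow_mul, mul_comm k, pow_mul, hn0, one_pow, mul_one, inv_inv,
        inv_mul_cancel]
    · rw [hord]
      exact hlt
  -- the stabilizer and a subgroup of index `p` above it
  let Q : Subgroup P := MulAction.stabilizer P c
  have hQ : ∀ x : P, x ∈ Q ↔ (x : G) • c = c := fun x => MulAction.mem_stabilizer_iff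
  have hQtop : Q ≠ ⊤ := by
    intro htop
    have h3 : c = c0 := by
      apply fixed_coset P c
      intro x hx
      have : (⟨x, hx⟩ : P) ∈ Q := by rw [htop]; exact Subgroup.mem_top _
      exact (hQ _).1 this
    apply hω
    rw [← h3]
    exact ((hO c).1 hcO).symm
  obtain ⟨m, hm⟩ := IsPGroup.iff_card.1 P.isPGroup'
  obtain ⟨l, hl⟩ := IsPGroup.iff_card.1 (P.isPGroup'.to_subgroup Q)
  have hlm : l < m := by
    have h3 : Nat.card Q < Nat.card P := by
      rcases lt_or_eq_of_le (Subgroup.card_le_card_group Q) with h4 | h4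
      · exact h4
      · exact absurd (Subgroup.eq_top_of_card_eq Q h4) hQtop
    have hm' : Nat.card P = p ^ m := hm
    rw [hl, hm'] at h3
    exact (Nat.pow_lt_pow_iff_right hp.out.one_lt).1 h3
  obtain ⟨k, rfl⟩ : ∃ k, m = k + 1 := ⟨m - 1, by omega⟩
  have hm' : Nat.card P = p ^ (k + 1) := hm
  obtain ⟨M, hMc, hQM⟩ := Sylow.exists_subgroup_card_pow_prime_le (G := P) (n := l) (m := k) p
    (by rw [hm']; exact pow_dvd_pow p (Nat.le_succ k)) Q hl (by omega)
  have hMi : M.index = p := by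
    have h3 := M.card_mul_index
    rw [hMc, hm', pow_succ] at h3
    exact Nat.eq_of_mul_eq_mul_left (pow_pos hp.out.pos k) h3
  haveI hMn : M.Normal := by
    apply Subgroup.normal_of_index_eq_minFac_card
    rw [hMi, hm', hp.out.pow_minFac (Nat.succ_ne_zero k)]
  -- the `M`-orbit of `c`
  let O0 : Finset (G ⧸ N) := Finset.univ.filter (fun d => ∃ m : M, ((m : P) : G) • c = d)
  have hO0 : ∀ d, d ∈ O0 ↔ ∃ m : M, ((m : P) : G) • c = d := by
    intro d
    rw [Finset.mem_filter]
    exact ⟨fun h => h.2, fun h => ⟨Finset.mem_univ _, h⟩⟩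
  have hO0st : ∀ m : M, ∀ d ∈ O0, ((m : P) : G) • d ∈ O0 := by
    intro m d hd
    obtain ⟨m', hm'⟩ := (hO0 d).1 hd
    rw [hO0]
    refine ⟨m * m', ?_⟩
    rw [← hm', ← mul_smul]
    rfl
  let φ : M →* Multiplicative (ZMod p) :=
    { toFun := fun m => TO lam O0 ((m : P) : G)
      map_one' := TO_one lam O0
      map_mul' := fun m m' => TO_mul lam _ (hO0st m') }
  let gP : P := ⟨(g : G), hgP⟩
  have hgM : gP ∈ M := hQM ((hQ gP).2 hgc)
  refine ⟨M, hMn, φ, gP, hMi, hgM, ?_⟩
  haveI : Fintype (P ⧸ M) := Fintype.ofFinite _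
  rw [TU_apply]
  -- the map from the orbit to `P / M`
  have hx : ∀ d ∈ O, ∃ x : P, (x : G) • c = d := by
    intro d hd
    have h3 : q d = q c := ((hO d).1 hd).trans ((hO c).1 hcO).symm
    exact (hq d c).1 h3
  choose! X hX using hx
  let u : G ⧸ N → P ⧸ M := fun d => (X d : P ⧸ M)
  have hfibu : ∀ y : P ⧸ M, (O.filter (fun d => u d = y)) = O0.image (fun d => ((y.out : P) : G) • d) := by
    intro y
    ext d
    rw [Finset.mem_filter, Finset.mem_image]
    constructor
    · rintro ⟨hd, hu⟩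
      have h3 : (y.out)⁻¹ * X d ∈ M := by
        apply QuotientGroup.eq.1
        rw [QuotientGroup.out_eq']
        exact hu.symm
      refine ⟨(((y.out)⁻¹ * X d : P) : G) • c, (hO0 _).2 ⟨⟨_, h3⟩, rfl⟩, ?_⟩
      rw [← mul_smul]
      have h4 : ((y.out : P) : G) * (((y.out)⁻¹ * X d : P) : G) = (X d : G) := by
        change ((y.out : P) : G) * (((y.out : P) : G)⁻¹ * (X d : G)) = _
        rw [mul_inv_cancel_left]
      rw [h4]
      exact hX d hd
    · rintro ⟨d', hd', rfl⟩
      obtain ⟨m, hm⟩ := (hO0 d').1 hd'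
      have hd'O : d' ∈ O := by
        rw [← hm]
        exact hOst _ (m : P).2 c hcO
      have hdO : ((y.out : P) : G) • d' ∈ O := hOst _ (y.out : P).2 d' hd'O
      refine ⟨hdO, ?_⟩
      have h3 := hX _ hdO
      -- `X d • c = y.out • m • c`
      have h4 : (m : P)⁻¹ * (y.out)⁻¹ * X (((y.out : P) : G) • d') ∈ Q := by
        rw [hQ]
        change (((m : P) : G)⁻¹ * ((y.out : P) : G)⁻¹ * (X (((y.out : P) : G) • d') : G)) • c = c
        rw [mul_smul, h3, mul_smul, inv_smul_smul, ← hm, inv_smul_smul]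
      have h5 : (y.out)⁻¹ * X (((y.out : P) : G) • d') ∈ M := by
        have h6 := M.mul_mem m.2 (hQM h4)
        have h7 : (m : P) * ((m : P)⁻¹ * (y.out)⁻¹ * X (((y.out : P) : G) • d')) =
            (y.out)⁻¹ * X (((y.out : P) : G) • d') := by
          group
        rw [h7] at h6
        exact h6
      change (X (((y.out : P) : G) • d') : P ⧸ M) = y
      have h8 := QuotientGroup.eq.2 h5
      rw [QuotientGroup.out_eq'] at h8
      exact h8.symm
  have hcoφ : ∀ y : P ⧸ M, co φ gP y = ∏ d ∈ O.filter (fun d => u d = y), co lam (g : G) d := by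
    intro y
    rw [hfibu y]
    have hfix : gP • y = y := by
      obtain ⟨z, rfl⟩ := QuotientGroup.mk_surjective y
      change ((gP * z : P) : P ⧸ M) = (z : P ⧸ M)
      apply QuotientGroup.eq.2
      have h3 := hMn.conj_mem _ (M.inv_mem hgM) z⁻¹
      have h4 : z⁻¹ * gP⁻¹ * (z⁻¹)⁻¹ = (gP * z)⁻¹ * z := by group
      rw [h4] at h3
      exact h3
    have h3 : co φ gP y = TO lam O0 (((y.out)⁻¹ * gP * y.out : P) : G) := by
      change TO lam O0 (((el M gP y : M) : P) : G) = _
      rw [el_fix hfix]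
    have hmem : (y.out)⁻¹ * gP * y.out ∈ M := by
      have h4 := hMn.conj_mem _ hgM (y.out)⁻¹
      rw [inv_inv] at h4
      exact h4
    have h5 := TO_conj lam (O := O0) (r := (((y.out)⁻¹ * gP * y.out : P) : G))
      (fun d hd => hO0st ⟨_, hmem⟩ d hd) ((y.out : P) : G)
    have h6 : ((y.out : P) : G) * (((y.out)⁻¹ * gP * y.out : P) : G) * ((y.out : P) : G)⁻¹ =
        (g : G) := by
      change ((y.out : P) : G) * (((y.out : P) : G)⁻¹ * (g : G) * ((y.out : P) : G)) *
        ((y.out : P) : G)⁻¹ = (g : G)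
      group
    rw [h6] at h5
    rw [h3, ← h5]
    rfl
  rw [Finset.prod_congr rfl (fun y _ => hcoφ y),
    Finset.prod_fiberwise O u (fun d => co lam (g : G) d)]
  exact hωne

end Pool.Agent.Helper14.LC
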